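import Pool.Agent.Helper25_CN2.AsmCls
import Pool.Agent.Helper25_CON.AsmFin

/-!
Squad CN2: final assembly of the classification
-/

noncomputable section

namespace Pool.Agent.CN2

open Pool.Agent.H25Cong Pool.Agent.CON

/-- the modules used in the final assembly -/
structure Mods2 : Prop where
  iso : A_ISO
  rat : A_RAT
  inv : A_INV
  min2 : A_MIN2
  ind2 : A_IND2
  cng : A_CNG
  div2 : B_DIV2
  tem2 : B_TEM2
  rtg : C_RTG
  dpd : D_PD
  dind : D_IND
  drk : D_RK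
  rgm : D_RGM
  rgn : D_RGN
  cls : E_CLS
  god : U_GOD
  lft : I_LFT
  chg : I_CHG
  bas : I_BAS
  iiso : I_ISO
  exc : I_EXC

variable {n : ℕ}

/-- the group generated by all reflections which preserve L -/
def RefL (L : Submodule ℤ (V n)) : Subgroup (V n ≃ₗ[ℝ] V n) :=
  Subgroup.closure {g | IsReflection g ∧ ∀ x ∈ L, g x ∈ L}

lemma ind_mono {L : Submodule ℤ (V n)} {p k k' : ℕ} (h : k' ≤ k) (hk : Ind L p k) :
    Ind L p k' := by
  obtain ⟨c, hc, hc'⟩ := hk
  refine ⟨fun i => c (Fin.castLE h i), fun i => hc _, fun z hz i => ?_⟩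
  have key := hc' (fun j => if hj : (j : ℕ) < k' then z ⟨j, hj⟩ else 0) ?_ (Fin.castLE h i)
  · simpa using key
  · intro y hy
    obtain ⟨j, hj⟩ := hz y hy
    refine ⟨j, ?_⟩
    rw [← hj]
    congr 1
    symm
    have hinj : Function.Injective (Fin.castLE h) := Fin.castLE_injective h
    have : ∑ i : Fin k', (z i : ℝ) • c (Fin.castLE h i) =
        ∑ j ∈ (Finset.univ : Finset (Fin k')).map ⟨_, hinj⟩,
          (((if hj : (j : ℕ) < k' then z ⟨j, hj⟩ else 0 : ℤ) : ℤ) : ℝ) • c j := by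
      rw [Finset.sum_map]
      refine Finset.sum_congr rfl fun i _ => ?_
      simp
    rw [this]
    refine Finset.sum_subset (Finset.subset_univ _) fun j _ hj => ?_
    have : ¬ (j : ℕ) < k' := by
      intro hlt
      apply hj
      simp only [Finset.mem_map, Finset.mem_univ, Function.Embedding.coeFn_mk, true_and]
      exact ⟨⟨j, hlt⟩, Fin.ext rfl⟩
    simp [this]

theorem fin2 (m : Mods2) (hn : 10 ≤ n) (Γ : Subgroup (V n ≃ₗ[ℝ] V n))
    (hΓ : GenByRefl Γ) (Λ : Submodule ℤ (V n)) (N : ℕ) (hΛ : IsIntegralLattice Λ)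
    (hiso : ∃ e ∈ Λ, e ≠ 0 ∧ B e e = 0) (hN : 0 < N)
    (hcom : Subgroup.Commensurable Γ (OLat Λ)) (hcong : CongSub Λ N Γ) :
    ∃ L, EvenLat L ∧ Inv Γ L ∧ Csc Λ L ∧ ∃ l ∈ reps, (l.map fun T => T.1.rk).sum + 1 = n ∧
      GrL L (blk hyp (gr l)) := by
  have hrat := rat hΓ (fun r hr hS => m.rat n Λ r (by omega) hr hΛ hiso
    (fun e he he0 hee => m.iso n Γ Λ N (by omega) hΓ hΛ hN hcom hcong (S r) hS e he he0 hee))
  have hinv := m.inv n Γ Λ hΓ hΛ hcom hrat
  obtain ⟨L, hL, hLΓ, hLc, hLp, hL2, hLmax⟩ := m.min2 n Γ Λ hn hinv (gen_isom hΓ)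
  have hInd6 : ∀ p : ℕ, p.Prime → p ≠ 2 → Ind L p 6 := fun p hp hp2 =>
    m.ind2 n L p 5 hL hp (hLp p hp hp2)
  have hInd2 : Ind L 2 5 := m.ind2 n L 2 4 hL Nat.prime_two hL2
  have hInd : ∀ p : ℕ, p.Prime → Ind L p 5 := by
    intro p hp
    by_cases h2 : p = 2
    · rw [h2]; exact hInd2
    · exact ind_mono (by norm_num) (hInd6 p hp h2)
  obtain ⟨N', hN', hcong'⟩ := m.cng n Γ Λ L N hΓ hN hcong hL hLΓ hLc
  have hisoL : ∃ e ∈ L, e ≠ 0 ∧ B e e = 0 := by
    obtain ⟨e, he, he0, hee⟩ := hiso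
    obtain ⟨t, D, ht, hD, h, -⟩ := hLc
    have hD' : (D : ℝ) ≠ 0 := by positivity
    refine ⟨((D : ℝ) * t) • e, h e he, smul_ne_zero (mul_ne_zero hD' ht.ne') he0, ?_⟩
    rw [B_smul_left, B_smul_right, hee]; simp
  have hRG : ∀ e ∈ L, ∀ f ∈ L, B e e = 0 → B f f = 0 → B e f = -1 → RG L e := by
    intro e he f hf hee hff hef
    exact m.rtg n L e f (by omega) hL he hf hee hef (fun x hx hee' hme =>
      m.tem2 n L N' e f x hL hInd hN' hcong' he hf hee hff hef hx hee' hme)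
  obtain ⟨e, he, f, hf, hee, hff, hef⟩ := m.div2 n L hL hInd hisoL
  obtain ⟨hpd, hfin, c, hc⟩ := m.dpd n L e f hL he hf hee hff hef
  have hgen := m.rgm n L e f hL he hf hee hff hef (hRG e he f hf hee hff hef)
  have hnb : ¬ Bad (bG (Mef L e f)) := by
    rintro ⟨x, hx, hnx⟩
    exact hnx (m.rgn n L e f hL he hf hee hff hef hRG x hx)
  have hrk := m.drk n L e f hL he hf hee hff hef
  obtain ⟨l, hl, hls, hlg⟩ := m.cls (Mef L e f) (bG (Mef L e f)) (n - 1) hpd hgen hnb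
    (by omega) ⟨c, hc⟩ (by
      rw [show n - 1 + 1 = n by omega]
      exact hrk)
    (m.dind n L e f 2 3 hL he hf hee hff hef Nat.prime_two hInd2)
    (fun p hp hp2 => m.dind n L e f p 4 hL he hf hee hff hef hp (hInd6 p hp hp2))
  have hlen : ∀ l : List (Ty × ℤ), (gr l).length = (l.map fun T => T.1.rk).sum := by
    intro l
    induction l with
    | nil => rfl
    | cons T l ih => simp [gr, blk, gr1, mat, ih]
  have hG := m.lft n L e f (gr l) hL he hf hee hff hef (by rw [hlen, hls]; omega) hlg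
  obtain ⟨l', hl', T, T', hchg⟩ := m.iiso l hl
  have hn' : (l.map fun T => T.1.rk).sum + 2 = n + 1 := by omega
  rw [hn'] at hchg
  have hG' := m.chg n L _ T T' _ hG hchg
  refine ⟨L, hL, hLΓ, hLc, ?_⟩
  rcases List.mem_cons.1 hl' with rfl | hl'
  · exfalso
    have h10 : n = 10 := by
      have := hG'.1
      simp only [blk, hyp, List.length_append, List.length_map, hlen] at this
      simp [Ty.rk] at this
      omega
    subst h10
    obtain ⟨L', hL', hLL', hne, hinv'⟩ := m.exc L hL hG'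
    refine hne (hLmax L' hL' (fun g hg x hx => ?_) hLL')
    refine hinv' g (gen_isom hΓ g hg) (fun y => ⟨fun hy => ?_, fun hy => hLΓ g hg y hy⟩) x hx
    have := hLΓ g⁻¹ (Γ.inv_mem hg) _ hy
    have h2 : g⁻¹ (g y) = y := g.symm_apply_apply y
    rwa [h2] at this
  · refine ⟨l', hl', ?_, hG'⟩
    have := hG'.1
    simp only [blk, hyp, List.length_append, List.length_map, hlen] at this
    simp only [List.length_cons, List.length_nil] at this
    omega

/-- the classification: every non uniform reflective congruence lattice for n ≥ 10 is contained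
in one of the 13 reflection groups -/
theorem final2 (m : Mods2) (hn : 10 ≤ n) (Γ : Subgroup (V n ≃ₗ[ℝ] V n)) (hΓ : GenByRefl Γ)
    (hnu : ¬ Uniform Γ) (hc : IsCongruence Γ) :
    ∃ l ∈ reps, (l.map fun T => T.1.rk).sum + 1 = n ∧
      ∃ a : Module.Basis (Fin (n + 1)) ℝ (V n),
        (∀ i j, B (a i) (a j) = ent (blk hyp (gr l)) i j) ∧
        Γ ≤ RefL (Submodule.span ℤ (Set.range a)) := by
  obtain ⟨Λ, N, hΛ, hN, hcom, hcong⟩ := hc
  by_cases hiso : ∃ e ∈ Λ, e ≠ 0 ∧ B e e = 0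
  · obtain ⟨L, hL, hLΓ, -, l, hl, hls, hG⟩ := fin2 m hn Γ hΓ Λ N hΛ hiso hN hcom hcong
    obtain ⟨a, ha, ha'⟩ := m.bas n L _ hL.lat hG
    refine ⟨l, hl, hls, a, ha', ?_⟩
    rw [← ha, hΓ]
    refine (Subgroup.closure_le _).2 fun g hg => Subgroup.subset_closure ⟨hg.2, fun x hx => ?_⟩
    exact hLΓ g hg.1 x hx
  · refine (hnu (m.god n Γ Λ hΛ (fun e he hee => ?_) hcom)).elim
    by_contra h0
    exact hiso ⟨e, he, h0, hee⟩

end Pool.Agent.CN2

end
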