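import Pool.Agent.Helper25_CN2.Stmts

/-!
Squad CN2: the explicit isometries (I_ISO)
-/

noncomputable section

namespace Pool.Agent.CN2.H25

open Pool.Agent.CN2

lemma iso0 : ∃ T T' : List (List ℤ), chg 14 (blk hyp (gr [(.E 8, 1), (.D 4, 1)])) T T'
    (blk hyp (gr [(.E 8, 1), (.D 4, 1)])) = true :=
  ⟨[[1, 0, 0, 0, 0, 0, 0, 0, 0, 0, 0, 0, 0, 0],
    [0, 1, 0, 0, 0, 0, 0, 0, 0, 0, 0, 0, 0, 0],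
    [0, 0, 1, 0, 0, 0, 0, 0, 0, 0, 0, 0, 0, 0],
    [0, 0, 0, 1, 0, 0, 0, 0, 0, 0, 0, 0, 0, 0],
    [0, 0, 0, 0, 1, 0, 0, 0, 0, 0, 0, 0, 0, 0],
    [0, 0, 0, 0, 0, 1, 0, 0, 0, 0, 0, 0, 0, 0],
    [0, 0, 0, 0, 0, 0, 1, 0, 0, 0, 0, 0, 0, 0],
    [0, 0, 0, 0, 0, 0, 0, 1, 0, 0, 0, 0, 0, 0],
    [0, 0, 0, 0, 0, 0, 0, 0, 1, 0, 0, 0, 0, 0],
    [0, 0, 0, 0, 0, 0, 0, 0, 0, 1, 0, 0, 0, 0],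
    [0, 0, 0, 0, 0, 0, 0, 0, 0, 0, 1, 0, 0, 0],
    [0, 0, 0, 0, 0, 0, 0, 0, 0, 0, 0, 1, 0, 0],
    [0, 0, 0, 0, 0, 0, 0, 0, 0, 0, 0, 0, 1, 0],
    [0, 0, 0, 0, 0, 0, 0, 0, 0, 0, 0, 0, 0, 1]],
   [[1, 0, 0, 0, 0, 0, 0, 0, 0, 0, 0, 0, 0, 0],
    [0, 1, 0, 0, 0, 0, 0, 0, 0, 0, 0, 0, 0, 0],
    [0, 0, 1, 0, 0, 0, 0, 0, 0, 0, 0, 0, 0, 0],
    [0, 0, 0, 1, 0, 0, 0, 0, 0, 0, 0, 0, 0, 0],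
    [0, 0, 0, 0, 1, 0, 0, 0, 0, 0, 0, 0, 0, 0],
    [0, 0, 0, 0, 0, 1, 0, 0, 0, 0, 0, 0, 0, 0],
    [0, 0, 0, 0, 0, 0, 1, 0, 0, 0, 0, 0, 0, 0],
    [0, 0, 0, 0, 0, 0, 0, 1, 0, 0, 0, 0, 0, 0],
    [0, 0, 0, 0, 0, 0, 0, 0, 1, 0, 0, 0, 0, 0],
    [0, 0, 0, 0, 0, 0, 0, 0, 0, 1, 0, 0, 0, 0],
    [0, 0, 0, 0, 0, 0, 0, 0, 0, 0, 1, 0, 0, 0],
    [0, 0, 0, 0, 0, 0, 0, 0, 0, 0, 0, 1, 0, 0],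
    [0, 0, 0, 0, 0, 0, 0, 0, 0, 0, 0, 0, 1, 0],
    [0, 0, 0, 0, 0, 0, 0, 0, 0, 0, 0, 0, 0, 1]], by decide +kernel⟩

lemma iso1 : ∃ T T' : List (List ℤ), chg 14 (blk hyp (gr [(.D 12, 1)])) T T'
    (blk hyp (gr [(.E 8, 1), (.D 4, 1)])) = true :=
  ⟨[[5, 2, 3, 1, 0, 1, 1, 0, 1, 1, 0, 1, 0, 0],
    [8, 5, 6, 2, 0, 2, 2, 0, 2, 2, 0, 2, 0, 0],
    [2, 1, 1, 0, -1, 0, 0, 0, 0, 0, -1, 0, 0, 0],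
    [-2, -1, -1, 0, 1, 0, 0, 1, 1, 1, 1, 0, 0, 0],
    [0, 0, 0, 0, -1, -1, -1, -1, -1, -1, 0, 0, 0, 0],
    [-2, -1, -1, 0, 1, 1, 1, 1, 0, 0, 0, -1, 0, 0],
    [-4, -2, -3, -1, 0, -1, -1, 0, -1, -1, 0, 0, 0, 0],
    [8, 4, 5, 1, -1, 1, 1, -1, 1, 1, -1, 0, -1, -1],
    [0, 0, 0, 0, 0, 0, 0, 0, 1, 1, 1, 1, 1, 1],
    [4, 2, 3, 1, 0, 0, 0, -1, -1, -1, -2, -1, -1, -1],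
    [0, 0, 0, 0, 0, 0, 1, 1, 1, 1, 1, 1, 1, 0],
    [0, 0, 0, 0, 0, 0, -1, -1, -1, 0, 0, 0, 0, 0],
    [-4, -2, -3, -2, -1, -2, -2, -1, -2, -3, -2, -3, -1, -1],
    [0, 0, 0, 0, 0, 0, 1, 1, 1, 1, 1, 1, 0, 1]],
   [[5, 2, 2, 5, 7, 9, 10, 3, 6, 2, 1, 2, 2, 1],
    [8, 5, 4, 10, 14, 18, 20, 6, 12, 4, 2, 4, 4, 2],
    [-10, -5, -5, -12, -17, -22, -25, -8, -15, -5, -2, -4, -4, -2],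
    [2, 1, 2, 4, 6, 7, 8, 3, 5, 2, 0, 0, 0, 0],
    [4, 2, 1, 4, 5, 7, 8, 2, 5, 2, 1, 2, 2, 1],
    [-2, -1, -1, -3, -4, -5, -6, -2, -4, -2, -1, -1, -1, -1],
    [-2, -1, -1, -2, -2, -2, -2, 0, -1, 0, 0, -1, -1, 0],
    [4, 2, 2, 4, 5, 6, 6, 1, 3, 1, 1, 2, 2, 1],
    [-2, -1, -1, -2, -3, -4, -4, -1, -2, -1, -1, -2, -1, -1],
    [-2, -1, 0, -1, -2, -2, -2, 0, -1, 0, 0, 0, -1, 0],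
    [4, 2, 1, 4, 6, 7, 7, 2, 4, 1, 1, 2, 2, 1],
    [-4, -2, -2, -5, -7, -9, -9, -3, -6, -2, -1, -2, -2, -1],
    [2, 1, 1, 2, 3, 4, 4, 1, 3, 1, 1, 1, 1, 0],
    [2, 1, 1, 2, 3, 4, 4, 1, 3, 1, 0, 1, 1, 1]], by decide +kernel⟩

lemma iso2 : ∃ T T' : List (List ℤ), chg 13 (blk hyp (gr [(.E 8, 1), (.A 3, 1)])) T T'
    (blk hyp (gr [(.E 8, 1), (.A 3, 1)])) = true :=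
  ⟨[[1, 0, 0, 0, 0, 0, 0, 0, 0, 0, 0, 0, 0],
    [0, 1, 0, 0, 0, 0, 0, 0, 0, 0, 0, 0, 0],
    [0, 0, 1, 0, 0, 0, 0, 0, 0, 0, 0, 0, 0],
    [0, 0, 0, 1, 0, 0, 0, 0, 0, 0, 0, 0, 0],
    [0, 0, 0, 0, 1, 0, 0, 0, 0, 0, 0, 0, 0],
    [0, 0, 0, 0, 0, 1, 0, 0, 0, 0, 0, 0, 0],
    [0, 0, 0, 0, 0, 0, 1, 0, 0, 0, 0, 0, 0],
    [0, 0, 0, 0, 0, 0, 0, 1, 0, 0, 0, 0, 0],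
    [0, 0, 0, 0, 0, 0, 0, 0, 1, 0, 0, 0, 0],
    [0, 0, 0, 0, 0, 0, 0, 0, 0, 1, 0, 0, 0],
    [0, 0, 0, 0, 0, 0, 0, 0, 0, 0, 1, 0, 0],
    [0, 0, 0, 0, 0, 0, 0, 0, 0, 0, 0, 1, 0],
    [0, 0, 0, 0, 0, 0, 0, 0, 0, 0, 0, 0, 1]],
   [[1, 0, 0, 0, 0, 0, 0, 0, 0, 0, 0, 0, 0],
    [0, 1, 0, 0, 0, 0, 0, 0, 0, 0, 0, 0, 0],
    [0, 0, 1, 0, 0, 0, 0, 0, 0, 0, 0, 0, 0],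
    [0, 0, 0, 1, 0, 0, 0, 0, 0, 0, 0, 0, 0],
    [0, 0, 0, 0, 1, 0, 0, 0, 0, 0, 0, 0, 0],
    [0, 0, 0, 0, 0, 1, 0, 0, 0, 0, 0, 0, 0],
    [0, 0, 0, 0, 0, 0, 1, 0, 0, 0, 0, 0, 0],
    [0, 0, 0, 0, 0, 0, 0, 1, 0, 0, 0, 0, 0],
    [0, 0, 0, 0, 0, 0, 0, 0, 1, 0, 0, 0, 0],
    [0, 0, 0, 0, 0, 0, 0, 0, 0, 1, 0, 0, 0],
    [0, 0, 0, 0, 0, 0, 0, 0, 0, 0, 1, 0, 0],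
    [0, 0, 0, 0, 0, 0, 0, 0, 0, 0, 0, 1, 0],
    [0, 0, 0, 0, 0, 0, 0, 0, 0, 0, 0, 0, 1]], by decide +kernel⟩

lemma iso3 : ∃ T T' : List (List ℤ), chg 13 (blk hyp (gr [(.D 11, 1)])) T T'
    (blk hyp (gr [(.E 8, 1), (.A 3, 1)])) = true :=
  ⟨[[3, 2, 2, 1, 1, 0, 0, 1, 0, 1, 0, 1, 0],
    [2, 3, 2, 1, 1, 0, 0, 1, 0, 1, 0, 1, 0],
    [0, 0, 0, 0, 0, 0, 0, -1, -1, -1, -1, 0, -1],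
    [0, 0, 0, 0, 0, 0, 0, 0, 0, 0, 0, 0, 1],
    [0, 0, 0, 0, 0, 0, 0, 0, 0, 1, 1, 0, 0],
    [-1, -1, -1, 0, 0, 0, 0, 0, 1, 0, 0, 0, 0],
    [1, 1, 1, 0, 0, 0, 0, 0, -1, -1, -2, -1, -1],
    [0, 0, 0, 0, 0, -1, -1, -1, -1, -1, 0, 0, 0],
    [-1, -1, -1, -1, -1, 0, 0, 0, 1, 1, 2, 1, 1],
    [0, 0, 0, 1, 1, 1, 1, 1, 0, 0, 0, 0, 0],
    [0, 0, 0, 0, 1, 1, 0, 0, 0, 0, 0, 0, 0],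
    [2, 2, 1, 0, 0, -1, 0, 1, 0, 1, 0, 1, 0],
    [0, 0, 0, 0, -1, -1, -2, -2, -2, -2, -2, -1, -1]],
   [[3, 2, 3, 6, 9, 12, 14, 7, 10, 5, -1, -2, -1],
    [2, 3, 3, 6, 9, 12, 14, 7, 10, 5, -1, -2, -1],
    [-3, -3, -4, -8, -12, -16, -18, -9, -13, -7, 1, 2, 1],
    [1, 1, 1, 2, 3, 4, 4, 2, 3, 2, -1, -1, 0],
    [-1, -1, -1, -2, -3, -4, -5, -2, -4, -2, 1, 1, 0],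
    [1, 1, 1, 2, 3, 4, 5, 2, 4, 2, 0, -1, 0],
    [1, 1, 2, 3, 4, 5, 6, 3, 4, 2, -1, -1, -1],
    [-2, -2, -3, -5, -7, -9, -10, -5, -7, -3, 1, 2, 1],
    [2, 2, 2, 4, 6, 9, 10, 5, 7, 3, -1, -2, -1],
    [-2, -2, -2, -4, -6, -9, -11, -6, -8, -4, 1, 2, 1],
    [2, 2, 2, 4, 7, 9, 11, 6, 8, 4, -1, -2, -1],
    [-2, -2, -2, -5, -8, -10, -12, -6, -8, -4, 1, 2, 1],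
    [0, 0, 0, 1, 0, 0, 0, 0, 0, 0, 0, 0, 0]], by decide +kernel⟩

lemma iso4 : ∃ T T' : List (List ℤ), chg 13 (blk hyp (gr [(.E 8, 1), (.A 1, 1), (.A 1, 1), (.A 1, 1)])) T T'
    (blk hyp (gr [(.E 8, 1), (.A 1, 1), (.A 1, 1), (.A 1, 1)])) = true :=
  ⟨[[1, 0, 0, 0, 0, 0, 0, 0, 0, 0, 0, 0, 0],
    [0, 1, 0, 0, 0, 0, 0, 0, 0, 0, 0, 0, 0],
    [0, 0, 1, 0, 0, 0, 0, 0, 0, 0, 0, 0, 0],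
    [0, 0, 0, 1, 0, 0, 0, 0, 0, 0, 0, 0, 0],
    [0, 0, 0, 0, 1, 0, 0, 0, 0, 0, 0, 0, 0],
    [0, 0, 0, 0, 0, 1, 0, 0, 0, 0, 0, 0, 0],
    [0, 0, 0, 0, 0, 0, 1, 0, 0, 0, 0, 0, 0],
    [0, 0, 0, 0, 0, 0, 0, 1, 0, 0, 0, 0, 0],
    [0, 0, 0, 0, 0, 0, 0, 0, 1, 0, 0, 0, 0],
    [0, 0, 0, 0, 0, 0, 0, 0, 0, 1, 0, 0, 0],
    [0, 0, 0, 0, 0, 0, 0, 0, 0, 0, 1, 0, 0],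
    [0, 0, 0, 0, 0, 0, 0, 0, 0, 0, 0, 1, 0],
    [0, 0, 0, 0, 0, 0, 0, 0, 0, 0, 0, 0, 1]],
   [[1, 0, 0, 0, 0, 0, 0, 0, 0, 0, 0, 0, 0],
    [0, 1, 0, 0, 0, 0, 0, 0, 0, 0, 0, 0, 0],
    [0, 0, 1, 0, 0, 0, 0, 0, 0, 0, 0, 0, 0],
    [0, 0, 0, 1, 0, 0, 0, 0, 0, 0, 0, 0, 0],
    [0, 0, 0, 0, 1, 0, 0, 0, 0, 0, 0, 0, 0],
    [0, 0, 0, 0, 0, 1, 0, 0, 0, 0, 0, 0, 0],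
    [0, 0, 0, 0, 0, 0, 1, 0, 0, 0, 0, 0, 0],
    [0, 0, 0, 0, 0, 0, 0, 1, 0, 0, 0, 0, 0],
    [0, 0, 0, 0, 0, 0, 0, 0, 1, 0, 0, 0, 0],
    [0, 0, 0, 0, 0, 0, 0, 0, 0, 1, 0, 0, 0],
    [0, 0, 0, 0, 0, 0, 0, 0, 0, 0, 1, 0, 0],
    [0, 0, 0, 0, 0, 0, 0, 0, 0, 0, 0, 1, 0],
    [0, 0, 0, 0, 0, 0, 0, 0, 0, 0, 0, 0, 1]], by decide +kernel⟩

lemma iso5 : ∃ T T' : List (List ℤ), chg 13 (blk hyp (gr [(.D 10, 1), (.A 1, 1)])) T T'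
    (blk hyp (gr [(.E 8, 1), (.A 1, 1), (.A 1, 1), (.A 1, 1)])) = true :=
  ⟨[[3, 2, 1, 2, 0, 0, 1, 0, 1, 0, 1, 0, 0],
    [2, 3, 1, 2, 0, 0, 1, 0, 1, 0, 1, 0, 0],
    [0, 0, -1, 0, 0, 0, 0, 0, 0, 0, 0, 0, 0],
    [0, 0, 0, -1, -1, -1, 0, 0, 0, 0, 0, 0, 0],
    [-1, -1, 0, 0, 1, 1, 0, 0, -1, 0, 0, 0, 0],
    [1, 1, 0, 0, -1, -1, -1, -2, -1, -2, -1, -1, 0],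
    [0, 0, 0, 0, 0, 0, 0, 1, 1, 1, 1, 1, 0],
    [0, 0, 0, 0, 0, 0, 0, 0, 0, 0, 0, -1, 0],
    [-1, -1, 0, 0, 1, 1, 1, 1, 1, 2, 0, 1, 0],
    [0, 0, 0, 0, 0, 0, 0, 0, -1, -2, -1, -1, 0],
    [2, 2, 1, 2, 1, 0, 1, 0, 1, 0, 1, 0, 0],
    [2, 2, 1, 2, 1, 2, 3, 2, 3, 2, 2, 1, 0],
    [0, 0, 0, 0, 0, 0, 0, 0, 0, 0, 0, 0, 1]],
   [[3, 2, 3, 6, 9, 11, 14, 7, 10, 5, -1, -1, 0],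
    [2, 3, 3, 6, 9, 11, 14, 7, 10, 5, -1, -1, 0],
    [0, 0, -1, 0, 0, 0, 0, 0, 0, 0, 0, 0, 0],
    [-3, -3, -4, -9, -13, -16, -20, -10, -14, -7, 1, 1, 0],
    [2, 2, 3, 6, 9, 11, 14, 7, 10, 5, 0, -1, 0],
    [1, 1, 1, 2, 4, 5, 6, 3, 4, 2, -1, 0, 0],
    [-2, -2, -2, -4, -7, -9, -12, -6, -8, -4, 1, 1, 0],
    [2, 2, 2, 4, 6, 7, 10, 5, 7, 4, -1, -1, 0],
    [-2, -2, -2, -4, -6, -6, -8, -4, -6, -3, 1, 1, 0],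
    [2, 2, 2, 4, 6, 7, 9, 5, 7, 3, -1, -1, 0],
    [-2, -2, -2, -4, -6, -8, -10, -5, -8, -4, 1, 1, 0],
    [0, 0, 0, 0, 0, 0, 0, -1, 0, 0, 0, 0, 0],
    [0, 0, 0, 0, 0, 0, 0, 0, 0, 0, 0, 0, 1]], by decide +kernel⟩

lemma iso6 : ∃ T T' : List (List ℤ), chg 13 (blk hyp (gr [(.E 7, 1), (.D 4, 1)])) T T'
    (blk hyp (gr [(.E 8, 1), (.A 1, 1), (.A 1, 1), (.A 1, 1)])) = true :=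
  ⟨[[3, 2, 1, 0, 1, 0, 1, 0, 0, 2, 1, 0, 0],
    [2, 3, 1, 0, 1, 0, 1, 0, 0, 2, 1, 0, 0],
    [-2, -2, -1, -1, -2, -1, -1, -1, -1, -2, -1, 0, 0],
    [2, 2, 1, 1, 2, 1, 1, 1, 0, 2, 1, 0, 0],
    [-2, -2, -1, 0, -1, -1, -1, -1, 0, -2, -1, 0, 0],
    [1, 1, 1, 0, 0, 0, 0, 0, 0, 1, 0, 0, 0],
    [1, 1, 0, 0, 1, 1, 1, 0, 0, 1, 1, 0, 0],
    [-1, -1, -1, -1, -1, -1, -1, 0, 0, -1, -1, 0, 0],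
    [0, 0, 0, 0, -1, -1, 0, 0, 0, 0, 0, 0, 0],
    [-1, -1, 0, 0, 0, 0, -1, 0, 0, -1, 0, 0, 0],
    [2, 2, 1, 0, 1, 0, 1, 0, 0, 1, 0, -1, 0],
    [-2, -2, -1, 0, -1, 0, -1, 0, 0, -1, 0, 0, 1],
    [-2, -2, -1, 0, -1, 0, -1, 0, 0, -2, -2, -1, -1]],
   [[3, 2, 0, -2, -2, -4, -5, -2, -3, -1, -1, 1, 1],
    [2, 3, 0, -2, -2, -4, -5, -2, -3, -1, -1, 1, 1],
    [-2, -2, 0, 1, 1, 3, 3, 1, 2, 1, 1, -1, -1],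
    [2, 2, 0, -1, -1, -3, -4, -2, -2, -1, -1, 1, 1],
    [-2, -2, 0, 2, 2, 3, 4, 2, 2, 1, 1, -1, -1],
    [2, 2, 0, -2, -2, -3, -4, -2, -3, -1, -1, 1, 1],
    [-2, -2, 0, 1, 1, 2, 3, 1, 2, 0, 1, -1, -1],
    [0, 0, 0, 0, -1, -1, -1, 0, 0, 0, 0, 0, 0],
    [0, 0, -1, -1, 0, 0, 0, 0, 0, 0, 0, 0, 0],
    [-3, -3, 0, 3, 3, 6, 7, 3, 4, 1, 1, -1, -1],
    [0, 0, 0, 0, 0, 0, 1, 0, 1, 1, 0, 0, 0],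
    [1, 1, 0, -1, -1, -2, -3, -1, -2, -1, -1, 0, 0],
    [1, 1, 0, -1, -1, -2, -3, -1, -2, -1, 0, 1, 0]], by decide +kernel⟩

lemma iso7 : ∃ T T' : List (List ℤ), chg 12 (blk hyp (gr [(.E 8, 1), (.A 2, 1)])) T T'
    (blk hyp (gr [(.E 8, 1), (.A 2, 1)])) = true :=
  ⟨[[1, 0, 0, 0, 0, 0, 0, 0, 0, 0, 0, 0],
    [0, 1, 0, 0, 0, 0, 0, 0, 0, 0, 0, 0],
    [0, 0, 1, 0, 0, 0, 0, 0, 0, 0, 0, 0],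
    [0, 0, 0, 1, 0, 0, 0, 0, 0, 0, 0, 0],
    [0, 0, 0, 0, 1, 0, 0, 0, 0, 0, 0, 0],
    [0, 0, 0, 0, 0, 1, 0, 0, 0, 0, 0, 0],
    [0, 0, 0, 0, 0, 0, 1, 0, 0, 0, 0, 0],
    [0, 0, 0, 0, 0, 0, 0, 1, 0, 0, 0, 0],
    [0, 0, 0, 0, 0, 0, 0, 0, 1, 0, 0, 0],
    [0, 0, 0, 0, 0, 0, 0, 0, 0, 1, 0, 0],
    [0, 0, 0, 0, 0, 0, 0, 0, 0, 0, 1, 0],
    [0, 0, 0, 0, 0, 0, 0, 0, 0, 0, 0, 1]],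
   [[1, 0, 0, 0, 0, 0, 0, 0, 0, 0, 0, 0],
    [0, 1, 0, 0, 0, 0, 0, 0, 0, 0, 0, 0],
    [0, 0, 1, 0, 0, 0, 0, 0, 0, 0, 0, 0],
    [0, 0, 0, 1, 0, 0, 0, 0, 0, 0, 0, 0],
    [0, 0, 0, 0, 1, 0, 0, 0, 0, 0, 0, 0],
    [0, 0, 0, 0, 0, 1, 0, 0, 0, 0, 0, 0],
    [0, 0, 0, 0, 0, 0, 1, 0, 0, 0, 0, 0],
    [0, 0, 0, 0, 0, 0, 0, 1, 0, 0, 0, 0],
    [0, 0, 0, 0, 0, 0, 0, 0, 1, 0, 0, 0],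
    [0, 0, 0, 0, 0, 0, 0, 0, 0, 1, 0, 0],
    [0, 0, 0, 0, 0, 0, 0, 0, 0, 0, 1, 0],
    [0, 0, 0, 0, 0, 0, 0, 0, 0, 0, 0, 1]], by decide +kernel⟩

lemma iso8 : ∃ T T' : List (List ℤ), chg 12 (blk hyp (gr [(.E 8, 1), (.A 1, 1), (.A 1, 1)])) T T'
    (blk hyp (gr [(.E 8, 1), (.A 1, 1), (.A 1, 1)])) = true :=
  ⟨[[1, 0, 0, 0, 0, 0, 0, 0, 0, 0, 0, 0],
    [0, 1, 0, 0, 0, 0, 0, 0, 0, 0, 0, 0],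
    [0, 0, 1, 0, 0, 0, 0, 0, 0, 0, 0, 0],
    [0, 0, 0, 1, 0, 0, 0, 0, 0, 0, 0, 0],
    [0, 0, 0, 0, 1, 0, 0, 0, 0, 0, 0, 0],
    [0, 0, 0, 0, 0, 1, 0, 0, 0, 0, 0, 0],
    [0, 0, 0, 0, 0, 0, 1, 0, 0, 0, 0, 0],
    [0, 0, 0, 0, 0, 0, 0, 1, 0, 0, 0, 0],
    [0, 0, 0, 0, 0, 0, 0, 0, 1, 0, 0, 0],
    [0, 0, 0, 0, 0, 0, 0, 0, 0, 1, 0, 0],
    [0, 0, 0, 0, 0, 0, 0, 0, 0, 0, 1, 0],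
    [0, 0, 0, 0, 0, 0, 0, 0, 0, 0, 0, 1]],
   [[1, 0, 0, 0, 0, 0, 0, 0, 0, 0, 0, 0],
    [0, 1, 0, 0, 0, 0, 0, 0, 0, 0, 0, 0],
    [0, 0, 1, 0, 0, 0, 0, 0, 0, 0, 0, 0],
    [0, 0, 0, 1, 0, 0, 0, 0, 0, 0, 0, 0],
    [0, 0, 0, 0, 1, 0, 0, 0, 0, 0, 0, 0],
    [0, 0, 0, 0, 0, 1, 0, 0, 0, 0, 0, 0],
    [0, 0, 0, 0, 0, 0, 1, 0, 0, 0, 0, 0],
    [0, 0, 0, 0, 0, 0, 0, 1, 0, 0, 0, 0],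
    [0, 0, 0, 0, 0, 0, 0, 0, 1, 0, 0, 0],
    [0, 0, 0, 0, 0, 0, 0, 0, 0, 1, 0, 0],
    [0, 0, 0, 0, 0, 0, 0, 0, 0, 0, 1, 0],
    [0, 0, 0, 0, 0, 0, 0, 0, 0, 0, 0, 1]], by decide +kernel⟩

lemma iso9 : ∃ T T' : List (List ℤ), chg 12 (blk hyp (gr [(.D 10, 1)])) T T'
    (blk hyp (gr [(.E 8, 1), (.A 1, 1), (.A 1, 1)])) = true :=
  ⟨[[3, 2, 2, 1, 0, 1, 0, 1, 0, 1, 0, 1],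
    [2, 3, 2, 1, 0, 1, 0, 1, 0, 1, 0, 1],
    [-1, -1, -1, -1, -1, -1, 0, -1, -1, -2, -1, -1],
    [0, 0, 0, 0, 1, 1, 0, 0, 0, 0, 0, 0],
    [1, 1, 1, 0, -1, -1, -1, -1, -1, 0, 0, 0],
    [0, 0, 0, 1, 1, 1, 1, 1, 1, 1, 0, 1],
    [-2, -2, -2, -2, -1, -2, -1, -1, 0, -1, 0, -1],
    [1, 1, 1, 1, 1, 2, 2, 2, 1, 2, 1, 1],
    [1, 1, 1, 1, 0, 1, 0, 0, 0, 0, 0, 0],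
    [0, 0, 0, 0, 0, -1, -1, -1, -2, -2, -1, -1],
    [2, 2, 1, 0, -1, 0, -1, 0, -1, 0, -1, 0],
    [2, 2, 1, 0, -1, 0, -1, 0, -1, 0, 0, 1]],
   [[3, 2, 3, 5, 7, 10, 13, 6, 8, 4, -1, -1],
    [2, 3, 3, 5, 7, 10, 13, 6, 8, 4, -1, -1],
    [-3, -3, -4, -7, -10, -15, -19, -9, -12, -6, 1, 1],
    [0, 0, 0, 0, 1, 2, 2, 1, 2, 1, 0, 0],
    [2, 2, 2, 4, 5, 7, 9, 4, 5, 3, -1, -1],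
    [-2, -2, -2, -3, -5, -7, -9, -4, -5, -3, 1, 1],
    [2, 2, 3, 4, 6, 8, 10, 5, 6, 3, -1, -1],
    [-2, -2, -3, -5, -7, -9, -11, -5, -7, -3, 1, 1],
    [2, 2, 2, 3, 4, 6, 8, 3, 5, 2, -1, -1],
    [-1, -1, -1, -1, -1, -2, -3, -1, -2, -1, 1, 0],
    [1, 1, 1, 2, 3, 4, 6, 3, 4, 2, -1, 0],
    [-1, -1, -1, -2, -3, -4, -6, -3, -4, -2, 0, 1]], by decide +kernel⟩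

lemma iso10 : ∃ T T' : List (List ℤ), chg 12 (blk hyp (gr [(.E 8, 1), (.A 1, 1), (.A 1, 2)])) T T'
    (blk hyp (gr [(.E 8, 1), (.A 1, 1), (.A 1, 2)])) = true :=
  ⟨[[1, 0, 0, 0, 0, 0, 0, 0, 0, 0, 0, 0],
    [0, 1, 0, 0, 0, 0, 0, 0, 0, 0, 0, 0],
    [0, 0, 1, 0, 0, 0, 0, 0, 0, 0, 0, 0],
    [0, 0, 0, 1, 0, 0, 0, 0, 0, 0, 0, 0],
    [0, 0, 0, 0, 1, 0, 0, 0, 0, 0, 0, 0],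
    [0, 0, 0, 0, 0, 1, 0, 0, 0, 0, 0, 0],
    [0, 0, 0, 0, 0, 0, 1, 0, 0, 0, 0, 0],
    [0, 0, 0, 0, 0, 0, 0, 1, 0, 0, 0, 0],
    [0, 0, 0, 0, 0, 0, 0, 0, 1, 0, 0, 0],
    [0, 0, 0, 0, 0, 0, 0, 0, 0, 1, 0, 0],
    [0, 0, 0, 0, 0, 0, 0, 0, 0, 0, 1, 0],
    [0, 0, 0, 0, 0, 0, 0, 0, 0, 0, 0, 1]],
   [[1, 0, 0, 0, 0, 0, 0, 0, 0, 0, 0, 0],
    [0, 1, 0, 0, 0, 0, 0, 0, 0, 0, 0, 0],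
    [0, 0, 1, 0, 0, 0, 0, 0, 0, 0, 0, 0],
    [0, 0, 0, 1, 0, 0, 0, 0, 0, 0, 0, 0],
    [0, 0, 0, 0, 1, 0, 0, 0, 0, 0, 0, 0],
    [0, 0, 0, 0, 0, 1, 0, 0, 0, 0, 0, 0],
    [0, 0, 0, 0, 0, 0, 1, 0, 0, 0, 0, 0],
    [0, 0, 0, 0, 0, 0, 0, 1, 0, 0, 0, 0],
    [0, 0, 0, 0, 0, 0, 0, 0, 1, 0, 0, 0],
    [0, 0, 0, 0, 0, 0, 0, 0, 0, 1, 0, 0],
    [0, 0, 0, 0, 0, 0, 0, 0, 0, 0, 1, 0],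
    [0, 0, 0, 0, 0, 0, 0, 0, 0, 0, 0, 1]], by decide +kernel⟩

lemma iso11 : ∃ T T' : List (List ℤ), chg 12 (blk hyp (gr [(.D 9, 1), (.A 1, 1)])) T T'
    (blk hyp (gr [(.E 8, 1), (.A 1, 1), (.A 1, 2)])) = true :=
  ⟨[[5, 2, 1, 0, 1, 0, 1, 0, 3, 1, 0, 0],
    [8, 5, 2, 0, 2, 0, 2, 0, 6, 2, 0, 0],
    [-4, -2, 0, 1, 0, 1, 1, 2, -1, 0, 1, 0],
    [4, 2, 1, 0, 0, -1, -1, -2, 1, 0, -1, 0],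
    [-2, -1, -1, 0, 0, 0, 0, 1, 0, 0, 1, 0],
    [2, 1, 0, -1, -1, -1, 0, -1, 0, 0, -1, 0],
    [-2, -1, 0, 0, 0, 1, 0, 1, 0, 0, 1, 0],
    [4, 2, 1, 0, 1, -1, 0, -1, 1, 0, -1, 0],
    [0, 0, 0, 1, 1, 1, 1, 1, 1, 1, 0, 0],
    [0, 0, 0, 0, 0, 0, 0, -1, -1, -1, 0, 0],
    [0, 0, 0, 0, 0, 0, 0, 0, 0, 0, 0, -1],
    [-8, -4, -2, 0, -2, 0, -2, 0, -6, -3, -1, 0]],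
   [[5, 2, -3, -8, -11, -15, -18, -10, -12, -6, 0, 1],
    [8, 5, -6, -16, -22, -30, -36, -20, -24, -12, 0, 2],
    [-4, -2, 3, 7, 9, 13, 16, 9, 10, 5, 0, -1],
    [4, 2, -2, -6, -9, -13, -16, -9, -10, -5, 0, 1],
    [-4, -2, 2, 6, 9, 12, 15, 9, 10, 5, 0, -1],
    [4, 2, -3, -7, -10, -13, -15, -9, -10, -5, 0, 1],
    [-4, -2, 3, 7, 10, 14, 16, 9, 11, 6, 0, -1],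
    [8, 4, -5, -14, -19, -26, -31, -17, -21, -11, 0, 2],
    [-10, -5, 7, 19, 26, 35, 42, 23, 28, 14, 0, -2],
    [2, 1, -2, -5, -7, -9, -11, -6, -7, -4, 0, 0],
    [6, 3, -4, -11, -15, -21, -25, -14, -17, -8, 0, 1],
    [0, 0, 0, 0, 0, 0, 0, 0, 0, 0, -1, 0]], by decide +kernel⟩

lemma iso12 : ∃ T T' : List (List ℤ), chg 12 (blk hyp (gr [(.E 7, 1), (.A 3, 1)])) T T'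
    (blk hyp (gr [(.E 8, 1), (.A 1, 1), (.A 1, 2)])) = true :=
  ⟨[[3, 2, 1, 0, 1, 0, 1, 0, 0, 2, 1, 1],
    [2, 3, 1, 0, 1, 0, 1, 0, 0, 2, 1, 1],
    [-2, -2, -1, 0, 0, 1, 0, 1, 0, -2, -1, -1],
    [0, 0, 0, 0, 0, 0, 0, 0, 1, 0, 0, 0],
    [1, 1, 0, 0, 0, -1, 0, -1, -1, 1, 1, 1],
    [1, 1, 0, -1, 0, 0, 0, 0, 0, 1, 0, 0],
    [-2, -2, 0, 1, 0, 0, -1, 0, 0, -2, -1, -1],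
    [1, 1, 0, -1, -1, -1, 0, 0, 0, 1, 1, 1],
    [0, 0, 0, 0, 0, 1, 1, 0, 0, 0, 0, 0],
    [1, 1, 0, 0, 0, -1, 0, 0, 0, 1, 0, 0],
    [2, 2, 1, 0, 1, 0, 1, 0, 0, 1, 0, 1],
    [-4, -4, -2, 0, -2, 0, -2, 0, 0, -3, -2, -1]],
   [[3, 2, 2, 2, 2, 3, 5, 2, 3, 1, -1, 1],
    [2, 3, 2, 2, 2, 3, 5, 2, 3, 1, -1, 1],
    [-2, -2, -2, -2, -2, -2, -3, -1, -2, -1, 1, -1],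
    [2, 2, 1, 1, 1, 1, 3, 1, 2, 1, -1, 1],
    [-2, -2, -1, -1, -1, -2, -4, -2, -3, -1, 1, -1],
    [2, 2, 1, 1, 1, 2, 3, 1, 2, 0, -1, 1],
    [-2, -2, -1, -1, -1, -2, -3, -1, -1, 0, 1, -1],
    [0, 0, 0, -1, -1, -1, -1, 0, -1, 0, 0, 0],
    [0, 0, 0, 1, 0, 0, 0, 0, 0, 0, 0, 0],
    [-3, -3, -3, -3, -3, -4, -7, -3, -4, -1, 1, -1],
    [1, 1, 1, 1, 1, 1, 2, 1, 1, 0, -1, 0],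
    [-1, -1, -1, -1, -1, -2, -3, -1, -2, -1, 1, 0]], by decide +kernel⟩

lemma iso13 : ∃ T T' : List (List ℤ), chg 12 (blk hyp (gr [(.D 6, 1), (.D 4, 1)])) T T'
    (blk hyp (gr [(.D 6, 1), (.D 4, 1)])) = true :=
  ⟨[[1, 0, 0, 0, 0, 0, 0, 0, 0, 0, 0, 0],
    [0, 1, 0, 0, 0, 0, 0, 0, 0, 0, 0, 0],
    [0, 0, 1, 0, 0, 0, 0, 0, 0, 0, 0, 0],
    [0, 0, 0, 1, 0, 0, 0, 0, 0, 0, 0, 0],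
    [0, 0, 0, 0, 1, 0, 0, 0, 0, 0, 0, 0],
    [0, 0, 0, 0, 0, 1, 0, 0, 0, 0, 0, 0],
    [0, 0, 0, 0, 0, 0, 1, 0, 0, 0, 0, 0],
    [0, 0, 0, 0, 0, 0, 0, 1, 0, 0, 0, 0],
    [0, 0, 0, 0, 0, 0, 0, 0, 1, 0, 0, 0],
    [0, 0, 0, 0, 0, 0, 0, 0, 0, 1, 0, 0],
    [0, 0, 0, 0, 0, 0, 0, 0, 0, 0, 1, 0],
    [0, 0, 0, 0, 0, 0, 0, 0, 0, 0, 0, 1]],
   [[1, 0, 0, 0, 0, 0, 0, 0, 0, 0, 0, 0],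
    [0, 1, 0, 0, 0, 0, 0, 0, 0, 0, 0, 0],
    [0, 0, 1, 0, 0, 0, 0, 0, 0, 0, 0, 0],
    [0, 0, 0, 1, 0, 0, 0, 0, 0, 0, 0, 0],
    [0, 0, 0, 0, 1, 0, 0, 0, 0, 0, 0, 0],
    [0, 0, 0, 0, 0, 1, 0, 0, 0, 0, 0, 0],
    [0, 0, 0, 0, 0, 0, 1, 0, 0, 0, 0, 0],
    [0, 0, 0, 0, 0, 0, 0, 1, 0, 0, 0, 0],
    [0, 0, 0, 0, 0, 0, 0, 0, 1, 0, 0, 0],
    [0, 0, 0, 0, 0, 0, 0, 0, 0, 1, 0, 0],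
    [0, 0, 0, 0, 0, 0, 0, 0, 0, 0, 1, 0],
    [0, 0, 0, 0, 0, 0, 0, 0, 0, 0, 0, 1]], by decide +kernel⟩

lemma iso14 : ∃ T T' : List (List ℤ), chg 12 (blk hyp (gr [(.E 7, 1), (.A 1, 1), (.A 1, 1), (.A 1, 1)])) T T'
    (blk hyp (gr [(.D 6, 1), (.D 4, 1)])) = true :=
  ⟨[[3, 2, 2, 1, 1, 1, 1, 1, 0, 1, 1, 1],
    [2, 3, 2, 1, 1, 1, 1, 1, 0, 1, 1, 1],
    [2, 2, 2, 2, 2, 3, 2, 2, 1, 1, 1, 1],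
    [-2, -2, -2, -2, -3, -4, -2, -3, -1, -1, -1, -1],
    [2, 2, 1, 0, 0, 0, 0, 1, 0, 1, 1, 1],
    [-2, -2, -1, 0, 1, 2, 1, 1, 1, -1, -1, -1],
    [0, 0, 0, 0, -1, -1, -1, -1, -1, 0, 0, 0],
    [2, 2, 1, 0, 0, -1, 0, -1, -1, 1, 1, 1],
    [1, 1, 1, 1, 1, 1, 1, 1, 0, 1, 0, 0],
    [0, 0, 0, -1, -1, -1, -1, -1, 0, 0, 0, 0],
    [1, 1, 1, 1, 1, 1, 1, 1, 0, 0, 1, 0],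
    [1, 1, 1, 1, 1, 1, 1, 1, 0, 0, 0, 1]],
   [[3, 2, -1, 0, -1, 0, 0, -1, -2, -3, -2, -2],
    [2, 3, -1, 0, -1, 0, 0, -1, -2, -3, -2, -2],
    [-3, -3, 1, 0, 1, 0, 0, 1, 3, 5, 3, 3],
    [1, 1, 0, 0, -1, -1, 0, -1, -1, -2, -1, -1],
    [0, 0, -1, -1, -1, -1, -1, 0, 0, 0, 0, 0],
    [1, 1, 0, 0, 0, 1, 1, 0, -1, -1, -1, -1],
    [-1, -1, 1, 1, 1, 1, 0, 1, 1, 1, 1, 1],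
    [-1, -1, 0, 0, 1, 0, 0, 0, 1, 1, 1, 1],
    [1, 1, 0, 0, -1, -1, -1, -1, -1, -1, -1, -1],
    [-2, -2, 1, 0, 1, 0, 0, 1, 2, 2, 1, 1],
    [-2, -2, 1, 0, 1, 0, 0, 1, 1, 2, 2, 1],
    [-2, -2, 1, 0, 1, 0, 0, 1, 1, 2, 1, 2]], by decide +kernel⟩

lemma iso15 : ∃ T T' : List (List ℤ), chg 12 (blk hyp (gr [(.D 8, 1), (.A 1, 1), (.A 1, 1)])) T T'
    (blk hyp (gr [(.D 6, 1), (.D 4, 1)])) = true :=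
  ⟨[[3, 2, 2, 1, 0, 0, 0, 1, 1, 0, 1, 1],
    [2, 3, 2, 1, 0, 0, 0, 1, 1, 0, 1, 1],
    [0, 0, 0, 0, 0, 0, 0, -1, 0, -1, 0, 0],
    [1, 1, 1, 0, -1, -1, -1, 0, 0, 0, 0, 0],
    [-2, -2, -2, -1, 0, 0, 0, -1, -1, 0, 0, -1],
    [-1, -1, -1, -1, 0, 0, 0, 0, 0, 0, -1, 0],
    [2, 2, 2, 1, 0, 0, 0, 0, 0, 0, 1, 1],
    [0, 0, 0, 1, 0, 0, 0, 0, 0, 0, 0, 0],
    [0, 0, 0, 0, 0, 0, -1, -1, 0, 0, 0, 0],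
    [0, 0, 0, 0, 0, -1, 0, 0, 0, 0, 0, 0],
    [2, 2, 1, 0, -1, 0, 0, 1, 1, 0, 1, 1],
    [0, 0, 0, 0, 0, 0, -1, -1, -1, -1, 0, 0]],
   [[3, 2, 1, 2, 4, 4, 1, 2, -1, -2, -2, -1],
    [2, 3, 1, 2, 4, 4, 1, 2, -1, -2, -2, -1],
    [-3, -3, -1, -2, -5, -5, -1, -3, 1, 2, 2, 1],
    [0, 0, 0, 0, 0, 0, 0, 1, 0, 0, 0, 0],
    [1, 1, 0, 0, 1, 1, 0, 0, 0, 0, -1, 0],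
    [0, 0, 0, 0, 0, 0, 0, 0, 0, -1, 0, 0],
    [1, 1, 1, 1, 2, 2, 1, 1, -1, -1, -1, -1],
    [-1, -1, -1, -1, -2, -2, -1, -1, 0, 1, 1, 1],
    [-1, -1, 0, -1, -2, -2, -1, -1, 1, 1, 1, 0],
    [1, 1, 0, 1, 2, 2, 1, 1, 0, -1, -1, -1],
    [-2, -2, -1, -2, -3, -4, -1, -2, 1, 2, 2, 1],
    [-2, -2, -1, -2, -3, -2, 0, -1, 1, 2, 2, 1]], by decide +kernel⟩

lemma iso16 : ∃ T T' : List (List ℤ), chg 11 (blk hyp (gr [(.E 8, 1), (.A 1, 1)])) T T'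
    (blk hyp (gr [(.E 8, 1), (.A 1, 1)])) = true :=
  ⟨[[1, 0, 0, 0, 0, 0, 0, 0, 0, 0, 0],
    [0, 1, 0, 0, 0, 0, 0, 0, 0, 0, 0],
    [0, 0, 1, 0, 0, 0, 0, 0, 0, 0, 0],
    [0, 0, 0, 1, 0, 0, 0, 0, 0, 0, 0],
    [0, 0, 0, 0, 1, 0, 0, 0, 0, 0, 0],
    [0, 0, 0, 0, 0, 1, 0, 0, 0, 0, 0],
    [0, 0, 0, 0, 0, 0, 1, 0, 0, 0, 0],
    [0, 0, 0, 0, 0, 0, 0, 1, 0, 0, 0],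
    [0, 0, 0, 0, 0, 0, 0, 0, 1, 0, 0],
    [0, 0, 0, 0, 0, 0, 0, 0, 0, 1, 0],
    [0, 0, 0, 0, 0, 0, 0, 0, 0, 0, 1]],
   [[1, 0, 0, 0, 0, 0, 0, 0, 0, 0, 0],
    [0, 1, 0, 0, 0, 0, 0, 0, 0, 0, 0],
    [0, 0, 1, 0, 0, 0, 0, 0, 0, 0, 0],
    [0, 0, 0, 1, 0, 0, 0, 0, 0, 0, 0],
    [0, 0, 0, 0, 1, 0, 0, 0, 0, 0, 0],
    [0, 0, 0, 0, 0, 1, 0, 0, 0, 0, 0],
    [0, 0, 0, 0, 0, 0, 1, 0, 0, 0, 0],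
    [0, 0, 0, 0, 0, 0, 0, 1, 0, 0, 0],
    [0, 0, 0, 0, 0, 0, 0, 0, 1, 0, 0],
    [0, 0, 0, 0, 0, 0, 0, 0, 0, 1, 0],
    [0, 0, 0, 0, 0, 0, 0, 0, 0, 0, 1]], by decide +kernel⟩

lemma iso17 : ∃ T T' : List (List ℤ), chg 11 (blk hyp (gr [(.E 8, 1), (.A 1, 2)])) T T'
    (blk hyp (gr [(.E 8, 1), (.A 1, 2)])) = true :=
  ⟨[[1, 0, 0, 0, 0, 0, 0, 0, 0, 0, 0],
    [0, 1, 0, 0, 0, 0, 0, 0, 0, 0, 0],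
    [0, 0, 1, 0, 0, 0, 0, 0, 0, 0, 0],
    [0, 0, 0, 1, 0, 0, 0, 0, 0, 0, 0],
    [0, 0, 0, 0, 1, 0, 0, 0, 0, 0, 0],
    [0, 0, 0, 0, 0, 1, 0, 0, 0, 0, 0],
    [0, 0, 0, 0, 0, 0, 1, 0, 0, 0, 0],
    [0, 0, 0, 0, 0, 0, 0, 1, 0, 0, 0],
    [0, 0, 0, 0, 0, 0, 0, 0, 1, 0, 0],
    [0, 0, 0, 0, 0, 0, 0, 0, 0, 1, 0],
    [0, 0, 0, 0, 0, 0, 0, 0, 0, 0, 1]],
   [[1, 0, 0, 0, 0, 0, 0, 0, 0, 0, 0],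
    [0, 1, 0, 0, 0, 0, 0, 0, 0, 0, 0],
    [0, 0, 1, 0, 0, 0, 0, 0, 0, 0, 0],
    [0, 0, 0, 1, 0, 0, 0, 0, 0, 0, 0],
    [0, 0, 0, 0, 1, 0, 0, 0, 0, 0, 0],
    [0, 0, 0, 0, 0, 1, 0, 0, 0, 0, 0],
    [0, 0, 0, 0, 0, 0, 1, 0, 0, 0, 0],
    [0, 0, 0, 0, 0, 0, 0, 1, 0, 0, 0],
    [0, 0, 0, 0, 0, 0, 0, 0, 1, 0, 0],
    [0, 0, 0, 0, 0, 0, 0, 0, 0, 1, 0],
    [0, 0, 0, 0, 0, 0, 0, 0, 0, 0, 1]], by decide +kernel⟩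

lemma iso18 : ∃ T T' : List (List ℤ), chg 11 (blk hyp (gr [(.D 9, 1)])) T T'
    (blk hyp (gr [(.E 8, 1), (.A 1, 2)])) = true :=
  ⟨[[5, 2, 1, 0, 1, 0, 1, 0, 3, 1, 0],
    [8, 5, 2, 0, 2, 0, 2, 0, 6, 2, 0],
    [-2, -1, 0, 1, 1, 1, 1, 1, -1, 0, 0],
    [-2, -1, 0, 0, -1, 0, 0, 1, 0, 0, 1],
    [0, 0, 0, 0, 1, 1, 0, 0, 0, 0, 0],
    [0, 0, -1, -1, -1, -1, 0, 0, 0, 0, 0],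
    [2, 1, 1, 0, 0, 0, 0, -1, 0, 0, -1],
    [-4, -2, -1, 1, 0, 1, 0, 1, -1, 0, 1],
    [0, 0, 0, 0, 0, -1, -1, 0, 0, 0, 0],
    [0, 0, 0, 0, 0, 0, 0, -1, -1, -1, 0],
    [-8, -4, -2, 0, -2, 0, -2, 0, -6, -3, -1]],
   [[5, 2, 5, 9, 12, 15, 18, 10, 12, 6, 1],
    [8, 5, 10, 18, 24, 30, 36, 20, 24, 12, 2],
    [-4, -2, -4, -7, -10, -13, -15, -9, -10, -5, -1],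
    [4, 2, 4, 7, 9, 12, 15, 9, 10, 5, 1],
    [-4, -2, -4, -8, -10, -13, -16, -9, -10, -5, -1],
    [4, 2, 4, 8, 11, 13, 16, 9, 10, 5, 1],
    [-4, -2, -4, -8, -11, -13, -16, -9, -11, -5, -1],
    [8, 4, 9, 16, 21, 26, 31, 17, 21, 10, 2],
    [-10, -5, -12, -21, -28, -35, -42, -23, -28, -14, -2],
    [2, 1, 3, 5, 7, 9, 11, 6, 7, 3, 0],
    [6, 3, 7, 13, 17, 21, 25, 14, 17, 9, 1]], by decide +kernel⟩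

lemma iso19 : ∃ T T' : List (List ℤ), chg 11 (blk hyp (gr [(.E 8, 1), (.A 1, 3)])) T T'
    (blk hyp (gr [(.E 8, 1), (.A 1, 3)])) = true :=
  ⟨[[1, 0, 0, 0, 0, 0, 0, 0, 0, 0, 0],
    [0, 1, 0, 0, 0, 0, 0, 0, 0, 0, 0],
    [0, 0, 1, 0, 0, 0, 0, 0, 0, 0, 0],
    [0, 0, 0, 1, 0, 0, 0, 0, 0, 0, 0],
    [0, 0, 0, 0, 1, 0, 0, 0, 0, 0, 0],
    [0, 0, 0, 0, 0, 1, 0, 0, 0, 0, 0],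
    [0, 0, 0, 0, 0, 0, 1, 0, 0, 0, 0],
    [0, 0, 0, 0, 0, 0, 0, 1, 0, 0, 0],
    [0, 0, 0, 0, 0, 0, 0, 0, 1, 0, 0],
    [0, 0, 0, 0, 0, 0, 0, 0, 0, 1, 0],
    [0, 0, 0, 0, 0, 0, 0, 0, 0, 0, 1]],
   [[1, 0, 0, 0, 0, 0, 0, 0, 0, 0, 0],
    [0, 1, 0, 0, 0, 0, 0, 0, 0, 0, 0],
    [0, 0, 1, 0, 0, 0, 0, 0, 0, 0, 0],
    [0, 0, 0, 1, 0, 0, 0, 0, 0, 0, 0],
    [0, 0, 0, 0, 1, 0, 0, 0, 0, 0, 0],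
    [0, 0, 0, 0, 0, 1, 0, 0, 0, 0, 0],
    [0, 0, 0, 0, 0, 0, 1, 0, 0, 0, 0],
    [0, 0, 0, 0, 0, 0, 0, 1, 0, 0, 0],
    [0, 0, 0, 0, 0, 0, 0, 0, 1, 0, 0],
    [0, 0, 0, 0, 0, 0, 0, 0, 0, 1, 0],
    [0, 0, 0, 0, 0, 0, 0, 0, 0, 0, 1]], by decide +kernel⟩

lemma iso20 : ∃ T T' : List (List ℤ), chg 11 (blk hyp (gr [(.E 7, 1), (.A 2, 1)])) T T'
    (blk hyp (gr [(.E 8, 1), (.A 1, 3)])) = true :=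
  ⟨[[5, 2, 1, 0, 1, 0, 1, 0, 0, 3, 1],
    [8, 5, 2, 0, 2, 0, 2, 0, 0, 6, 2],
    [0, 0, 0, 0, 0, 0, 0, -1, 0, 0, 0],
    [0, 0, 0, 0, 0, -1, -1, 0, 0, 0, 0],
    [0, 0, 0, 0, 0, 1, 1, 1, 1, 0, 0],
    [4, 2, 1, 0, 0, -1, 0, -1, -1, 3, 1],
    [2, 1, 0, 0, 1, 0, 1, 0, 0, 1, 0],
    [-4, -2, 0, 0, -1, 0, -1, 0, 0, -3, -1],
    [-8, -4, -2, 0, -2, 0, -2, 0, 0, -5, -1],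
    [6, 3, 1, -1, 1, 0, 1, 0, 0, 4, 1],
    [-12, -6, -3, 0, -3, 0, -3, 0, 0, -8, -4]],
   [[5, 2, 0, 0, 0, 0, 2, 2, 3, 0, 1],
    [8, 5, 0, 0, 0, 0, 4, 4, 6, 0, 2],
    [-4, -2, 0, 0, 0, 0, -2, -1, -3, 0, -1],
    [4, 2, 0, 0, 0, 0, 1, 1, 2, -1, 1],
    [-4, -2, 0, 0, -1, -1, -2, -2, -3, 0, -1],
    [4, 2, 0, -1, -1, -1, 0, 1, 2, 0, 1],
    [-4, -2, 0, 0, 1, 1, 0, -1, -2, 0, -1],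
    [0, 0, -1, 0, 0, 0, 0, 0, 0, 0, 0],
    [0, 0, 1, 1, 1, 0, 0, 0, 0, 0, 0],
    [-10, -5, 0, 0, 0, 0, -5, -5, -7, 0, -2],
    [2, 1, 0, 0, 0, 0, 1, 1, 2, 0, 0]], by decide +kernel⟩

lemma iso21 : ∃ T T' : List (List ℤ), chg 11 (blk hyp (gr [(.E 7, 1), (.A 1, 1), (.A 1, 1)])) T T'
    (blk hyp (gr [(.E 7, 1), (.A 1, 1), (.A 1, 1)])) = true :=
  ⟨[[1, 0, 0, 0, 0, 0, 0, 0, 0, 0, 0],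
    [0, 1, 0, 0, 0, 0, 0, 0, 0, 0, 0],
    [0, 0, 1, 0, 0, 0, 0, 0, 0, 0, 0],
    [0, 0, 0, 1, 0, 0, 0, 0, 0, 0, 0],
    [0, 0, 0, 0, 1, 0, 0, 0, 0, 0, 0],
    [0, 0, 0, 0, 0, 1, 0, 0, 0, 0, 0],
    [0, 0, 0, 0, 0, 0, 1, 0, 0, 0, 0],
    [0, 0, 0, 0, 0, 0, 0, 1, 0, 0, 0],
    [0, 0, 0, 0, 0, 0, 0, 0, 1, 0, 0],
    [0, 0, 0, 0, 0, 0, 0, 0, 0, 1, 0],
    [0, 0, 0, 0, 0, 0, 0, 0, 0, 0, 1]],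
   [[1, 0, 0, 0, 0, 0, 0, 0, 0, 0, 0],
    [0, 1, 0, 0, 0, 0, 0, 0, 0, 0, 0],
    [0, 0, 1, 0, 0, 0, 0, 0, 0, 0, 0],
    [0, 0, 0, 1, 0, 0, 0, 0, 0, 0, 0],
    [0, 0, 0, 0, 1, 0, 0, 0, 0, 0, 0],
    [0, 0, 0, 0, 0, 1, 0, 0, 0, 0, 0],
    [0, 0, 0, 0, 0, 0, 1, 0, 0, 0, 0],
    [0, 0, 0, 0, 0, 0, 0, 1, 0, 0, 0],
    [0, 0, 0, 0, 0, 0, 0, 0, 1, 0, 0],
    [0, 0, 0, 0, 0, 0, 0, 0, 0, 1, 0],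
    [0, 0, 0, 0, 0, 0, 0, 0, 0, 0, 1]], by decide +kernel⟩

lemma iso22 : ∃ T T' : List (List ℤ), chg 11 (blk hyp (gr [(.D 8, 1), (.A 1, 1)])) T T'
    (blk hyp (gr [(.E 7, 1), (.A 1, 1), (.A 1, 1)])) = true :=
  ⟨[[3, 2, 2, 1, 0, 1, 0, 1, 0, 0, 1],
    [2, 3, 2, 1, 0, 1, 0, 1, 0, 0, 1],
    [1, 1, 1, 1, 0, 0, -1, -1, -1, -1, 0],
    [-3, -3, -3, -2, 0, -1, 0, -1, 0, 0, -1],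
    [1, 1, 1, 1, 0, 0, 0, 0, 0, 0, 1],
    [1, 1, 1, 0, 0, 1, 0, 0, 0, 0, 0],
    [0, 0, 0, 0, 0, 0, 1, 1, 0, 0, 0],
    [0, 0, 0, 0, 0, -1, -1, 0, 0, 0, 0],
    [-2, -2, -2, -1, -1, -1, 0, -1, 0, 0, -1],
    [2, 2, 1, 0, -1, 0, -1, 0, -1, 0, 1],
    [2, 2, 1, 0, -1, 0, -1, 0, 0, -1, 1]],
   [[3, 2, 1, 3, 2, 2, 1, 2, 2, -1, -1],
    [2, 3, 1, 3, 2, 2, 1, 2, 2, -1, -1],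
    [-3, -3, -1, -3, -1, 0, 0, -1, -2, 1, 1],
    [0, 0, 0, -1, -1, -2, -1, -1, 0, 0, 0],
    [2, 2, 1, 3, 2, 2, 1, 2, 1, -1, -1],
    [-2, -2, -1, -3, -3, -3, -2, -3, -2, 1, 1],
    [2, 2, 1, 3, 3, 3, 2, 2, 2, -1, -1],
    [-2, -2, -1, -3, -3, -3, -1, -2, -2, 1, 1],
    [1, 1, 0, 1, 1, 1, 0, 1, 1, -1, 0],
    [1, 1, 0, 1, 1, 1, 0, 1, 1, 0, -1],
    [-2, -2, -1, -2, -1, -2, -1, -2, -2, 1, 1]], by decide +kernel⟩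

lemma iso23 : ∃ T T' : List (List ℤ), chg 11 (blk hyp (gr [(.D 5, 1), (.D 4, 1)])) T T'
    (blk hyp (gr [(.D 5, 1), (.D 4, 1)])) = true :=
  ⟨[[1, 0, 0, 0, 0, 0, 0, 0, 0, 0, 0],
    [0, 1, 0, 0, 0, 0, 0, 0, 0, 0, 0],
    [0, 0, 1, 0, 0, 0, 0, 0, 0, 0, 0],
    [0, 0, 0, 1, 0, 0, 0, 0, 0, 0, 0],
    [0, 0, 0, 0, 1, 0, 0, 0, 0, 0, 0],
    [0, 0, 0, 0, 0, 1, 0, 0, 0, 0, 0],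
    [0, 0, 0, 0, 0, 0, 1, 0, 0, 0, 0],
    [0, 0, 0, 0, 0, 0, 0, 1, 0, 0, 0],
    [0, 0, 0, 0, 0, 0, 0, 0, 1, 0, 0],
    [0, 0, 0, 0, 0, 0, 0, 0, 0, 1, 0],
    [0, 0, 0, 0, 0, 0, 0, 0, 0, 0, 1]],
   [[1, 0, 0, 0, 0, 0, 0, 0, 0, 0, 0],
    [0, 1, 0, 0, 0, 0, 0, 0, 0, 0, 0],
    [0, 0, 1, 0, 0, 0, 0, 0, 0, 0, 0],
    [0, 0, 0, 1, 0, 0, 0, 0, 0, 0, 0],
    [0, 0, 0, 0, 1, 0, 0, 0, 0, 0, 0],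
    [0, 0, 0, 0, 0, 1, 0, 0, 0, 0, 0],
    [0, 0, 0, 0, 0, 0, 1, 0, 0, 0, 0],
    [0, 0, 0, 0, 0, 0, 0, 1, 0, 0, 0],
    [0, 0, 0, 0, 0, 0, 0, 0, 1, 0, 0],
    [0, 0, 0, 0, 0, 0, 0, 0, 0, 1, 0],
    [0, 0, 0, 0, 0, 0, 0, 0, 0, 0, 1]], by decide +kernel⟩

lemma iso24 : ∃ T T' : List (List ℤ), chg 11 (blk hyp (gr [(.D 8, 1), (.A 1, 2)])) T T'
    (blk hyp (gr [(.D 5, 1), (.D 4, 1)])) = true :=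
  ⟨[[5, 2, 3, 1, 0, 1, 1, 1, 1, 0, 1],
    [8, 5, 6, 2, 0, 2, 2, 2, 2, 0, 2],
    [-2, -1, -1, 0, 0, 0, 0, 0, 0, 0, -1],
    [-2, -1, -2, -1, 0, 0, 0, 0, 0, 0, 0],
    [-4, -2, -2, 0, 1, 0, 0, 0, -1, 1, -1],
    [4, 2, 2, 0, -2, -1, -1, -1, 0, -1, 1],
    [0, 0, 0, 0, 0, -1, -1, -1, 0, -1, 0],
    [-4, -2, -3, -2, -1, -2, -2, -1, -1, 0, -1],
    [0, 0, 0, 0, 0, 0, 1, 0, 0, 0, 0],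
    [0, 0, 0, 0, 0, 0, -1, -1, 0, 0, 0],
    [0, 0, 0, 0, 0, 0, -1, -1, -1, -1, 0]],
   [[5, 2, 3, 5, 6, 2, 3, 2, 2, 1, 1],
    [8, 5, 6, 10, 12, 4, 6, 4, 4, 2, 2],
    [-10, -5, -7, -12, -14, -5, -7, -4, -4, -2, -2],
    [2, 1, 2, 3, 4, 2, 2, 0, 0, 0, 0],
    [4, 2, 2, 4, 5, 1, 3, 2, 2, 1, 1],
    [-2, -1, -1, -2, -3, -1, -2, -1, -1, 0, 0],
    [0, 0, 0, 0, 0, 0, 0, 0, 1, 0, 0],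
    [0, 0, 0, 0, 0, 0, 0, 0, -1, -1, 0],
    [-2, -1, -1, -2, -3, -1, -1, -1, -1, 0, -1],
    [2, 1, 1, 2, 3, 1, 1, 1, 1, 1, 0],
    [-8, -4, -6, -8, -10, -3, -5, -4, -4, -2, -2]], by decide +kernel⟩

lemma iso25 : ∃ T T' : List (List ℤ), chg 11 (blk hyp (gr [(.D 4, 1), (.D 4, 1), (.A 1, 1)])) T T'
    (blk hyp (gr [(.D 4, 1), (.D 4, 1), (.A 1, 1)])) = true :=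
  ⟨[[1, 0, 0, 0, 0, 0, 0, 0, 0, 0, 0],
    [0, 1, 0, 0, 0, 0, 0, 0, 0, 0, 0],
    [0, 0, 1, 0, 0, 0, 0, 0, 0, 0, 0],
    [0, 0, 0, 1, 0, 0, 0, 0, 0, 0, 0],
    [0, 0, 0, 0, 1, 0, 0, 0, 0, 0, 0],
    [0, 0, 0, 0, 0, 1, 0, 0, 0, 0, 0],
    [0, 0, 0, 0, 0, 0, 1, 0, 0, 0, 0],
    [0, 0, 0, 0, 0, 0, 0, 1, 0, 0, 0],
    [0, 0, 0, 0, 0, 0, 0, 0, 1, 0, 0],
    [0, 0, 0, 0, 0, 0, 0, 0, 0, 1, 0],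
    [0, 0, 0, 0, 0, 0, 0, 0, 0, 0, 1]],
   [[1, 0, 0, 0, 0, 0, 0, 0, 0, 0, 0],
    [0, 1, 0, 0, 0, 0, 0, 0, 0, 0, 0],
    [0, 0, 1, 0, 0, 0, 0, 0, 0, 0, 0],
    [0, 0, 0, 1, 0, 0, 0, 0, 0, 0, 0],
    [0, 0, 0, 0, 1, 0, 0, 0, 0, 0, 0],
    [0, 0, 0, 0, 0, 1, 0, 0, 0, 0, 0],
    [0, 0, 0, 0, 0, 0, 1, 0, 0, 0, 0],
    [0, 0, 0, 0, 0, 0, 0, 1, 0, 0, 0],
    [0, 0, 0, 0, 0, 0, 0, 0, 1, 0, 0],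
    [0, 0, 0, 0, 0, 0, 0, 0, 0, 1, 0],
    [0, 0, 0, 0, 0, 0, 0, 0, 0, 0, 1]], by decide +kernel⟩

lemma iso26 : ∃ T T' : List (List ℤ), chg 11 (blk hyp (gr [(.D 6, 1), (.A 1, 1), (.A 1, 1), (.A 1, 1)])) T T'
    (blk hyp (gr [(.D 4, 1), (.D 4, 1), (.A 1, 1)])) = true :=
  ⟨[[3, 2, 2, 1, 1, 1, 0, 1, 1, 1, 1],
    [2, 3, 2, 1, 1, 1, 0, 1, 1, 1, 1],
    [-2, -2, -1, 0, 0, -1, 0, -1, -1, -1, -1],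
    [0, 0, 0, 0, -1, 0, 0, 0, 0, 0, 0],
    [0, 0, 0, 0, 1, 1, 0, 0, 0, 0, 0],
    [0, 0, 0, 0, 1, 1, 1, 1, 0, 0, 0],
    [2, 2, 2, 1, 1, 1, 0, 1, 0, 1, 1],
    [-1, -1, -1, 0, 0, 0, 0, 0, 0, 0, -1],
    [-2, -2, -2, -1, -1, -1, 0, -1, -1, -1, 0],
    [2, 2, 2, 1, 1, 1, 0, 1, 1, 0, 1],
    [2, 2, 2, 2, 2, 2, 1, 1, 1, 1, 1]],
   [[3, 2, 2, 2, 1, 1, -1, 0, 1, -1, -1],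
    [2, 3, 2, 2, 1, 1, -1, 0, 1, -1, -1],
    [-3, -3, -2, -2, -1, -1, 1, -1, -2, 1, 1],
    [1, 1, 1, 1, 0, 0, 0, 1, 1, 0, 0],
    [0, 0, 0, -1, 0, 0, 0, 0, 0, 0, 0],
    [0, 0, 0, 1, 1, 0, 0, 0, 0, 0, 0],
    [1, 1, 1, 1, 0, 1, -1, -1, 0, -1, 0],
    [-1, -1, -1, -1, -1, 0, 1, 1, 0, 1, 0],
    [-2, -2, -2, -2, -1, -1, 0, 0, -1, 1, 1],
    [-2, -2, -2, -2, -1, -1, 1, 0, -1, 0, 1],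
    [-2, -2, -2, -2, -1, -1, 1, 0, 0, 1, 1]], by decide +kernel⟩

lemma iso27 : ∃ T T' : List (List ℤ), chg 11 (blk hyp (gr [(.E 7, 1), (.A 1, 1), (.A 1, 2)])) T T'
    (blk hyp (gr [(.E 7, 1), (.A 1, 1), (.A 1, 2)])) = true :=
  ⟨[[1, 0, 0, 0, 0, 0, 0, 0, 0, 0, 0],
    [0, 1, 0, 0, 0, 0, 0, 0, 0, 0, 0],
    [0, 0, 1, 0, 0, 0, 0, 0, 0, 0, 0],
    [0, 0, 0, 1, 0, 0, 0, 0, 0, 0, 0],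
    [0, 0, 0, 0, 1, 0, 0, 0, 0, 0, 0],
    [0, 0, 0, 0, 0, 1, 0, 0, 0, 0, 0],
    [0, 0, 0, 0, 0, 0, 1, 0, 0, 0, 0],
    [0, 0, 0, 0, 0, 0, 0, 1, 0, 0, 0],
    [0, 0, 0, 0, 0, 0, 0, 0, 1, 0, 0],
    [0, 0, 0, 0, 0, 0, 0, 0, 0, 1, 0],
    [0, 0, 0, 0, 0, 0, 0, 0, 0, 0, 1]],
   [[1, 0, 0, 0, 0, 0, 0, 0, 0, 0, 0],
    [0, 1, 0, 0, 0, 0, 0, 0, 0, 0, 0],
    [0, 0, 1, 0, 0, 0, 0, 0, 0, 0, 0],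
    [0, 0, 0, 1, 0, 0, 0, 0, 0, 0, 0],
    [0, 0, 0, 0, 1, 0, 0, 0, 0, 0, 0],
    [0, 0, 0, 0, 0, 1, 0, 0, 0, 0, 0],
    [0, 0, 0, 0, 0, 0, 1, 0, 0, 0, 0],
    [0, 0, 0, 0, 0, 0, 0, 1, 0, 0, 0],
    [0, 0, 0, 0, 0, 0, 0, 0, 1, 0, 0],
    [0, 0, 0, 0, 0, 0, 0, 0, 0, 1, 0],
    [0, 0, 0, 0, 0, 0, 0, 0, 0, 0, 1]], by decide +kernel⟩

lemma iso28 : ∃ T T' : List (List ℤ), chg 11 (blk hyp (gr [(.D 7, 1), (.A 1, 1), (.A 1, 1)])) T T'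
    (blk hyp (gr [(.E 7, 1), (.A 1, 1), (.A 1, 2)])) = true :=
  ⟨[[3, 2, 1, 0, 1, 2, 0, 0, 1, 0, 1],
    [2, 3, 1, 0, 1, 2, 0, 0, 1, 0, 1],
    [-2, -2, 0, 1, 1, 0, 2, 1, 0, 0, -1],
    [1, 1, 0, 0, 0, 1, 0, 0, 1, 0, 0],
    [-1, -1, -1, -1, -1, -2, -1, -1, -1, 0, 0],
    [0, 0, 1, 1, 0, 0, 0, 0, 0, 0, 0],
    [-1, -1, -1, 0, 0, 0, 1, 1, 0, 0, 0],
    [1, 1, 0, -1, 0, 1, 0, 0, 0, 0, 0],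
    [0, 0, 0, 0, 0, -1, -1, 0, 0, 0, 0],
    [0, 0, 0, 0, 0, 0, 0, 0, 0, -1, 0],
    [4, 4, 2, 0, 2, 4, 2, 1, 3, 0, 2]],
   [[3, 2, 3, 4, 6, 7, 4, 4, 2, 0, -1],
    [2, 3, 3, 4, 6, 7, 4, 4, 2, 0, -1],
    [-2, -2, -2, -3, -4, -4, -3, -2, -1, 0, 1],
    [2, 2, 2, 3, 4, 5, 3, 2, 1, 0, -1],
    [0, 0, 0, -1, -1, -2, -1, -1, 0, 0, 0],
    [-3, -3, -4, -5, -8, -9, -5, -5, -3, 0, 1],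
    [3, 3, 4, 5, 8, 9, 5, 5, 2, 0, -1],
    [0, 0, 0, 0, 0, 1, 1, 1, 1, 0, 0],
    [-2, -2, -2, -2, -4, -5, -3, -3, -1, 0, 1],
    [0, 0, 0, 0, 0, 0, 0, 0, 0, -1, 0],
    [-2, -2, -3, -4, -5, -6, -3, -4, -2, 0, 1]], by decide +kernel⟩

lemma iso29 : ∃ T T' : List (List ℤ), chg 11 (blk hyp (gr [(.D 6, 1), (.A 3, 1)])) T T'
    (blk hyp (gr [(.E 7, 1), (.A 1, 1), (.A 1, 2)])) = true :=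
  ⟨[[3, 2, 1, 0, 1, 0, 1, 0, 1, 2, 0],
    [2, 3, 1, 0, 1, 0, 1, 0, 1, 2, 0],
    [0, 0, 1, 1, 1, 1, 0, 1, 0, 0, 0],
    [0, 0, 0, 0, 0, 0, 0, -1, 0, 0, 0],
    [0, 0, 0, 1, 1, 1, 1, 1, 0, 0, 0],
    [0, 0, 0, -1, -1, 0, 0, 0, 0, 0, 0],
    [0, 0, 0, 0, -1, -2, -1, -1, 0, 0, 0],
    [1, 1, 0, 0, 1, 0, 0, 0, 1, 1, 0],
    [0, 0, 0, 0, 0, 0, 0, 0, -1, 0, 0],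
    [-2, -2, -1, 0, -1, 0, -1, 0, -1, -2, -1],
    [-4, -4, -2, 0, -2, 0, -2, 0, -1, -2, 1]],
   [[3, 2, -2, -4, -6, -8, -4, -6, -3, 1, 1],
    [2, 3, -2, -4, -6, -8, -4, -6, -3, 1, 1],
    [-2, -2, 2, 3, 4, 6, 3, 4, 2, -1, -1],
    [2, 2, -1, -2, -3, -5, -2, -4, -2, 1, 1],
    [-2, -2, 1, 2, 3, 4, 2, 4, 2, -1, -1],
    [2, 2, -1, -2, -4, -5, -3, -4, -2, 1, 1],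
    [-2, -2, 1, 3, 5, 6, 3, 4, 2, -1, -1],
    [0, 0, 0, -1, 0, 0, 0, 0, 0, 0, 0],
    [0, 0, 0, 0, 0, 0, 0, 0, -1, 0, 0],
    [-3, -3, 3, 6, 9, 12, 6, 9, 5, -1, -1],
    [2, 2, -2, -4, -6, -8, -4, -6, -3, 0, 1]], by decide +kernel⟩

/-- I4 -/
theorem i_iso : I_ISO := by
  intro l hl
  simp only [good, List.mem_cons, List.not_mem_nil, or_false] at hl
  rcases hl with rfl | rfl | rfl | rfl | rfl | rfl | rfl | rfl | rfl | rfl | rfl | rfl | rfl | rfl | rfl | rfl | rfl | rfl | rfl | rfl | rfl | rfl | rfl | rfl | rfl | rfl | rfl | rfl | rfl | rfl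
  · exact ⟨[(.E 8, 1), (.D 4, 1)], by simp [reps], iso0⟩
  · exact ⟨[(.E 8, 1), (.D 4, 1)], by simp [reps], iso1⟩
  · exact ⟨[(.E 8, 1), (.A 3, 1)], by simp [reps], iso2⟩
  · exact ⟨[(.E 8, 1), (.A 3, 1)], by simp [reps], iso3⟩
  · exact ⟨[(.E 8, 1), (.A 1, 1), (.A 1, 1), (.A 1, 1)], by simp [reps], iso4⟩
  · exact ⟨[(.E 8, 1), (.A 1, 1), (.A 1, 1), (.A 1, 1)], by simp [reps], iso5⟩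
  · exact ⟨[(.E 8, 1), (.A 1, 1), (.A 1, 1), (.A 1, 1)], by simp [reps], iso6⟩
  · exact ⟨[(.E 8, 1), (.A 2, 1)], by simp [reps], iso7⟩
  · exact ⟨[(.E 8, 1), (.A 1, 1), (.A 1, 1)], by simp [reps], iso8⟩
  · exact ⟨[(.E 8, 1), (.A 1, 1), (.A 1, 1)], by simp [reps], iso9⟩
  · exact ⟨[(.E 8, 1), (.A 1, 1), (.A 1, 2)], by simp [reps], iso10⟩
  · exact ⟨[(.E 8, 1), (.A 1, 1), (.A 1, 2)], by simp [reps], iso11⟩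
  · exact ⟨[(.E 8, 1), (.A 1, 1), (.A 1, 2)], by simp [reps], iso12⟩
  · exact ⟨[(.D 6, 1), (.D 4, 1)], by simp [reps], iso13⟩
  · exact ⟨[(.D 6, 1), (.D 4, 1)], by simp [reps], iso14⟩
  · exact ⟨[(.D 6, 1), (.D 4, 1)], by simp [reps], iso15⟩
  · exact ⟨[(.E 8, 1), (.A 1, 1)], by simp [reps], iso16⟩
  · exact ⟨[(.E 8, 1), (.A 1, 2)], by simp [reps], iso17⟩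
  · exact ⟨[(.E 8, 1), (.A 1, 2)], by simp [reps], iso18⟩
  · exact ⟨[(.E 8, 1), (.A 1, 3)], by simp [reps], iso19⟩
  · exact ⟨[(.E 8, 1), (.A 1, 3)], by simp [reps], iso20⟩
  · exact ⟨[(.E 7, 1), (.A 1, 1), (.A 1, 1)], by simp [reps], iso21⟩
  · exact ⟨[(.E 7, 1), (.A 1, 1), (.A 1, 1)], by simp [reps], iso22⟩
  · exact ⟨[(.D 5, 1), (.D 4, 1)], by simp [reps], iso23⟩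
  · exact ⟨[(.D 5, 1), (.D 4, 1)], by simp [reps], iso24⟩
  · exact ⟨[(.D 4, 1), (.D 4, 1), (.A 1, 1)], by simp [reps], iso25⟩
  · exact ⟨[(.D 4, 1), (.D 4, 1), (.A 1, 1)], by simp [reps], iso26⟩
  · exact ⟨[(.E 7, 1), (.A 1, 1), (.A 1, 2)], by simp [reps], iso27⟩
  · exact ⟨[(.E 7, 1), (.A 1, 1), (.A 1, 2)], by simp [reps], iso28⟩
  · exact ⟨[(.E 7, 1), (.A 1, 1), (.A 1, 2)], by simp [reps], iso29⟩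

end Pool.Agent.CN2.H25

end
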