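import Pool.Agent.Helper25_CN2.Defs

/-!
Squad CN2: the module statements. Plan with complete proofs: /team-store/PLAN_CN2.md
-/

noncomputable section

namespace Pool.Agent.CN2

open Pool.Agent.H25Cong Pool.Agent.CON

/-! ### Parts A, B, D: the reduction, for n ≥ 10 -/

/-- A7': a minimal lattice -/
def A_MIN2 : Prop := ∀ (n : ℕ) (Γ : Subgroup (V n ≃ₗ[ℝ] V n)) (Λ : Submodule ℤ (V n)), 10 ≤ n →
  (∃ L, EvenLat L ∧ Inv Γ L ∧ Csc Λ L) → (∀ g ∈ Γ, Isom g) →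
  ∃ L, EvenLat L ∧ Inv Γ L ∧ Csc Λ L ∧
    (∀ p : ℕ, p.Prime → p ≠ 2 → p ^ 5 < (Rad L p).toAddSubgroup.relIndex L.toAddSubgroup) ∧
    2 ^ 4 < (Rad L 2).toAddSubgroup.relIndex L.toAddSubgroup ∧
    ∀ L' : Submodule ℤ (V n), EvenLat L' → Inv Γ L' → L ≤ L' → L' = L

/-- A8' -/
def A_IND2 : Prop := ∀ (n : ℕ) (L : Submodule ℤ (V n)) (p k : ℕ), EvenLat L → p.Prime →
  p ^ k < (Rad L p).toAddSubgroup.relIndex L.toAddSubgroup → Ind L p (k + 1)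

/-- B5': one hyperbolic pair and two vectors orthogonal to it -/
def B_SPN2 : Prop := ∀ (A : Type) [AddCommGroup A] (b : A → A → ℤ) (q : A → ℤ) (p : ℕ)
  (u w y y' : A) (H : AddSubgroup A), QF b q → p.Prime → HP b q p u w →
  (p : ℤ) ∣ b u y → (p : ℤ) ∣ b u y' → (p : ℤ) ∣ b w y → (p : ℤ) ∣ b w y' → ¬ (p : ℤ) ∣ b y y' →
  (∀ x : A, (p : ℤ) • x ∈ H) → (∀ v, (p : ℤ) ∣ q v - 1 → (∃ y, ¬ (p : ℤ) ∣ b v y) → v ∈ H) →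
  H = ⊤

/-- B6' -/
def B_DIV2 : Prop := ∀ (n : ℕ) (L : Submodule ℤ (V n)), EvenLat L →
  (∀ p : ℕ, p.Prime → Ind L p 5) → (∃ e ∈ L, e ≠ 0 ∧ B e e = 0) →
  ∃ e ∈ L, ∃ f ∈ L, B e e = 0 ∧ B f f = 0 ∧ B e f = -1

/-- B8' -/
def B_TEM2 : Prop := ∀ (n : ℕ) (L : Submodule ℤ (V n)) (N : ℕ) (e f m : V n), EvenLat L →
  (∀ p : ℕ, p.Prime → Ind L p 5) →
  0 < N → CongSub L N (WL L) → e ∈ L → f ∈ L → B e e = 0 → B f f = 0 → B e f = -1 →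
  m ∈ L → ∀ (he : B e e = 0) (h : B m e = 0), E e m he h ∈ WL L

/-- D5: the rank of M is at most n - 1 -/
def D_RK : Prop := ∀ (n : ℕ) (L : Submodule ℤ (V n)) (e f : V n), EvenLat L → e ∈ L → f ∈ L →
  B e e = 0 → B f f = 0 → B e f = -1 → ¬ ∃ c : Fin n → Mef L e f, LinearIndependent ℤ c

/-! ### Part X: criteria for bad neighbours -/

/-- X1: the master criterion -/
def X_GEN : Prop := ∀ (M : Type) [AddCommGroup M] (b : M → M → ℤ) (x ω : M) (Q e0 : ℤ), PD b →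
  (∃ k : ℤ, b x x = 8 * k + 4) → (∃ y, ¬ (2 : ℤ) ∣ b x y) → Q ∣ e0 → (2 : ℤ) ∣ b x ω + e0 →
  (∀ t ρ, NewR b x t ρ → 2 * Q ∣ b t ω - e0) →
  (∀ v, v ≠ 0 → (2 : ℤ) ∣ b x v → (∀ y, (2 : ℤ) ∣ b x y → b v v ∣ 2 * b v y) →
    (∀ y, ¬ (2 : ℤ) ∣ b x y → b v v ∣ 2 * b v y - b v x) → Q ∣ b v ω) →
  (∃ y, (2 : ℤ) ∣ b x y ∧ ¬ Q ∣ b y ω) → ¬ RGN b x

/-- X2: a neighbour without new roots is bad -/
def X_NEW : Prop := ∀ (M : Type) [AddCommGroup M] (b : M → M → ℤ) (x : M), PD b → ¬ Bad b →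
  (4 : ℤ) ∣ b x x → (∃ y, ¬ (2 : ℤ) ∣ b x y) → ∃ t ρ, NewR b x t ρ

/-- X3: the components of a new root -/
def X_DEC : Prop := ∀ (M : Type) [AddCommGroup M] (b : M → M → ℤ) (k : ℕ) (C : Fin k → Set M)
  (s : Fin k → ℤ) (τ : Fin k → Ty) (x : Fin k → M) (t : M) (ρ : ℤ), PD b → CT b C s τ →
  (∀ i, x i ∈ AddSubgroup.closure (C i)) → NewR b (∑ i, x i) t ρ →
  ∃ T : Fin k → M, t = ∑ i, T i ∧ 4 * ρ = ∑ i, b (T i) (T i) ∧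
    ∀ i, AD b (AddSubgroup.closure (C i)) (x i) (T i) ρ

/-- X4: the case of equality -/
def X_CMP : Prop := ∀ (M : Type) [AddCommGroup M] (b : M → M → ℤ) (k : ℕ) (C : Fin k → Set M)
  (s : Fin k → ℤ) (τ : Fin k → Ty) (l : List (Tch k M)) (t : M) (ρ : ℤ), PD b → CT b C s τ →
  (l.map fun a => a.1).Nodup →
  (∀ a ∈ l, a.2.1 ∈ AddSubgroup.closure (C a.1) ∧
    JR b (AddSubgroup.closure (C a.1)) a.2.1 a.2.2.1 a.2.2.2) →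
  4 ≤ (l.map fun a => a.2.2.1).sum → NewR b (l.map fun a => a.2.1).sum t ρ →
  (l.map fun a => a.2.2.1).sum = 4 ∧ ∃ T : Fin k → M, t = ∑ i, T i ∧
    (∀ i, T i ∈ AddSubgroup.closure (C i)) ∧ (∀ i, i ∉ l.map (fun a => a.1) → T i = 0) ∧
    ∀ a ∈ l, AD b (AddSubgroup.closure (C a.1)) a.2.1 (T a.1) ρ ∧
      b (T a.1) (T a.1) = a.2.2.1 * ρ ∧ a.2.2.2 ρ (T a.1)

/-- X5: the sum of the bounds is at least 5 -/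
def X_NOR : Prop := ∀ (M : Type) [AddCommGroup M] (b : M → M → ℤ) (k : ℕ) (C : Fin k → Set M)
  (s : Fin k → ℤ) (τ : Fin k → Ty) (l : List (Tch k M)), PD b → CT b C s τ →
  (l.map fun a => a.1).Nodup →
  (∀ a ∈ l, a.2.1 ∈ AddSubgroup.closure (C a.1) ∧
    JR b (AddSubgroup.closure (C a.1)) a.2.1 a.2.2.1 a.2.2.2) →
  5 ≤ (l.map fun a => a.2.2.1).sum → (4 : ℤ) ∣ (l.map fun a => b a.2.1 a.2.1).sum →
  (∃ a ∈ l, ∃ y ∈ AddSubgroup.closure (C a.1), ¬ (2 : ℤ) ∣ b a.2.1 y) → Bad b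

/-- X6: new roots exist and satisfy the conditions of equality -/
def X_EQU : Prop := ∀ (M : Type) [AddCommGroup M] (b : M → M → ℤ) (k : ℕ) (C : Fin k → Set M)
  (s : Fin k → ℤ) (τ : Fin k → Ty) (l : List (Tch k M)), PD b → CT b C s τ → ¬ Bad b →
  (l.map fun a => a.1).Nodup →
  (∀ a ∈ l, a.2.1 ∈ AddSubgroup.closure (C a.1) ∧
    JR b (AddSubgroup.closure (C a.1)) a.2.1 a.2.2.1 a.2.2.2) →
  4 ≤ (l.map fun a => a.2.2.1).sum → (4 : ℤ) ∣ (l.map fun a => b a.2.1 a.2.1).sum →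
  (∃ a ∈ l, ∃ y ∈ AddSubgroup.closure (C a.1), ¬ (2 : ℤ) ∣ b a.2.1 y) →
  ∃ ρ : ℤ, 0 < ρ ∧ ρ % 4 = 2 ∧ ∀ a ∈ l, ∃ t, a.2.2.2 ρ t

/-- X7: two odd components -/
def X_PAR : Prop := ∀ (M : Type) [AddCommGroup M] (b : M → M → ℤ) (S1 S2 : AddSubgroup M)
  (x1 x2 ω : M) (μ e0 : ℤ), PD b → (∀ y ∈ S1, ∀ z ∈ S2, b y z = 0) → S1 ⊔ S2 = ⊤ →
  x1 ∈ S1 → x2 ∈ S2 → ω ∈ S1 → μ ≠ 0 → (∃ y ∈ S1, ¬ (2 : ℤ) ∣ b x1 y) →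
  (∃ y ∈ S2, ¬ (2 : ℤ) ∣ b x2 y) → (4 : ℤ) ∣ b (x1 + x2) (x1 + x2) →
  (∀ y ∈ S1, 2 * μ ∣ b y ω - μ * b y x1) → 2 * μ ∣ e0 →
  (∀ t ρ, NewR b (x1 + x2) t ρ → 4 * μ ∣ b t ω - e0) → Bad b

/-- X8: one odd component -/
def X_ALN : Prop := ∀ (M : Type) [AddCommGroup M] (b : M → M → ℤ) (S1 S2 : AddSubgroup M)
  (x1 x2 ω : M) (μ e0 : ℤ), PD b → (∀ y ∈ S1, ∀ z ∈ S2, b y z = 0) → S1 ⊔ S2 = ⊤ →
  x1 ∈ S1 → x2 ∈ S2 → ω ∈ S1 → μ ≠ 0 → (∃ y ∈ S1, ¬ (2 : ℤ) ∣ b x1 y) →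
  (∀ y ∈ S2, (2 : ℤ) ∣ b x2 y) → (4 : ℤ) ∣ b (x1 + x2) (x1 + x2) →
  (∀ y ∈ S1, 2 * μ ∣ b y ω - μ * b y x1) → 4 * μ ∣ e0 →
  (∀ t ρ, NewR b (x1 + x2) t ρ → 8 * μ ∣ b t ω - e0) →
  (∀ v ∈ S1, v ≠ 0 → (2 : ℤ) ∣ b x1 v → (∀ y ∈ S1, (2 : ℤ) ∣ b x1 y → b v v ∣ 2 * b v y) →
    4 * μ ∣ b v ω) → Bad b

/-- X9: an even component of rank at least 2 -/
def X_F1 : Prop := ∀ (M : Type) [AddCommGroup M] (b : M → M → ℤ) (S1 : AddSubgroup M)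
  (C : Set M) (s : ℤ) (x1 α β : M) (e0 : ℤ), PD b → Irr b C s → (2 : ℤ) ∣ s →
  (∀ y ∈ S1, ∀ z ∈ C, b y z = 0) → S1 ⊔ AddSubgroup.closure C = ⊤ → x1 ∈ S1 → α ∈ C → β ∈ C →
  b α β = s → (∃ y ∈ S1, ¬ (2 : ℤ) ∣ b x1 y) → (4 : ℤ) ∣ b (x1 + α) (x1 + α) → 2 * s ∣ e0 →
  (∀ t ρ, NewR b (x1 + α) t ρ → 4 * s ∣ b t α - e0) → Bad b

/-! ### Part J: bounds with the case of equality -/

/-- J1: a reflective vector in the span of C -/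
def J_REF : Prop := ∀ (M : Type) [AddCommGroup M] (b : M → M → ℤ) (C : Set M) (s h : ℤ) (t : M),
  PD b → Irr b C s → t ∈ AddSubgroup.closure C → t ≠ 0 → ¬ (2 : ℤ) ∣ h → b t t = 2 * s * h →
  (∀ γ ∈ C, s * h ∣ b t γ) → h = 1 ∨ (h = 3 ∧ Rk C 2 ∧ ¬ Rk C 3)

/-- J2: the class of a root, s odd -/
def J_ROOT : Prop := ∀ (M : Type) [AddCommGroup M] (b : M → M → ℤ) (C : Set M) (s : ℤ) (α : M),
  PD b → Irr b C s → ¬ (2 : ℤ) ∣ s → α ∈ C → JR b (AddSubgroup.closure C) α 1 fun ρ t =>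
    (ρ = 2 * s ∧ (t = α ∨ t = -α)) ∨ (ρ = 6 * s ∧ b t α = 0 ∧ Rk C 2 ∧ ¬ Rk C 3)

/-- J3: the class of a root, s even -/
def J_EV : Prop := ∀ (M : Type) [AddCommGroup M] (b : M → M → ℤ) (C : Set M) (s : ℤ) (α : M),
  PD b → Irr b C s → (2 : ℤ) ∣ s → α ∈ C → JR b (AddSubgroup.closure C) α 2 fun ρ t =>
    (ρ = s ∧ (t = α ∨ t = -α)) ∨ (ρ = 3 * s ∧ b t α = 0 ∧ Rk C 2 ∧ ¬ Rk C 3)

/-- J4: a class in the radical modulo 2 -/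
def J_RAD : Prop := ∀ (M : Type) [AddCommGroup M] (b : M → M → ℤ) (C : Set M) (s : ℤ) (x : M),
  PD b → Irr b C s → ¬ (2 : ℤ) ∣ s → x ∈ AddSubgroup.closure C →
  (∀ y ∈ AddSubgroup.closure C, (2 : ℤ) ∣ b x y) → (∃ k : ℤ, b x x = 8 * k + 4) →
  JR b (AddSubgroup.closure C) x 2 fun ρ _ => ρ = 2 * s

/-- J5: the classes of D_n -/
def J_D : Prop := ∀ (M : Type) [AddCommGroup M] (b : M → M → ℤ) (C : Set M) (s : ℤ)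
  (n m : ℕ) (F : Fin n → M), PD b → Irr b C s → ¬ (2 : ℤ) ∣ s → DFr b C s n F →
  (∀ α ∈ C, InD F α) → 1 ≤ m → Even m → m < n →
  ∃ x ∈ AddSubgroup.closure C, (4 : ℤ) ∣ b x x - m ∧
    (∃ y ∈ AddSubgroup.closure C, ¬ (2 : ℤ) ∣ b x y) ∧
    JR b (AddSubgroup.closure C) x (m / 2) fun ρ _ => ρ = 2 * s

/-- the class of A_n defined by the first m coordinates -/
def xA {M : Type} [AddCommGroup M] {n : ℕ} (v : Fin n → M) (m : ℕ) : M :=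
  ∑ i : Fin n, (if (i : ℕ) < m then (-1 : ℤ) ^ (i : ℕ) else 0) • v i

/-- the vector of A_n which defines the functional s (n + 1) (y_1 + ... + y_m) -/
def wA {M : Type} [AddCommGroup M] {n : ℕ} (v : Fin n → M) (m : ℕ) : M :=
  ∑ i : Fin n, ((if (i : ℕ) < m then (n : ℤ) + 1 else 0) - m) • v i

/-- J6: elementary facts -/
def J_AX : Prop := ∀ (M : Type) [AddCommGroup M] (b : M → M → ℤ) (C : Set M) (s : ℤ)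
  (n m : ℕ) (v : Fin n → M), PD b → Irr b C s → ¬ (2 : ℤ) ∣ s → AFr b C s n v →
  (∀ α ∈ C, InA v α) → 1 ≤ m → Even m → m ≤ n →
  xA v m ∈ AddSubgroup.closure C ∧ wA v m ∈ AddSubgroup.closure C ∧
    (4 : ℤ) ∣ b (xA v m) (xA v m) - m ∧
    (∃ y ∈ AddSubgroup.closure C, ¬ (2 : ℤ) ∣ b (xA v m) y) ∧
    ∀ y ∈ AddSubgroup.closure C, 2 * (s * (n + 1)) ∣ b y (wA v m) - s * (n + 1) * b y (xA v m)

/-- J7: the classes of A_n -/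
def J_AM : Prop := ∀ (M : Type) [AddCommGroup M] (b : M → M → ℤ) (C : Set M) (s : ℤ)
  (n m : ℕ) (v : Fin n → M), PD b → Irr b C s → ¬ (2 : ℤ) ∣ s → AFr b C s n v →
  (∀ α ∈ C, InA v α) → 1 ≤ m → Even m → m ≤ n →
  JR b (AddSubgroup.closure C) (xA v m) (m / 2) fun ρ t =>
    (ρ = 2 * s ∧ b t (wA v m) = 0) ∨
    ∃ d : ℤ, 1 < d ∧ ¬ (2 : ℤ) ∣ d ∧ ρ = 2 * s * d ∧ (m : ℤ) = (n + 1 - m) * (d - 1) ∧
      (b t (wA v m) = s * (n + 1) * m ∨ b t (wA v m) = -(s * (n + 1) * m))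

/-- J8: the old roots of A_n -/
def J_AO : Prop := ∀ (M : Type) [AddCommGroup M] (b : M → M → ℤ) (C : Set M) (s : ℤ)
  (n m : ℕ) (v : Fin n → M) (w : M), PD b → Irr b C s → ¬ (2 : ℤ) ∣ s → AFr b C s n v →
  (∀ α ∈ C, InA v α) → 4 ≤ m → 4 ∣ m → m ≤ n → w ∈ AddSubgroup.closure C → w ≠ 0 →
  (2 : ℤ) ∣ b (xA v m) w →
  (∀ y ∈ AddSubgroup.closure C, (2 : ℤ) ∣ b (xA v m) y → b w w ∣ 2 * b w y) →
  4 * (s * (n + 1)) ∣ b w (wA v m)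

/-- the data of type E_6 -/
def E6D {M : Type} [AddCommGroup M] (b : M → M → ℤ) (C : Set M) (s : ℤ) (F : Fin 5 → M)
    (α : M) : Prop :=
  DFr b C s 5 F ∧ α ∈ C ∧ (∀ i, b α (F i) = -s) ∧
    ∀ x ∈ AddSubgroup.closure C, x ∈ AddSubgroup.closure ({β | β ∈ C ∧ InD F β} ∪ {α})

/-- J9: the class of norm 4 of E_6 -/
def J_E6 : Prop := ∀ (M : Type) [AddCommGroup M] (b : M → M → ℤ) (C : Set M) (s : ℤ)
  (F : Fin 5 → M) (α : M), PD b → Irr b C s → ¬ (2 : ℤ) ∣ s → E6D b C s F α →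
  F 0 ∈ AddSubgroup.closure C ∧ (4 : ℤ) • α + ∑ i, F i ∈ AddSubgroup.closure C ∧
    (4 : ℤ) ∣ b (F 0) (F 0) ∧ ¬ (2 : ℤ) ∣ b (F 0) α ∧
    (∀ y ∈ AddSubgroup.closure C,
      2 * (3 * s) ∣ b y ((4 : ℤ) • α + ∑ i, F i) - 3 * s * b y (F 0)) ∧
    JR b (AddSubgroup.closure C) (F 0) 2 fun ρ t =>
      (ρ = 2 * s ∧ b t ((4 : ℤ) • α + ∑ i, F i) = 0) ∨
      (ρ = 6 * s ∧ (b t ((4 : ℤ) • α + ∑ i, F i) = 12 * s ∨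
        b t ((4 : ℤ) • α + ∑ i, F i) = -(12 * s)))

/-- J10: the old roots of E_6 -/
def J_E6O : Prop := ∀ (M : Type) [AddCommGroup M] (b : M → M → ℤ) (C : Set M) (s : ℤ)
  (F : Fin 5 → M) (α w : M), PD b → Irr b C s → ¬ (2 : ℤ) ∣ s → E6D b C s F α →
  w ∈ AddSubgroup.closure C → w ≠ 0 → (2 : ℤ) ∣ b (F 0) w →
  (∀ y ∈ AddSubgroup.closure C, (2 : ℤ) ∣ b (F 0) y → b w w ∣ 2 * b w y) →
  4 * (3 * s) ∣ b w ((4 : ℤ) • α + ∑ i, F i)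

/-- vectors divisible by an odd number in the dual are divisible -/
def DIVU {M : Type} [AddCommGroup M] (b : M → M → ℤ) (S : AddSubgroup M) (s : ℤ) : Prop :=
  ∀ t ∈ S, ∀ r : ℤ, ¬ (2 : ℤ) ∣ r → (∀ y ∈ S, s * r ∣ b t y) → ∃ t' ∈ S, t = r • t'

/-- J11: E_7 and E_8 -/
def J_U : Prop := ∀ (M : Type) [AddCommGroup M] (b : M → M → ℤ) (C : Set M) (s : ℤ) (x : M),
  PD b → Irr b C s → ¬ (2 : ℤ) ∣ s → DIVU b (AddSubgroup.closure C) s →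
  x ∈ AddSubgroup.closure C → N2 C x → (4 : ℤ) ∣ b x x →
  JR b (AddSubgroup.closure C) x 2 fun ρ _ => ρ = 2 * s

/-! ### Part T: types -/

/-- T1, T2: impossible maximal frames with half roots -/
def T_HN (k : ℕ) : Prop := ∀ (M : Type) [AddCommGroup M] (b : M → M → ℤ) (C : Set M) (s : ℤ)
  (F : Fin k → M) (α : M), PD b → Irr b C s → DFr b C s k F → MaxD b C s k → α ∈ C →
  ¬ Half b s F α

/-- T3, T4, T5: k = 5, 6, 8 : type E_6, E_7, E_8 -/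
def T_HE (k m : ℕ) : Prop := ∀ (M : Type) [AddCommGroup M] (b : M → M → ℤ) (C : Set M) (s : ℤ)
  (F : Fin k → M) (α : M), PD b → Irr b C s → DFr b C s k F → MaxD b C s k → α ∈ C →
  Half b s F α → HasTy b C s (.E m)

/-- T6: every irreducible component has a type -/
def T_ADE : Prop := ∀ (M : Type) [AddCommGroup M] [Module.Finite ℤ M] (b : M → M → ℤ)
  (C : Set M) (s : ℤ), PD b → Irr b C s → ∃ τ, HasTy b C s τ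

/-- T7: the rank -/
def T_RK : Prop := ∀ (M : Type) [AddCommGroup M] (b : M → M → ℤ) (C : Set M) (s : ℤ) (τ : Ty),
  PD b → Irr b C s → HasTy b C s τ → ∀ k, Rk C k ↔ k ≤ τ.rk

/-- T8: big types are capable -/
def T_CAP : Prop := ∀ (M : Type) [AddCommGroup M] (b : M → M → ℤ) (C : Set M) (s : ℤ) (τ : Ty),
  PD b → Irr b C s → ¬ (2 : ℤ) ∣ s → HasTy b C s τ → τ.big → Cap b C

/-- T8': middle types are not capable -/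
def T_NCAP : Prop := ∀ (M : Type) [AddCommGroup M] (b : M → M → ℤ) (C : Set M) (s : ℤ) (τ : Ty),
  PD b → Irr b C s → ¬ (2 : ℤ) ∣ s → HasTy b C s τ → τ.mid → ¬ Cap b C

/-- T9: the radical class of A_3 and D_4 -/
def T_RAD : Prop := ∀ (M : Type) [AddCommGroup M] (b : M → M → ℤ) (C : Set M) (s : ℤ) (τ : Ty),
  PD b → Irr b C s → ¬ (2 : ℤ) ∣ s → HasTy b C s τ → τ.md3 →
  ∃ x ∈ AddSubgroup.closure C, (∀ y ∈ AddSubgroup.closure C, (2 : ℤ) ∣ b x y) ∧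
    ∃ k : ℤ, b x x = 8 * k + 4

/-- T10: the Gram matrix -/
def T_GR : Prop := ∀ (M : Type) [AddCommGroup M] (b : M → M → ℤ) (C : Set M) (s : ℤ) (τ : Ty),
  PD b → Irr b C s → HasTy b C s τ → GrB b (AddSubgroup.closure C) (gr1 (τ, s))

/-- T11: E_7 and E_8 -/
def T_DIV : Prop := ∀ (M : Type) [AddCommGroup M] (b : M → M → ℤ) (C : Set M) (s : ℤ) (k : ℕ),
  PD b → Irr b C s → HasTy b C s (.E k) → k = 7 ∨ k = 8 → DIVU b (AddSubgroup.closure C) s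

/-- the types which have a class of norm 0 mod 4 with bound 2 and fixed ρ -/
def Ty.fix : Ty → Prop
  | .A k => 6 ≤ k
  | .D k => 5 ≤ k
  | .E k => k ≠ 6

/-- T12 -/
def T_FIX : Prop := ∀ (M : Type) [AddCommGroup M] (b : M → M → ℤ) (C : Set M) (s : ℤ) (τ : Ty),
  PD b → Irr b C s → ¬ (2 : ℤ) ∣ s → HasTy b C s τ → τ.fix →
  ∃ x ∈ AddSubgroup.closure C, (4 : ℤ) ∣ b x x ∧
    (∃ y ∈ AddSubgroup.closure C, ¬ (2 : ℤ) ∣ b x y) ∧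
    JR b (AddSubgroup.closure C) x 2 fun ρ _ => ρ = 2 * s

/-- T13: the Gram matrix of the sum -/
def G_ASM : Prop := ∀ (M : Type) [AddCommGroup M] (b : M → M → ℤ) (k : ℕ) (C : Fin k → Set M)
  (s : Fin k → ℤ) (τ : Fin k → Ty) (l : List (Fin k)), PD b → CT b C s τ → l.Nodup →
  (∀ i, i ∈ l) → GrB b ⊤ (gr (l.map fun i => (τ i, s i)))

/-- T14: the total rank -/
def G_SUM : Prop := ∀ (M : Type) [AddCommGroup M] [Module.Finite ℤ M] (b : M → M → ℤ) (k d : ℕ)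
  (C : Fin k → Set M) (s : Fin k → ℤ) (τ : Fin k → Ty), PD b → CT b C s τ →
  (∃ c : Fin d → M, LinearIndependent ℤ c) → (¬ ∃ c : Fin (d + 1) → M, LinearIndependent ℤ c) →
  ∑ i, (τ i).rk = d

/-- T15: the rank modulo p -/
def H_SC : Prop := ∀ (M : Type) [AddCommGroup M] (b : M → M → ℤ) (k : ℕ) (C : Fin k → Set M)
  (s : Fin k → ℤ) (τ : Fin k → Ty) (p : ℕ), PD b → CT b C s τ → p.Prime →
  ∑ i, (if (p : ℤ) ∣ s i then 0 else (τ i).rk) ≤ 3 → ¬ IndA b ⊤ p 4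

/-- T16: the rank modulo 2 -/
def H_I3 : Prop := ∀ (M : Type) [AddCommGroup M] (b : M → M → ℤ) (k : ℕ) (C : Fin k → Set M)
  (s : Fin k → ℤ) (τ : Fin k → Ty), PD b → CT b C s τ →
  (∀ i, ¬ (2 : ℤ) ∣ s i → ¬ (τ i).big) →
  (∀ i j, i ≠ j → ¬ (2 : ℤ) ∣ s i → (τ i).mid → ¬ (2 : ℤ) ∣ s j → (τ j).mid → False) →
  ¬ IndA b ⊤ 2 3

/-! ### Part K: the cases -/

/-- the common hypotheses of the modules of Part K -/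
def Cas (P : (M : Type) → [AddCommGroup M] → (M → M → ℤ) → (k : ℕ) → (Fin k → Set M) →
    (Fin k → ℤ) → (Fin k → Ty) → Prop) : Prop :=
  ∀ (M : Type) [AddCommGroup M] (b : M → M → ℤ) (k : ℕ) (C : Fin k → Set M) (s : Fin k → ℤ)
    (τ : Fin k → Ty), PD b → CT b C s τ → ¬ Bad b → P M b k C s τ

/-- K1: capable groups -/
def K_CAP : Prop := ∀ (M : Type) [AddCommGroup M] (b : M → M → ℤ) (k : ℕ) (C : Fin k → Set M)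
  (s : Fin k → ℤ) (τ : Fin k → Ty), PD b → CT b C s τ →
  (∀ i, ¬ (2 : ℤ) ∣ s i → (τ i).big → Cap b (⋃ l ∈ ({i} : Finset (Fin k)), C l)) ∧
  (∀ i j, i ≠ j → ¬ (2 : ℤ) ∣ s i → (τ i).mid → ¬ (2 : ℤ) ∣ s j →
    Cap b (⋃ l ∈ ({i, j} : Finset (Fin k)), C l))

/-- K2: two disjoint capable groups -/
def K_GRP : Prop := Cas fun _ _ b k C _ _ => ∀ T1 T2 : Finset (Fin k), Disjoint T1 T2 →
  Cap b (⋃ i ∈ T1, C i) → Cap b (⋃ i ∈ T2, C i) → False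

/-- K3: big and two even -/
def K_BEE : Prop := Cas fun _ _ _ k _ s τ => ∀ i0 i1 i2 : Fin k, ¬ (2 : ℤ) ∣ s i0 → (τ i0).big →
  i1 ≠ i2 → (2 : ℤ) ∣ s i1 → (2 : ℤ) ∣ s i2 → False

/-- K4: big and even of rank at least 3 -/
def K_BE3 : Prop := Cas fun _ _ _ k _ s τ => ∀ i0 i1 : Fin k, ¬ (2 : ℤ) ∣ s i0 → (τ i0).big →
  (2 : ℤ) ∣ s i1 → 3 ≤ (τ i1).rk → False

/-- K5: big, even and two small -/
def K_BESS : Prop := Cas fun _ _ _ k _ s τ => ∀ i0 i1 i2 i3 : Fin k, ¬ (2 : ℤ) ∣ s i0 →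
  (τ i0).big → (2 : ℤ) ∣ s i1 → i2 ≠ i3 → ¬ (2 : ℤ) ∣ s i2 → τ i2 = .A 1 → ¬ (2 : ℤ) ∣ s i3 →
  τ i3 = .A 1 → False

/-- K6: big and four small -/
def K_B4S : Prop := Cas fun _ _ _ k _ s τ => ∀ (i0 : Fin k) (j : Fin 4 → Fin k),
  ¬ (2 : ℤ) ∣ s i0 → (τ i0).big → Function.Injective j →
  (∀ l, ¬ (2 : ℤ) ∣ s (j l) ∧ τ (j l) = .A 1) → False

/-- K7: D_m with small and even components -/
def K_DN : Prop := Cas fun _ _ _ k _ s τ => ∀ (i0 : Fin k) (m : ℕ), ¬ (2 : ℤ) ∣ s i0 →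
  τ i0 = .D m →
  (∀ i1 i2, 7 ≤ m → (2 : ℤ) ∣ s i1 → ¬ (2 : ℤ) ∣ s i2 → τ i2 = .A 1 → False) ∧
  (∀ i1, 9 ≤ m → (2 : ℤ) ∣ s i1 → False) ∧
  (∀ j : Fin 3 → Fin k, 7 ≤ m → Function.Injective j →
    (∀ l, ¬ (2 : ℤ) ∣ s (j l) ∧ τ (j l) = .A 1) → False) ∧
  (∀ i1 i2, 9 ≤ m → i1 ≠ i2 → ¬ (2 : ℤ) ∣ s i1 → τ i1 = .A 1 → ¬ (2 : ℤ) ∣ s i2 →
    τ i2 = .A 1 → False) ∧
  (∀ i1, 11 ≤ m → ¬ (2 : ℤ) ∣ s i1 → τ i1 = .A 1 → False) ∧ m ≤ 12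

/-- K8: two middle and two even; two middle and one even of rank at least 3 -/
def K_MME : Prop := Cas fun _ _ _ k _ s τ => ∀ i1 i2 i3 : Fin k, i1 ≠ i2 → ¬ (2 : ℤ) ∣ s i1 →
  (τ i1).mid → ¬ (2 : ℤ) ∣ s i2 → (τ i2).mid → (2 : ℤ) ∣ s i3 →
  (∀ i4, i4 ≠ i3 → (2 : ℤ) ∣ s i4 → False) ∧ (τ i3).rk ≤ 2

/-- K9: big, middle and even -/
def K_BME : Prop := Cas fun _ _ _ k _ s τ => ∀ i0 i1 i2 : Fin k, ¬ (2 : ℤ) ∣ s i0 →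
  (τ i0).big → ¬ (2 : ℤ) ∣ s i1 → (τ i1).mid → (2 : ℤ) ∣ s i2 → False

/-- K10: two middle and one even, one of the middle components of rank at least 3 -/
def K_MM3E : Prop := Cas fun _ _ _ k _ s τ => ∀ i1 i2 i3 : Fin k, i1 ≠ i2 → ¬ (2 : ℤ) ∣ s i1 →
  (τ i1).md3 → ¬ (2 : ℤ) ∣ s i2 → (τ i2).mid → (2 : ℤ) ∣ s i3 → False

/-- K11: three middle components -/
def K_MMM : Prop := Cas fun _ _ _ k _ s τ => ∀ i1 i2 i3 : Fin k, i1 ≠ i2 → i1 ≠ i3 → i2 ≠ i3 →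
  ¬ (2 : ℤ) ∣ s i1 → (τ i1).md3 → ¬ (2 : ℤ) ∣ s i2 → (τ i2).md3 → ¬ (2 : ℤ) ∣ s i3 →
  (τ i3).mid → False

/-- K12: a class with bound 3 and a middle component -/
def K_3M : Prop := Cas fun _ _ b k C s τ => ∀ (i0 i1 : Fin k),
  (∃ x ∈ AddSubgroup.closure (C i0), (4 : ℤ) ∣ b x x - 2 ∧
    (∃ y ∈ AddSubgroup.closure (C i0), ¬ (2 : ℤ) ∣ b x y) ∧
    JR b (AddSubgroup.closure (C i0)) x 3 fun ρ _ => ρ = 2 * s i0) → i0 ≠ i1 →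
  ¬ (2 : ℤ) ∣ s i1 → (τ i1).mid → False

/-- K13: D_m, m ≥ 7, and a middle component; A_7 and A_2 -/
def K_DM : Prop := Cas fun _ _ _ k _ s τ => ∀ i0 i1 : Fin k, ¬ (2 : ℤ) ∣ s i0 →
  ¬ (2 : ℤ) ∣ s i1 → i0 ≠ i1 → (τ i1).mid →
  (∀ m, 7 ≤ m → τ i0 ≠ .D m) ∧ τ i0 ≠ .A 7

/-- K14: big, even of rank 2 and small -/
def K_BE2S : Prop := Cas fun _ _ _ k _ s τ => ∀ i0 i1 i2 : Fin k, ¬ (2 : ℤ) ∣ s i0 →
  (τ i0).big → (2 : ℤ) ∣ s i1 → (τ i1).rk = 2 → ¬ (2 : ℤ) ∣ s i2 → τ i2 = .A 1 → False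

/-- K15: big and even of rank 2 -/
def K_BE2 : Prop := Cas fun _ _ _ k _ s τ => ∀ i0 i1 : Fin k, ¬ (2 : ℤ) ∣ s i0 →
  (τ i0).fix → (2 : ℤ) ∣ s i1 → (τ i1).rk = 2 → False

/-- K16: A_m with radical partners -/
def K_AK4 : Prop := Cas fun M _ b k C s τ => ∀ (i0 : Fin k) (m : ℕ) (l : List (Tch k M)) (r : ℤ),
  ¬ (2 : ℤ) ∣ s i0 → τ i0 = .A m → 4 ≤ m → (l.map fun a => a.1).Nodup →
  (∀ a ∈ l, a.1 ≠ i0 ∧ a.2.1 ∈ AddSubgroup.closure (C a.1) ∧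
    (∀ y ∈ AddSubgroup.closure (C a.1), (2 : ℤ) ∣ b a.2.1 y) ∧
    JR b (AddSubgroup.closure (C a.1)) a.2.1 a.2.2.1 a.2.2.2) →
  (l.map fun a => a.2.2.1).sum = 2 → (4 : ℤ) ∣ (l.map fun a => b a.2.1 a.2.1).sum →
  (∀ ρ : ℤ, (∀ a ∈ l, ∃ t, a.2.2.2 ρ t) → ρ = r) → False

/-- K17: A_m, m ≥ 8 -/
def K_A8 : Prop := Cas fun _ _ _ k _ s τ => ∀ (i0 : Fin k) (m : ℕ),
  ¬ (2 : ℤ) ∣ s i0 → τ i0 = .A m → m < 8

/-- K18: E_6 with radical partners -/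
def K_E6R : Prop := Cas fun M _ b k C s τ => ∀ (i0 : Fin k) (l : List (Tch k M)) (r : ℤ),
  ¬ (2 : ℤ) ∣ s i0 → τ i0 = .E 6 → (l.map fun a => a.1).Nodup →
  (∀ a ∈ l, a.1 ≠ i0 ∧ a.2.1 ∈ AddSubgroup.closure (C a.1) ∧
    (∀ y ∈ AddSubgroup.closure (C a.1), (2 : ℤ) ∣ b a.2.1 y) ∧
    JR b (AddSubgroup.closure (C a.1)) a.2.1 a.2.2.1 a.2.2.2) →
  (l.map fun a => a.2.2.1).sum = 2 → (4 : ℤ) ∣ (l.map fun a => b a.2.1 a.2.1).sum →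
  (∀ ρ : ℤ, (∀ a ∈ l, ∃ t, a.2.2.2 ρ t) → ρ = r) → False

/-- K19: A_m (m ≥ 4) or E_6 with two small, with one even of rank 1, with A_3 or D_4 -/
def K_AE6 : Prop := Cas fun _ _ _ k _ s τ => ∀ (i0 i1 : Fin k), ¬ (2 : ℤ) ∣ s i0 →
  ((∃ m, 4 ≤ m ∧ τ i0 = .A m) ∨ τ i0 = .E 6) → i0 ≠ i1 →
  ((2 : ℤ) ∣ s i1 → τ i1 ≠ .A 1) ∧
  (¬ (2 : ℤ) ∣ s i1 → ¬ (τ i1).md3) ∧
  ∀ i2, i1 ≠ i2 → ¬ (2 : ℤ) ∣ s i1 → τ i1 = .A 1 → ¬ (2 : ℤ) ∣ s i2 → τ i2 = .A 1 → False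

/-- K20: scales, even of rank 1 -/
def K_SBE : Prop := Cas fun _ _ _ k _ s τ => ∀ i0 i1 : Fin k, ¬ (2 : ℤ) ∣ s i0 →
  (2 : ℤ) ∣ s i1 → τ i1 = .A 1 →
  ((τ i0).fix → s i1 = 2 * s i0) ∧
  ((τ i0).big → ∀ i2, ¬ (2 : ℤ) ∣ s i2 → τ i2 = .A 1 → s i1 = 2 * s i0 ∧ s i2 = s i0)

/-- K21: scales, small -/
def K_SBS : Prop := Cas fun _ _ _ k _ s τ => ∀ i0 i1 : Fin k, ¬ (2 : ℤ) ∣ s i0 →
  ¬ (2 : ℤ) ∣ s i1 → τ i1 = .A 1 →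
  (∀ m, 7 ≤ m → τ i0 = .D m → s i1 = s i0) ∧
  ∀ i2, (τ i0).fix → i1 ≠ i2 → ¬ (2 : ℤ) ∣ s i2 → τ i2 = .A 1 → s i1 = s i0

/-- K22: scales, middle -/
def K_SBM : Prop := Cas fun _ _ _ k _ s τ => ∀ i0 i1 : Fin k, ¬ (2 : ℤ) ∣ s i0 →
  ¬ (2 : ℤ) ∣ s i1 → (τ i1).md3 → i0 ≠ i1 →
  ((τ i0).fix → s i1 = s i0) ∧
  ∀ i2, i2 ≠ i0 → i2 ≠ i1 → (τ i0).md3 → ¬ (2 : ℤ) ∣ s i2 → τ i2 = .A 1 →
    s i1 = s i0 ∧ s i2 = s i0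

/-- K23: E_7 or E_8 and one more component -/
def K_SEA : Prop := Cas fun M _ b k C s τ => ∀ (i0 i1 : Fin k) (β α : M), i0 ≠ i1 →
  (∀ i, i = i0 ∨ i = i1) → τ i0 = .E 7 ∨ τ i0 = .E 8 → s i0 = 1 → ¬ (2 : ℤ) ∣ s i1 →
  β ∈ C i0 → α ∈ C i1 → s i1 = 1 ∨ (s i1 = 3 ∧ ∀ t ρ, NewR b (β + α) t ρ →
    ∃ t0 ∈ AddSubgroup.closure (C i0), t = t0 + α ∨ t = t0 - α)

/-- K24: E_7 or E_8 and 3 A_2 -/
def K_E3A2 : Prop := Cas fun _ _ _ k _ s τ => ∀ i0 i1 : Fin k, i0 ≠ i1 →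
  (∀ i, i = i0 ∨ i = i1) → τ i0 = .E 7 ∨ τ i0 = .E 8 → s i0 = 1 → τ i1 = .A 2 → s i1 ≠ 3

/-- the list of the positive definite lattices -/
def good : List (List (Ty × ℤ)) :=
  [[(.E 8, 1), (.D 4, 1)], [(.D 12, 1)],
   [(.E 8, 1), (.A 3, 1)], [(.D 11, 1)],
   [(.E 8, 1), (.A 1, 1), (.A 1, 1), (.A 1, 1)], [(.D 10, 1), (.A 1, 1)], [(.E 7, 1), (.D 4, 1)],
   [(.E 8, 1), (.A 2, 1)],
   [(.E 8, 1), (.A 1, 1), (.A 1, 1)], [(.D 10, 1)],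
   [(.E 8, 1), (.A 1, 1), (.A 1, 2)], [(.D 9, 1), (.A 1, 1)], [(.E 7, 1), (.A 3, 1)],
   [(.D 6, 1), (.D 4, 1)], [(.E 7, 1), (.A 1, 1), (.A 1, 1), (.A 1, 1)],
   [(.D 8, 1), (.A 1, 1), (.A 1, 1)],
   [(.E 8, 1), (.A 1, 1)],
   [(.E 8, 1), (.A 1, 2)], [(.D 9, 1)],
   [(.E 8, 1), (.A 1, 3)], [(.E 7, 1), (.A 2, 1)],
   [(.E 7, 1), (.A 1, 1), (.A 1, 1)], [(.D 8, 1), (.A 1, 1)],
   [(.D 5, 1), (.D 4, 1)], [(.D 8, 1), (.A 1, 2)],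
   [(.D 4, 1), (.D 4, 1), (.A 1, 1)], [(.D 6, 1), (.A 1, 1), (.A 1, 1), (.A 1, 1)],
   [(.E 7, 1), (.A 1, 1), (.A 1, 2)], [(.D 7, 1), (.A 1, 1), (.A 1, 1)],
   [(.D 6, 1), (.A 3, 1)]]

/-- E2: the classification -/
def E_CLS : Prop := ∀ (M : Type) [AddCommGroup M] [Module.Finite ℤ M] (b : M → M → ℤ) (d : ℕ),
  PD b → RGM b → ¬ Bad b → 9 ≤ d → (∃ c : Fin d → M, LinearIndependent ℤ c) →
  (¬ ∃ c : Fin (d + 1) → M, LinearIndependent ℤ c) → IndA b ⊤ 2 3 →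
  (∀ p : ℕ, p.Prime → p ≠ 2 → IndA b ⊤ p 4) →
  ∃ l ∈ good, (l.map fun T => T.1.rk).sum = d ∧ GrB b ⊤ (gr l)

/-! ### Part I: identification of L -/

/-- the list of the 13 lattices U + R -/
def reps : List (List (Ty × ℤ)) :=
  [[(.E 8, 1), (.D 4, 1)],
   [(.E 8, 1), (.A 3, 1)], [(.E 8, 1), (.A 1, 1), (.A 1, 1), (.A 1, 1)],
   [(.E 8, 1), (.A 2, 1)], [(.E 8, 1), (.A 1, 1), (.A 1, 1)], [(.E 8, 1), (.A 1, 1), (.A 1, 2)],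
   [(.D 6, 1), (.D 4, 1)],
   [(.E 8, 1), (.A 1, 1)], [(.E 8, 1), (.A 1, 2)], [(.E 8, 1), (.A 1, 3)],
   [(.E 7, 1), (.A 1, 1), (.A 1, 1)], [(.D 5, 1), (.D 4, 1)],
   [(.D 4, 1), (.D 4, 1), (.A 1, 1)]]

/-- I1 -/
def I_LFT : Prop := ∀ (n : ℕ) (L : Submodule ℤ (V n)) (e f : V n) (G : List (List ℤ)),
  EvenLat L → e ∈ L → f ∈ L → B e e = 0 → B f f = 0 → B e f = -1 → G.length + 1 = n →
  GrB (bG (Mef L e f)) ⊤ G → GrL L (blk hyp G)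

/-- I2 -/
def I_CHG : Prop := ∀ (n : ℕ) (L : Submodule ℤ (V n)) (G T T' G' : List (List ℤ)), GrL L G →
  chg (n + 1) G T T' G' = true → GrL L G'

/-- I3 -/
def I_BAS : Prop := ∀ (n : ℕ) (L : Submodule ℤ (V n)) (G : List (List ℤ)), IsLat L → GrL L G →
  ∃ a : Module.Basis (Fin (n + 1)) ℝ (V n), L = Submodule.span ℤ (Set.range a) ∧
    ∀ i j, B (a i) (a j) = ent G i j

/-- I4: the explicit isometries -/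
def I_ISO : Prop := ∀ l ∈ good, ∃ l' ∈ [(.E 7, 1), (.A 1, 1), (.A 1, 2)] :: reps,
  ∃ T T' : List (List ℤ),
    chg ((l.map fun T => T.1.rk).sum + 2) (blk hyp (gr l)) T T' (blk hyp (gr l')) = true

/-- I5: the lattice U + E_7 + A_1 + 2 A_1 has a canonical even overlattice -/
def I_EXC : Prop := ∀ (L : Submodule ℤ (V 10)), EvenLat L →
  GrL L (blk hyp (gr [(.E 7, 1), (.A 1, 1), (.A 1, 2)])) →
  ∃ L' : Submodule ℤ (V 10), EvenLat L' ∧ L ≤ L' ∧ L' ≠ L ∧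
    ∀ g : V 10 ≃ₗ[ℝ] V 10, Isom g → (∀ x, g x ∈ L ↔ x ∈ L) → ∀ x ∈ L', g x ∈ L'

end Pool.Agent.CN2

end
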