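import Pool.Agent.Helper25_CON.All
import Pool.Agent.Helper25_CN2.AsmFin
import Pool.Agent.Helper11_CN2.Amin2
import Pool.Agent.Helper11_CN2.Xcmp
import Pool.Agent.Helper13_CN2.BDiv2
import Pool.Agent.Helper13_CN2.JAm
import Pool.Agent.Helper13_CN2.JD
import Pool.Agent.Helper13_CN2.JE6
import Pool.Agent.Helper13_CN2.JU
import Pool.Agent.Helper15_CN2.Kbe
import Pool.Agent.Helper20_CN2.HI3
import Pool.Agent.Helper21_CN2.Aln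
import Pool.Agent.Helper21_CN2.E6c
import Pool.Agent.Helper21_CN2.Kae6
import Pool.Agent.Helper21_CN2.Xaln
import Pool.Agent.Helper21_CN2.Xf1
import Pool.Agent.Helper24_CN2.GAsm
import Pool.Agent.Helper24_CN2.THe8
import Pool.Agent.Helper25_CN2.Iso
import Pool.Agent.Helper27_CN2.Kak
import Pool.Agent.Helper2_CN2.IBas
import Pool.Agent.Helper2_CN2.IChg
import Pool.Agent.Helper2_CN2.JAx
import Pool.Agent.Helper39_CN2.GSum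
import Pool.Agent.Helper40_CN2.JRef
import Pool.Agent.Helper40_CN2.JRoot
import Pool.Agent.Helper45_CN2.TRad
import Pool.Agent.Helper47_CN2.Hsc
import Pool.Agent.Helper47_CN2.Thn4
import Pool.Agent.Helper47_CN2.Thn7
import Pool.Agent.Helper47_CN2.Trk
import Pool.Agent.Helper47_CN2.Xdec
import Pool.Agent.Helper48_CN2.KDM
import Pool.Agent.Helper50_CN2.IExc
import Pool.Agent.Helper50_CN2.KSea
import Pool.Agent.Helper50_CN2.TDiv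
import Pool.Agent.Helper50_CN2.THe5
import Pool.Agent.Helper58_CN2.IndSpn
import Pool.Agent.Helper58_CN2.KMme
import Pool.Agent.Helper58_CN2.TAde
import Pool.Agent.Helper58_CN2.TFix
import Pool.Agent.Helper58_CN2.XNor
import Pool.Agent.Helper62_CN2.KSBE
import Pool.Agent.Helper65_CN2.K3M
import Pool.Agent.Helper66_CN2.ILft
import Pool.Agent.Helper66_CN2.KSm
import Pool.Agent.Helper70_CN2.BTem2
import Pool.Agent.Helper70_CN2.DRk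
import Pool.Agent.Helper71_CN2.Tgr
import Pool.Agent.Helper71_CN2.Tncap
import Pool.Agent.Helper71_CN2.Xnew
import Pool.Agent.Helper75_CN2.Kmmm
import Pool.Agent.Helper81_CN2.KSbm
import Pool.Agent.Helper88_CN2.JAo
import Pool.Agent.Helper88_CN2.KCore
import Pool.Agent.Helper88_CN2.XGen
import Pool.Agent.Helper88_CN2.XPar
import Pool.Agent.Helper99_CN2.JRad
import Pool.Agent.Helper99_CN2.KE3A2
import Pool.Agent.Helper26_CN2.THe6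

/-!
Squad CN2: all the modules, discharged
-/

noncomputable section

namespace Pool.Agent.CN2

open Pool.Agent.H25Cong Pool.Agent.CON

theorem pI_ISO : I_ISO := H25.i_iso

theorem pD_RK : D_RK := H70.d_rk

theorem pA_IND2 : A_IND2 := H58.a_IND2

theorem pB_DIV2 : B_DIV2 := H13.b_div2 CON.pB_HYP CON.pB_KER CON.pB_HEN

theorem pJ_RAD : J_RAD := H99.j_rad CON.pE_VAL

theorem pT_NCAP : T_NCAP := H71.t_ncap

theorem pJ_AM : J_AM := H13.j_am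

theorem pH_I3 : H_I3 := H20.h_i3 CON.pE_VAL CON.pE_TWO2 pT_NCAP

theorem pJ_D : J_D := H13.j_d

theorem pA_MIN2 : A_MIN2 := H11.a_min2 CON.pA_SUB CON.pA_COV

theorem pX_DEC : X_DEC := H47.x_dec

theorem pB_SPN2 : B_SPN2 := H58.b_SPN2

theorem pB_TEM2 : B_TEM2 :=
  H70.b_tem2 CON.pB_HYP CON.pB_CMP CON.pB_HEN pB_SPN2 CON.pB_TRN CON.pD_IND

theorem pX_GEN : X_GEN := H88.x_gen

theorem pT_CAP : T_CAP := H45.t_cap CON.pG_CLA CON.pG_CLD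

theorem pK_CAP : K_CAP := H45.k_cap pT_CAP CON.pE_NON

theorem pI_CHG : I_CHG := H2.i_chg

theorem pJ_U : J_U := H13.j_u CON.pE_VAL

theorem pT_HN7 : T_HN 7 := H47.t_hn7 CON.pG_EXT CON.pG_TYP CON.pG_FLP

theorem pX_PAR : X_PAR := H88.x_par pX_GEN

theorem pX_NEW : X_NEW := H71.x_new

theorem pJ_E6O : J_E6O := H21.j_e6o

theorem pT_HN4 : T_HN 4 := H47.t_hn4 CON.pG_EXT CON.pG_TYP CON.pG_FLP

theorem pX_CMP : X_CMP := H11.x_CMP pX_DEC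

theorem pJ_AX : J_AX := H2.j_ax

theorem pI_LFT : I_LFT := H66.i_lft

theorem pT_RAD : T_RAD := H45.t_rad

theorem pJ_E6 : J_E6 := H13.j_e6 CON.pE_VAL

theorem pT_HE8 : T_HE 8 8 := H24.t_he8 CON.pG_EXT CON.pG_TYP CON.pG_FLP

theorem pI_BAS : I_BAS := H2.i_bas

theorem pT_RK : T_RK := H47.t_rk CON.pG_RK

theorem pJ_REF : J_REF := H40.j_ref CON.pE_VAL

theorem pJ_ROOT : J_ROOT := H40.j_root pJ_REF CON.pE_VAL CON.pE_N2

theorem pT_GR : T_GR := H71.t_gr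

theorem pK_MMM : K_MMM :=
  H75.k_mmm pX_CMP pX_PAR pJ_ROOT pJ_RAD CON.pE_J1 CON.pE_NON CON.pE_N2 pT_RAD pT_RK

theorem pG_SUM : G_SUM := H39.g_SUM pT_RK pT_GR CON.pE_RNK

theorem pT_HE5 : T_HE 5 6 := H50.t_he5 CON.pG_EXT CON.pG_TYP CON.pG_FLP

theorem pT_HE6 : T_HE 6 7 := H26.t_he6 CON.pG_EXT CON.pG_TYP CON.pG_FLP

theorem pK_GRP : K_GRP := H39.k_GRP CON.pH_GRP pT_RK

theorem pK_BME : K_BME :=
  H88.k_bme pX_CMP pX_PAR pJ_ROOT CON.pE_J1 CON.pE_J2 CON.pE_NON CON.pE_N2 pT_RK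

theorem pX_ALN : X_ALN := H21.x_aln pX_GEN

theorem pI_EXC : I_EXC := H50.i_exc pI_BAS

theorem pX_F1 : X_F1 := H21.x_f1 pX_GEN CON.pE_VAL

theorem pT_ADE : T_ADE :=
  H58.t_ADE CON.pG_EXT CON.pG_TYP CON.pG_FLP CON.pG_A CON.pG_RK pT_HN4 pT_HN7 pT_HE5 pT_HE6 pT_HE8

theorem pJ_EV : J_EV := H40.j_ev pJ_REF CON.pE_VAL CON.pE_N2

theorem pH_SC : H_SC := H47.h_sc pT_GR CON.pE_VAL

theorem pX_NOR : X_NOR := H58.x_NOR pX_NEW pX_CMP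

theorem pK_B4S : K_B4S := H66.k_b4s pX_NOR pT_CAP CON.pE_J1 CON.pE_J2 CON.pE_N2

theorem pJ_AO : J_AO := H88.j_ao pJ_AX

theorem pX_EQU : X_EQU := H58.x_EQU pX_NEW pX_CMP

theorem pG_ASM : G_ASM := H24.g_asm pT_GR

theorem pT_DIV : T_DIV := H50.t_div pT_GR

theorem pK_MM3E : K_MM3E :=
  H88.k_mm3e pX_CMP pX_PAR pJ_ROOT CON.pE_J1 CON.pE_J2 CON.pE_NON CON.pE_N2 pT_RK

theorem pK_MME : K_MME :=
  H58.k_MME pX_NOR CON.pE_NON CON.pE_J1 CON.pE_J2 CON.pE_J4 CON.pE_N2 CON.pE_ORT pT_RK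

theorem pK_E6R : K_E6R := H21.k_e6r pX_CMP pX_ALN pJ_E6 pJ_E6O

theorem pK_3M : K_3M := H65.k_3m pX_CMP pX_PAR pJ_ROOT CON.pE_NON pT_RK

theorem pK_BEE : K_BEE := H15.k_BEE pX_NOR pT_CAP CON.pE_J2 CON.pE_N2

theorem pK_DN : K_DN := H27.k_dn pX_NOR pJ_D CON.pE_J1 CON.pE_J2 CON.pE_N2

theorem pK_DM : K_DM := H48.k_dm pK_3M pJ_D pJ_AX pJ_AM

theorem pK_A8 : K_A8 := H21.k_a8 pX_CMP pX_ALN pJ_AX pJ_AM pJ_AO

theorem pK_AK4 : K_AK4 := H27.k_ak4 pX_CMP pX_ALN pJ_AX pJ_AM pJ_AO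

theorem pT_FIX : T_FIX := H58.t_FIX pJ_AX pJ_AM pJ_D pJ_U pT_CAP pT_DIV CON.pE_N2

theorem pK_BESS : K_BESS := H66.k_bess pX_NOR pT_CAP CON.pE_J1 CON.pE_J2 CON.pE_N2

theorem pK_BE3 : K_BE3 := H15.k_BE3 pX_NOR pT_CAP CON.pE_J2 CON.pE_J4 CON.pE_N2 CON.pE_ORT pT_RK

theorem pK_BE2S : K_BE2S := H75.k_be2s pX_CMP pX_F1 pJ_ROOT pJ_EV CON.pE_NON pT_RK

theorem pK_SEA : K_SEA :=
  H50.k_sea pX_NEW pX_DEC pT_DIV CON.pE_J1 CON.pE_VAL CON.pE_NON CON.pE_N2 pT_RK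

theorem pK_SBE : K_SBE := H62.k_sbe pX_EQU pT_FIX pJ_ROOT pJ_EV CON.pE_NON pT_RK

theorem pK_AE6 : K_AE6 := H21.k_ae6 pK_AK4 pK_E6R pJ_ROOT pJ_EV pJ_RAD pT_RAD

theorem pK_BE2 : K_BE2 := H15.k_BE2 pX_CMP pX_F1 pT_FIX pJ_EV CON.pE_NON pT_RK

theorem pK_E3A2 : K_E3A2 := H99.k_e3a2 pK_SEA pX_PAR CON.pE_NON pT_RK

theorem pK_SBM : K_SBM := H81.k_sbm pX_EQU pT_FIX pT_RAD pJ_RAD pJ_ROOT CON.pE_NON pT_RK

theorem pK_SBS : K_SBS := H62.k_sbs pX_EQU pT_FIX pJ_ROOT pJ_D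

/-- the modules of the classification of the positive definite lattices -/
theorem mods : Mods :=
  ⟨pT_ADE, pT_RK, pG_SUM, pG_ASM, pH_SC, pH_I3, pK_CAP, pK_GRP, pK_BEE, pK_BE3, pK_BESS, pK_B4S,
    pK_DN, pK_MME, pK_BME, pK_MM3E, pK_MMM, pK_DM, pK_BE2S, pK_BE2, pK_A8, pK_AE6, pK_SBE,
    pK_SBS, pK_SBM, pK_SEA, pK_E3A2⟩

theorem pE_CLS : E_CLS := e_cls mods CON.pE_SHO CON.pE_COM

/-- the modules of the final assembly -/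
theorem mods2 : Mods2 :=
  ⟨CON.pA_ISO, CON.pA_RAT, CON.pA_INV, pA_MIN2, pA_IND2, CON.pA_CNG, pB_DIV2, pB_TEM2,
    CON.pC_RTG, CON.pD_PD, CON.pD_IND, pD_RK, CON.pD_RGM, CON.pD_RGN, pE_CLS, CON.pU_GOD, pI_LFT,
    pI_CHG, pI_BAS, pI_ISO, pI_EXC⟩

end Pool.Agent.CN2

end
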