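import Pool.Agent.Helper25_CN2.Stmts

/-!
Squad CN2: assembly of the classification E_CLS
-/

noncomputable section

namespace Pool.Agent.CN2

set_option linter.unusedSimpArgs false

open Pool.Agent.H25Cong Pool.Agent.CON

/-- the modules used in the assembly -/
structure Mods : Prop where
  ade : T_ADE
  rk : T_RK
  sum : G_SUM
  asm : G_ASM
  sc : H_SC
  i3 : H_I3
  cap : K_CAP
  grp : K_GRP
  bee : K_BEE
  be3 : K_BE3
  bess : K_BESS
  b4s : K_B4S
  dn : K_DN
  mme : K_MME
  bme : K_BME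
  mm3e : K_MM3E
  mmm : K_MMM
  dm : K_DM
  be2s : K_BE2S
  be2 : K_BE2
  a8 : K_A8
  ae6 : K_AE6
  sbe : K_SBE
  sbs : K_SBS
  sbm : K_SBM
  sea : K_SEA
  e3a2 : K_E3A2

/-- the situation -/
structure Ctx (M : Type) [AddCommGroup M] (b : M → M → ℤ) (k : ℕ) (C : Fin k → Set M)
    (s : Fin k → ℤ) (τ : Fin k → Ty) (d : ℕ) : Prop where
  pd : PD b
  ct : CT b C s τ
  nb : ¬ Bad b
  d9 : 9 ≤ d
  sum : ∑ i, (τ i).rk = d
  i2 : IndA b ⊤ 2 3
  ip : ∀ p : ℕ, p.Prime → p ≠ 2 → IndA b ⊤ p 4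

/-- the conclusion -/
def Concl {M : Type} [AddCommGroup M] (b : M → M → ℤ) (d : ℕ) : Prop :=
  ∃ l ∈ good, (l.map fun T => T.1.rk).sum = d ∧ GrB b ⊤ (gr l)

variable {M : Type} [AddCommGroup M] {b : M → M → ℤ} {k : ℕ} {C : Fin k → Set M}
  {s : Fin k → ℤ} {τ : Fin k → Ty} {d : ℕ}

lemma sum_list {k : ℕ} (f : Fin k → ℕ) (l : List (Fin k)) (hn : l.Nodup) (hc : ∀ i, i ∈ l) :
    ∑ i, f i = (l.map f).sum := by
  have : (Finset.univ : Finset (Fin k)) = l.toFinset := by
    ext i; simp [hc i]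
  rw [this, List.sum_toFinset f hn]

lemma rkA (n : ℕ) : (Ty.A n).rk = n := rfl

lemma rkD (n : ℕ) : (Ty.D n).rk = n := rfl

lemma rkE (n : ℕ) : (Ty.E n).rk = n := rfl

lemma ty_cases (c : Ctx M b k C s τ d) (i : Fin k) :
    (τ i).big ∨ (τ i).mid ∨ τ i = .A 1 := by
  have h := c.ct.ty i
  cases ht : τ i with
  | A m =>
    rw [ht] at h
    have h1 : 1 ≤ m := h.1
    by_cases h4 : 4 ≤ m
    · exact Or.inl h4
    · right
      have : m = 1 ∨ m = 2 ∨ m = 3 := by omega
      rcases this with rfl | rfl | rfl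
      · exact Or.inr rfl
      · exact Or.inl (Or.inl rfl)
      · exact Or.inl (Or.inr rfl)
  | D m =>
    rw [ht] at h
    have h1 : 4 ≤ m := h.1
    by_cases h5 : 5 ≤ m
    · exact Or.inl h5
    · exact Or.inr (Or.inl (show m = 4 by omega))
  | E m => exact Or.inl trivial

lemma rk_pos (c : Ctx M b k C s τ d) (i : Fin k) : 1 ≤ (τ i).rk := by
  have h := c.ct.ty i
  cases ht : τ i with
  | A m => rw [ht] at h; exact h.1
  | D m => rw [ht] at h; have := h.1; simp only [rkA, rkD, rkE]; omega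
  | E m => rw [ht] at h; have := h.1; simp only [rkA, rkD, rkE]; omega

lemma big_not_mid {T : Ty} (h : T.big) (h' : T.mid) : False := by
  cases T with
  | A m => simp only [Ty.big, Ty.mid] at h h'; omega
  | D m => simp only [Ty.big, Ty.mid] at h h'; omega
  | E m => exact h'

lemma big_not_one {T : Ty} (h : T.big) (h' : T = .A 1) : False := by
  subst h'; simp [Ty.big] at h

lemma mid_not_one {T : Ty} (h : T.mid) (h' : T = .A 1) : False := by
  subst h'; simp [Ty.mid] at h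

lemma mid_rk {T : Ty} (h : T.mid) : T.rk ≤ 4 ∧ 2 ≤ T.rk ∧ (¬ T.md3 → T.rk = 2) ∧
    (T.rk = 4 → T = .D 4) := by
  cases T with
  | A m => simp only [Ty.mid, Ty.rk, Ty.md3, reduceCtorEq] at *; omega
  | D m => simp only [Ty.mid, Ty.rk, Ty.md3, Ty.D.injEq] at *; omega
  | E m => exact h.elim

/-- conclusion from a list of the components -/
lemma fin_list (m : Mods) (c : Ctx M b k C s τ d) (l : List (Fin k)) (hn : l.Nodup)
    (hc : ∀ i, i ∈ l) (hg : (l.map fun i => (τ i, s i)) ∈ good) : Concl b d := by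
  refine ⟨_, hg, ?_, m.asm M b k C s τ l c.pd c.ct hn hc⟩
  rw [List.map_map, ← c.sum, sum_list (fun i => (τ i).rk) l hn hc]
  rfl

lemma scale_one (m : Mods) (c : Ctx M b k C s τ d) (i0 : Fin k) (h2 : ¬ (2 : ℤ) ∣ s i0)
    (h : ∀ p : ℕ, p.Prime → p ≠ 2 → (p : ℤ) ∣ s i0 →
      ∑ i, (if (p : ℤ) ∣ s i then 0 else (τ i).rk) ≤ 3) : s i0 = 1 := by
  by_contra h1
  have hpos := (c.ct.irr i0).pos
  have hne : (s i0).natAbs ≠ 1 := by omega
  obtain ⟨p, hp, hpd⟩ := Nat.exists_prime_and_dvd hne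
  have hpd' : (p : ℤ) ∣ s i0 := Int.natCast_dvd.mpr hpd
  have hp2 : p ≠ 2 := by
    rintro rfl
    exact h2 (by exact_mod_cast hpd')
  exact m.sc M b k C s τ p c.pd c.ct hp (h p hp hp2 hpd') (c.ip p hp hp2)

/-- two capable groups -/
lemma two_big (m : Mods) (c : Ctx M b k C s τ d) (i j : Fin k) (hij : i ≠ j)
    (hi : ¬ (2 : ℤ) ∣ s i) (hi' : (τ i).big) (hj : ¬ (2 : ℤ) ∣ s j) (hj' : (τ j).big) :
    False := by
  have hcap := (m.cap M b k C s τ c.pd c.ct).1
  exact m.grp M b k C s τ c.pd c.ct c.nb {i} {j} (by simpa using hij) (hcap i hi hi')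
    (hcap j hj hj')

lemma big_pair (m : Mods) (c : Ctx M b k C s τ d) (i j l : Fin k) (hij : i ≠ j) (hil : i ≠ l)
    (hjl : j ≠ l) (hi : ¬ (2 : ℤ) ∣ s i) (hi' : (τ i).big) (hj : ¬ (2 : ℤ) ∣ s j)
    (hj' : (τ j).mid) (hl : ¬ (2 : ℤ) ∣ s l) : False := by
  have hcap := m.cap M b k C s τ c.pd c.ct
  refine m.grp M b k C s τ c.pd c.ct c.nb {i} {j, l} ?_ (hcap.1 i hi hi')
    (hcap.2 j l hjl hj hj' hl)
  simp [hij, hil]

lemma pair_pair (m : Mods) (c : Ctx M b k C s τ d) (i1 i2 a a' : Fin k) (h12 : i1 ≠ i2)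
    (h1 : ¬ (2 : ℤ) ∣ s i1) (h1' : (τ i1).mid) (h2 : ¬ (2 : ℤ) ∣ s i2) (h2' : (τ i2).mid)
    (ha : ¬ (2 : ℤ) ∣ s a) (ha' : ¬ (2 : ℤ) ∣ s a') (haa : a ≠ a') (ha1 : a ≠ i1)
    (ha2 : a ≠ i2) (ha1' : a' ≠ i1) (ha2' : a' ≠ i2) : False := by
  have hcap := m.cap M b k C s τ c.pd c.ct
  refine m.grp M b k C s τ c.pd c.ct c.nb {i1, a} {i2, a'} ?_
    (hcap.2 i1 a ha1.symm h1 h1' ha) (hcap.2 i2 a' ha2'.symm h2 h2' ha')
  rw [Finset.disjoint_left]
  intro x hx hx'
  simp only [Finset.mem_insert, Finset.mem_singleton] at hx hx'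
  rcases hx with rfl | rfl <;> rcases hx' with h | h
  · exact h12 h
  · exact ha1' h.symm
  · exact ha2 h
  · exact haa h

/-! ### one big component -/

lemma rk_two (c : Ctx M b k C s τ d) (i0 i1 : Fin k) (h01 : i0 ≠ i1)
    (hc : ∀ i, i = i0 ∨ i = i1) : (τ i0).rk + (τ i1).rk = d := by
  rw [← c.sum, sum_list (fun i => (τ i).rk) [i0, i1] (by simpa using h01) (by simpa using hc)]
  simp

lemma rk_three (c : Ctx M b k C s τ d) (i0 i1 i2 : Fin k) (h01 : i0 ≠ i1) (h02 : i0 ≠ i2)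
    (h12 : i1 ≠ i2) (hc : ∀ i, i = i0 ∨ i = i1 ∨ i = i2) :
    (τ i0).rk + ((τ i1).rk + (τ i2).rk) = d := by
  rw [← c.sum, sum_list (fun i => (τ i).rk) [i0, i1, i2] (by simp [h01, h02, h12])
    (by simpa using hc)]
  simp

/-- all scales are equal to that of i0 up to a factor: the scale of i0 is one -/
lemma scale_all (m : Mods) (c : Ctx M b k C s τ d) (i0 : Fin k) (h2 : ¬ (2 : ℤ) ∣ s i0)
    (h : ∀ i, s i0 ∣ s i) : s i0 = 1 := by
  refine scale_one m c i0 h2 fun p _ _ hp => ?_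
  have : ∑ i, (if (p : ℤ) ∣ s i then 0 else (τ i).rk) = 0 :=
    Finset.sum_eq_zero fun i _ => by rw [if_pos (hp.trans (h i))]
  omega

lemma scale_small (m : Mods) (c : Ctx M b k C s τ d) (i0 i1 : Fin k) (h2 : ¬ (2 : ℤ) ∣ s i0)
    (hc : ∀ i, i = i0 ∨ i = i1) (h : (τ i1).rk ≤ 3) : s i0 = 1 := by
  refine scale_one m c i0 h2 fun p _ _ hp => ?_
  calc ∑ i, (if (p : ℤ) ∣ s i then 0 else (τ i).rk)
      ≤ ∑ i, (if i = i1 then (τ i1).rk else 0) := by
        refine Finset.sum_le_sum fun i _ => ?_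
        rcases hc i with rfl | rfl
        · rw [if_pos hp]; exact Nat.zero_le _
        · rw [if_pos rfl]; split_ifs <;> omega
    _ = (τ i1).rk := by simp
    _ ≤ 3 := h

/-- big and middle -/
lemma case_BM (m : Mods) (c : Ctx M b k C s τ d) (i0 i1 : Fin k) (h0 : ¬ (2 : ℤ) ∣ s i0)
    (hb : (τ i0).big) (h1 : ¬ (2 : ℤ) ∣ s i1) (hm : (τ i1).mid)
    (hc : ∀ i, i = i0 ∨ i = i1) : Concl b d := by
  have h01 : i0 ≠ i1 := by rintro rfl; exact big_not_mid hb hm
  have hrk := rk_two c i0 i1 h01 hc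
  have hd := c.d9
  have hdm := m.dm M b k C s τ c.pd c.ct c.nb i0 i1 h0 h1 h01 hm
  have hmr := mid_rk hm
  have hty := c.ct.ty i0
  have hnod : [i0, i1].Nodup := by simpa using h01
  have hcov : ∀ i, i ∈ [i0, i1] := by simpa using hc
  -- equal scales
  have heq : (τ i0).fix → (τ i1).md3 → s i0 = 1 ∧ s i1 = 1 := by
    intro hf h3
    have h := (m.sbm M b k C s τ c.pd c.ct c.nb i0 i1 h0 h1 h3 h01).1 hf
    have h1 := scale_all m c i0 h0 (fun i => by
      rcases hc i with rfl | rfl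
      · exact dvd_rfl
      · rw [h])
    exact ⟨h1, by rw [h, h1]⟩
  cases ht : τ i0 with
  | A n =>
    exfalso
    rw [ht] at hb hrk hdm
    simp only [rkA, rkD, rkE] at hrk
    have hn8 := m.a8 M b k C s τ c.pd c.ct c.nb i0 n h0 ht
    have hn : 4 ≤ n := hb
    by_cases h3 : (τ i1).md3
    · exact (m.ae6 M b k C s τ c.pd c.ct c.nb i0 i1 h0 (Or.inl ⟨n, hn, ht⟩) h01).2.1 h1 h3
    · have := hmr.2.2.1 h3
      have : n = 7 := by omega
      subst this
      exact hdm.2 rfl
  | D n =>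
    rw [ht] at hb hrk hdm heq
    simp only [rkA, rkD, rkE] at hrk
    have hn7 : n < 7 := by
      by_contra h
      exact hdm.1 n (by omega) rfl
    have hn5 : 5 ≤ n := hb
    have h3 : (τ i1).md3 := by
      by_contra h3
      have := hmr.2.2.1 h3
      omega
    obtain ⟨hs0, hs1⟩ := heq hn5 h3
    have hn : n = 5 ∨ n = 6 := by omega
    rcases hn with rfl | rfl
    · have ht1 := hmr.2.2.2 (by omega)
      exact fin_list m c [i0, i1] hnod hcov (by simp [good, ht, ht1, hs0, hs1])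
    · cases ht1 : τ i1 with
      | A n1 =>
        rw [ht1] at h3
        have : n1 = 3 := h3
        subst this
        exact fin_list m c [i0, i1] hnod hcov (by simp [good, ht, ht1, hs0, hs1])
      | D n1 =>
        rw [ht1] at h3
        have : n1 = 4 := h3
        subst this
        exact fin_list m c [i0, i1] hnod hcov (by simp [good, ht, ht1, hs0, hs1])
      | E n1 => rw [ht1] at h3; exact h3.elim
  | E n =>
    rw [ht] at hty
    rw [ht] at hrk heq
    simp only [rkA, rkD, rkE] at hrk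
    rcases hty.1 with rfl | rfl | rfl
    · exfalso
      have h3 : (τ i1).md3 := by
        by_contra h3
        have := hmr.2.2.1 h3
        omega
      exact (m.ae6 M b k C s τ c.pd c.ct c.nb i0 i1 h0 (Or.inr ht) h01).2.1 h1 h3
    · cases ht1 : τ i1 with
      | A n1 =>
        rw [ht1] at hm heq hrk
        rcases hm with rfl | rfl
        · have hs0 := scale_small m c i0 i1 h0 hc (by rw [ht1]; simp [Ty.rk])
          obtain ⟨β, hβ⟩ := (c.ct.irr i0).ne
          obtain ⟨α, hα⟩ := (c.ct.irr i1).ne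
          rcases m.sea M b k C s τ c.pd c.ct c.nb i0 i1 β α h01 hc (Or.inl ht) hs0 h1 hβ hα with
            h | ⟨h, -⟩
          · exact fin_list m c [i0, i1] hnod hcov (by simp [good, ht, ht1, hs0, h])
          · exact absurd h (m.e3a2 M b k C s τ c.pd c.ct c.nb i0 i1 h01 hc (Or.inl ht) hs0 ht1)
        · obtain ⟨hs0, hs1⟩ := heq (show (7 : ℕ) ≠ 6 by norm_num) rfl
          exact fin_list m c [i0, i1] hnod hcov (by simp [good, ht, ht1, hs0, hs1])
      | D n1 =>
        rw [ht1] at hm heq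
        have : n1 = 4 := hm
        subst this
        obtain ⟨hs0, hs1⟩ := heq (show (7 : ℕ) ≠ 6 by norm_num) rfl
        exact fin_list m c [i0, i1] hnod hcov (by simp [good, ht, ht1, hs0, hs1])
      | E n1 => rw [ht1] at hm; exact hm.elim
    · cases ht1 : τ i1 with
      | A n1 =>
        rw [ht1] at hm heq hrk
        rcases hm with rfl | rfl
        · have hs0 := scale_small m c i0 i1 h0 hc (by rw [ht1]; simp [Ty.rk])
          obtain ⟨β, hβ⟩ := (c.ct.irr i0).ne
          obtain ⟨α, hα⟩ := (c.ct.irr i1).ne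
          rcases m.sea M b k C s τ c.pd c.ct c.nb i0 i1 β α h01 hc (Or.inr ht) hs0 h1 hβ hα with
            h | ⟨h, -⟩
          · exact fin_list m c [i0, i1] hnod hcov (by simp [good, ht, ht1, hs0, h])
          · exact absurd h (m.e3a2 M b k C s τ c.pd c.ct c.nb i0 i1 h01 hc (Or.inr ht) hs0 ht1)
        · obtain ⟨hs0, hs1⟩ := heq (show (8 : ℕ) ≠ 6 by norm_num) rfl
          exact fin_list m c [i0, i1] hnod hcov (by simp [good, ht, ht1, hs0, hs1])
      | D n1 =>
        rw [ht1] at hm heq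
        have : n1 = 4 := hm
        subst this
        obtain ⟨hs0, hs1⟩ := heq (show (8 : ℕ) ≠ 6 by norm_num) rfl
        exact fin_list m c [i0, i1] hnod hcov (by simp [good, ht, ht1, hs0, hs1])
      | E n1 => rw [ht1] at hm; exact hm.elim

/-- big, even and small -/
lemma case_BES (m : Mods) (c : Ctx M b k C s τ d) (i0 i1 i2 : Fin k) (h0 : ¬ (2 : ℤ) ∣ s i0)
    (hb : (τ i0).big) (h1 : (2 : ℤ) ∣ s i1) (h2 : ¬ (2 : ℤ) ∣ s i2) (ht2 : τ i2 = .A 1)
    (hc : ∀ i, i = i0 ∨ i = i1 ∨ i = i2) : Concl b d := by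
  have h01 : i0 ≠ i1 := by rintro rfl; exact h0 h1
  have h12 : i1 ≠ i2 := by rintro rfl; exact h2 h1
  have h02 : i0 ≠ i2 := by rintro rfl; exact big_not_one hb ht2
  have hrk := rk_three c i0 i1 i2 h01 h02 h12 hc
  have hd := c.d9
  rw [ht2] at hrk
  simp only [rkA, rkD, rkE] at hrk
  have hr1 : (τ i1).rk ≤ 2 := by
    by_contra h
    exact m.be3 M b k C s τ c.pd c.ct c.nb i0 i1 h0 hb h1 (by omega)
  have hr1' := rk_pos c i1
  have hr1'' : (τ i1).rk = 1 := by
    by_contra h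
    exact m.be2s M b k C s τ c.pd c.ct c.nb i0 i1 i2 h0 hb h1 (by omega) h2 ht2
  have ht1 : τ i1 = .A 1 := by
    have hty := c.ct.ty i1
    cases ht : τ i1 with
    | A n => rw [ht] at hr1''; simp only [rkA, rkD, rkE] at hr1''; rw [hr1'']
    | D n => rw [ht] at hty hr1''; have := hty.1; simp only [rkA, rkD, rkE] at hr1''; omega
    | E n => rw [ht] at hty hr1''; have := hty.1; simp only [rkA, rkD, rkE] at hr1''; omega
  have hs := (m.sbe M b k C s τ c.pd c.ct c.nb i0 i1 h0 h1 ht1).2 hb i2 h2 ht2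
  have hs0 := scale_all m c i0 h0 (fun i => by
    rcases hc i with rfl | rfl | rfl
    · exact dvd_rfl
    · rw [hs.1]; exact dvd_mul_left _ _
    · rw [hs.2])
  rw [hs0] at hs
  have hnod : [i0, i2, i1].Nodup := by simp [h02, h01, h12.symm]
  have hcov : ∀ i, i ∈ [i0, i2, i1] := by
    intro i; rcases hc i with rfl | rfl | rfl <;> simp
  have hty := c.ct.ty i0
  cases ht : τ i0 with
  | A n =>
    exfalso
    exact (m.ae6 M b k C s τ c.pd c.ct c.nb i0 i1 h0 (Or.inl ⟨n, by rw [ht] at hb; exact hb, ht⟩)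
      h01).1 h1 ht1
  | D n =>
    exfalso
    rw [ht] at hrk
    simp only [rkA, rkD, rkE] at hrk
    exact (m.dn M b k C s τ c.pd c.ct c.nb i0 n h0 ht).1 i1 i2 (by omega) h1 h2 ht2
  | E n =>
    rw [ht] at hty
    rw [ht] at hrk
    simp only [rkA, rkD, rkE] at hrk
    rcases hty.1 with rfl | rfl | rfl
    · omega
    · exact fin_list m c [i0, i2, i1] hnod hcov (by simp [good, ht, ht1, ht2, hs0, hs.1, hs.2])
    · exact fin_list m c [i0, i2, i1] hnod hcov (by simp [good, ht, ht1, ht2, hs0, hs.1, hs.2])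

/-- big and even -/
lemma case_BE (m : Mods) (c : Ctx M b k C s τ d) (i0 i1 : Fin k) (h0 : ¬ (2 : ℤ) ∣ s i0)
    (hb : (τ i0).big) (h1 : (2 : ℤ) ∣ s i1)
    (hc : ∀ i, i = i0 ∨ i = i1) : Concl b d := by
  have h01 : i0 ≠ i1 := by rintro rfl; exact h0 h1
  have hrk := rk_two c i0 i1 h01 hc
  have hd := c.d9
  have hr1 : (τ i1).rk ≤ 2 := by
    by_contra h
    exact m.be3 M b k C s τ c.pd c.ct c.nb i0 i1 h0 hb h1 (by omega)
  have hr1' := rk_pos c i1
  have hfix : (τ i0).fix := by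
    have hty := c.ct.ty i0
    cases ht : τ i0 with
    | A n => rw [ht] at hrk; simp only [rkA, rkD, rkE] at hrk; show 6 ≤ n; omega
    | D n => rw [ht] at hrk; simp only [rkA, rkD, rkE] at hrk; show 5 ≤ n; omega
    | E n => rw [ht] at hrk; simp only [rkA, rkD, rkE] at hrk; show n ≠ 6; omega
  have hr1'' : (τ i1).rk = 1 := by
    by_contra h
    exact m.be2 M b k C s τ c.pd c.ct c.nb i0 i1 h0 hfix h1 (by omega)
  have ht1 : τ i1 = .A 1 := by
    have hty := c.ct.ty i1
    cases ht : τ i1 with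
    | A n => rw [ht] at hr1''; simp only [rkA, rkD, rkE] at hr1''; rw [hr1'']
    | D n => rw [ht] at hty hr1''; have := hty.1; simp only [rkA, rkD, rkE] at hr1''; omega
    | E n => rw [ht] at hty hr1''; have := hty.1; simp only [rkA, rkD, rkE] at hr1''; omega
  have hs := (m.sbe M b k C s τ c.pd c.ct c.nb i0 i1 h0 h1 ht1).1 hfix
  have hs0 := scale_all m c i0 h0 (fun i => by
    rcases hc i with rfl | rfl
    · exact dvd_rfl
    · rw [hs]; exact dvd_mul_left _ _)
  rw [hs0] at hs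
  have hnod : [i0, i1].Nodup := by simp [h01]
  have hcov : ∀ i, i ∈ [i0, i1] := by simpa using hc
  have hty := c.ct.ty i0
  cases ht : τ i0 with
  | A n =>
    exfalso
    exact (m.ae6 M b k C s τ c.pd c.ct c.nb i0 i1 h0 (Or.inl ⟨n, by rw [ht] at hb; exact hb, ht⟩)
      h01).1 h1 ht1
  | D n =>
    rw [ht] at hrk
    simp only [rkA, rkD, rkE] at hrk
    have hn : n = 8 := by
      by_contra h
      exact (m.dn M b k C s τ c.pd c.ct c.nb i0 n h0 ht).2.1 i1 (by omega) h1
    subst hn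
    exact fin_list m c [i0, i1] hnod hcov (by simp [good, ht, ht1, hs0, hs])
  | E n =>
    rw [ht] at hty
    rw [ht] at hrk
    simp only [rkA, rkD, rkE] at hrk
    rcases hty.1 with rfl | rfl | rfl
    · omega
    · omega
    · exact fin_list m c [i0, i1] hnod hcov (by simp [good, ht, ht1, hs0, hs])

/-- big alone -/
lemma case_B0 (m : Mods) (c : Ctx M b k C s τ d) (i0 : Fin k) (h0 : ¬ (2 : ℤ) ∣ s i0)
    (hc : ∀ i, i = i0) : Concl b d := by
  have hrk : (τ i0).rk = d := by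
    rw [← c.sum, sum_list (fun i => (τ i).rk) [i0] (by simp) (by simpa using hc)]
    simp
  have hd := c.d9
  have hs0 := scale_all m c i0 h0 (fun i => by rw [hc i])
  have hnod : [i0].Nodup := by simp
  have hcov : ∀ i, i ∈ [i0] := by simpa using hc
  have hty := c.ct.ty i0
  cases ht : τ i0 with
  | A n =>
    rw [ht] at hrk
    simp only [rkA, rkD, rkE] at hrk
    have := m.a8 M b k C s τ c.pd c.ct c.nb i0 n h0 ht
    omega
  | D n =>
    rw [ht] at hrk
    simp only [rkA, rkD, rkE] at hrk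
    have := (m.dn M b k C s τ c.pd c.ct c.nb i0 n h0 ht).2.2.2.2.2
    have hn : n = 9 ∨ n = 10 ∨ n = 11 ∨ n = 12 := by omega
    rcases hn with rfl | rfl | rfl | rfl <;>
      exact fin_list m c [i0] hnod hcov (by simp [good, ht, hs0])
  | E n =>
    rw [ht] at hty
    rw [ht] at hrk
    simp only [rkA, rkD, rkE] at hrk
    have := hty.1
    omega

/-- big and one small -/
lemma case_B1 (m : Mods) (c : Ctx M b k C s τ d) (i0 i1 : Fin k) (h0 : ¬ (2 : ℤ) ∣ s i0)
    (hb : (τ i0).big) (h1 : ¬ (2 : ℤ) ∣ s i1) (ht1 : τ i1 = .A 1)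
    (hc : ∀ i, i = i0 ∨ i = i1) : Concl b d := by
  have h01 : i0 ≠ i1 := by rintro rfl; exact big_not_one hb ht1
  have hrk := rk_two c i0 i1 h01 hc
  have hd := c.d9
  rw [ht1] at hrk
  simp only [rkA, rkD, rkE] at hrk
  have hnod : [i0, i1].Nodup := by simp [h01]
  have hcov : ∀ i, i ∈ [i0, i1] := by simpa using hc
  have hty := c.ct.ty i0
  cases ht : τ i0 with
  | A n =>
    rw [ht] at hrk
    simp only [rkA, rkD, rkE] at hrk
    have := m.a8 M b k C s τ c.pd c.ct c.nb i0 n h0 ht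
    omega
  | D n =>
    rw [ht] at hrk
    simp only [rkA, rkD, rkE] at hrk
    have h11 : n < 11 := by
      by_contra h
      exact (m.dn M b k C s τ c.pd c.ct c.nb i0 n h0 ht).2.2.2.2.1 i1 (by omega) h1 ht1
    have hs := (m.sbs M b k C s τ c.pd c.ct c.nb i0 i1 h0 h1 ht1).1 n (by omega) ht
    have hs0 := scale_all m c i0 h0 (fun i => by
      rcases hc i with rfl | rfl
      · exact dvd_rfl
      · rw [hs])
    rw [hs0] at hs
    have hn : n = 8 ∨ n = 9 ∨ n = 10 := by omega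
    rcases hn with rfl | rfl | rfl <;>
      exact fin_list m c [i0, i1] hnod hcov (by simp [good, ht, ht1, hs0, hs])
  | E n =>
    rw [ht] at hty
    rw [ht] at hrk
    simp only [rkA, rkD, rkE] at hrk
    have hn : n = 8 := by have := hty.1; omega
    subst hn
    have hs0 := scale_small m c i0 i1 h0 hc (by rw [ht1]; simp [Ty.rk])
    obtain ⟨β, hβ⟩ := (c.ct.irr i0).ne
    obtain ⟨α, hα⟩ := (c.ct.irr i1).ne
    rcases m.sea M b k C s τ c.pd c.ct c.nb i0 i1 β α h01 hc (Or.inr ht) hs0 h1 hβ hα with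
      h | ⟨h, -⟩
    · exact fin_list m c [i0, i1] hnod hcov (by simp [good, ht, ht1, hs0, h])
    · exact fin_list m c [i0, i1] hnod hcov (by simp [good, ht, ht1, hs0, h])

lemma fix_of (c : Ctx M b k C s τ d) (i0 : Fin k) (h6 : 6 ≤ (τ i0).rk) (hE : τ i0 ≠ .E 6) :
    (τ i0).fix := by
  cases ht : τ i0 with
  | A n => rw [ht] at h6; exact h6
  | D n => rw [ht] at h6; simp only [rkA, rkD, rkE] at h6; show 5 ≤ n; omega
  | E n =>
    rw [ht] at hE
    show n ≠ 6
    rintro rfl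
    exact hE rfl

/-- big and two small -/
lemma case_B2 (m : Mods) (c : Ctx M b k C s τ d) (i0 i1 i2 : Fin k) (h0 : ¬ (2 : ℤ) ∣ s i0)
    (hb : (τ i0).big) (h1 : ¬ (2 : ℤ) ∣ s i1) (ht1 : τ i1 = .A 1) (h2 : ¬ (2 : ℤ) ∣ s i2)
    (ht2 : τ i2 = .A 1) (h12 : i1 ≠ i2)
    (hc : ∀ i, i = i0 ∨ i = i1 ∨ i = i2) : Concl b d := by
  have h01 : i0 ≠ i1 := by rintro rfl; exact big_not_one hb ht1
  have h02 : i0 ≠ i2 := by rintro rfl; exact big_not_one hb ht2
  have hrk := rk_three c i0 i1 i2 h01 h02 h12 hc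
  have hd := c.d9
  rw [ht1, ht2] at hrk
  simp only [rkA, rkD, rkE] at hrk
  have hnod : [i0, i1, i2].Nodup := by simp [h01, h02, h12]
  have hcov : ∀ i, i ∈ [i0, i1, i2] := by simpa using hc
  have hty := c.ct.ty i0
  have hE : τ i0 ≠ .E 6 := by
    intro h
    rw [h] at hrk
    simp only [rkA, rkD, rkE] at hrk
    omega
  have hfix := fix_of c i0 (by omega) hE
  have hs1 := (m.sbs M b k C s τ c.pd c.ct c.nb i0 i1 h0 h1 ht1).2 i2 hfix h12 h2 ht2
  have hs2 := (m.sbs M b k C s τ c.pd c.ct c.nb i0 i2 h0 h2 ht2).2 i1 hfix h12.symm h1 ht1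
  have hs0 := scale_all m c i0 h0 (fun i => by
    rcases hc i with rfl | rfl | rfl
    · exact dvd_rfl
    · rw [hs1]
    · rw [hs2])
  rw [hs0] at hs1 hs2
  cases ht : τ i0 with
  | A n =>
    exact ((m.ae6 M b k C s τ c.pd c.ct c.nb i0 i1 h0
      (Or.inl ⟨n, by rw [ht] at hb; exact hb, ht⟩) h01).2.2 i2 h12 h1 ht1 h2 ht2).elim
  | D n =>
    rw [ht] at hrk
    simp only [rkA, rkD, rkE] at hrk
    have h9 : n < 9 := by
      by_contra h
      exact (m.dn M b k C s τ c.pd c.ct c.nb i0 n h0 ht).2.2.2.1 i1 i2 (by omega) h12 h1 ht1 h2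
        ht2
    have hn : n = 7 ∨ n = 8 := by omega
    rcases hn with rfl | rfl <;>
      exact fin_list m c [i0, i1, i2] hnod hcov (by simp [good, ht, ht1, ht2, hs0, hs1, hs2])
  | E n =>
    rw [ht] at hty
    rcases hty.1 with rfl | rfl | rfl
    · exact (hE ht).elim
    · exact fin_list m c [i0, i1, i2] hnod hcov (by simp [good, ht, ht1, ht2, hs0, hs1, hs2])
    · exact fin_list m c [i0, i1, i2] hnod hcov (by simp [good, ht, ht1, ht2, hs0, hs1, hs2])

/-- big and three small -/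
lemma case_B3 (m : Mods) (c : Ctx M b k C s τ d) (i0 i1 i2 i3 : Fin k)
    (h0 : ¬ (2 : ℤ) ∣ s i0)
    (hb : (τ i0).big) (h1 : ¬ (2 : ℤ) ∣ s i1) (ht1 : τ i1 = .A 1) (h2 : ¬ (2 : ℤ) ∣ s i2)
    (ht2 : τ i2 = .A 1) (h3 : ¬ (2 : ℤ) ∣ s i3) (ht3 : τ i3 = .A 1) (h12 : i1 ≠ i2)
    (h13 : i1 ≠ i3) (h23 : i2 ≠ i3)
    (hc : ∀ i, i = i0 ∨ i = i1 ∨ i = i2 ∨ i = i3) : Concl b d := by
  have h01 : i0 ≠ i1 := by rintro rfl; exact big_not_one hb ht1
  have h02 : i0 ≠ i2 := by rintro rfl; exact big_not_one hb ht2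
  have h03 : i0 ≠ i3 := by rintro rfl; exact big_not_one hb ht3
  have hnod : [i0, i1, i2, i3].Nodup := by simp [h01, h02, h03, h12, h13, h23]
  have hcov : ∀ i, i ∈ [i0, i1, i2, i3] := by simpa using hc
  have hrk : (τ i0).rk + 3 = d := by
    rw [← c.sum, sum_list (fun i => (τ i).rk) [i0, i1, i2, i3] hnod hcov]
    simp [ht1, ht2, ht3, Ty.rk]
  have hd := c.d9
  have hty := c.ct.ty i0
  have hae := fun h => (m.ae6 M b k C s τ c.pd c.ct c.nb i0 i1 h0 h h01).2.2 i2 h12 h1 ht1 h2 ht2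
  have hE : τ i0 ≠ .E 6 := fun h => hae (Or.inr h)
  have hfix := fix_of c i0 (by omega) hE
  have hs1 := (m.sbs M b k C s τ c.pd c.ct c.nb i0 i1 h0 h1 ht1).2 i2 hfix h12 h2 ht2
  have hs2 := (m.sbs M b k C s τ c.pd c.ct c.nb i0 i2 h0 h2 ht2).2 i1 hfix h12.symm h1 ht1
  have hs3 := (m.sbs M b k C s τ c.pd c.ct c.nb i0 i3 h0 h3 ht3).2 i1 hfix h13.symm h1 ht1
  have hs0 := scale_all m c i0 h0 (fun i => by
    rcases hc i with rfl | rfl | rfl | rfl
    · exact dvd_rfl
    · rw [hs1]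
    · rw [hs2]
    · rw [hs3])
  rw [hs0] at hs1 hs2 hs3
  cases ht : τ i0 with
  | A n => exact (hae (Or.inl ⟨n, by rw [ht] at hb; exact hb, ht⟩)).elim
  | D n =>
    rw [ht] at hrk
    simp only [rkA, rkD, rkE] at hrk
    have hn : n = 6 := by
      by_contra h
      refine (m.dn M b k C s τ c.pd c.ct c.nb i0 n h0 ht).2.2.1 ![i1, i2, i3] (by omega) ?_ ?_
      · intro a a' haa
        fin_cases a <;> fin_cases a' <;> simp_all
      · intro l
        fin_cases l
        · exact ⟨h1, ht1⟩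
        · exact ⟨h2, ht2⟩
        · exact ⟨h3, ht3⟩
    subst hn
    exact fin_list m c [i0, i1, i2, i3] hnod hcov
      (by simp [good, ht, ht1, ht2, ht3, hs0, hs1, hs2, hs3])
  | E n =>
    rw [ht] at hty
    rcases hty.1 with rfl | rfl | rfl
    · exact (hE ht).elim
    · exact fin_list m c [i0, i1, i2, i3] hnod hcov
        (by simp [good, ht, ht1, ht2, ht3, hs0, hs1, hs2, hs3])
    · exact fin_list m c [i0, i1, i2, i3] hnod hcov
        (by simp [good, ht, ht1, ht2, ht3, hs0, hs1, hs2, hs3])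

/-- the case of a big component -/
lemma case_B (m : Mods) (c : Ctx M b k C s τ d) (i0 : Fin k) (h0 : ¬ (2 : ℤ) ∣ s i0)
    (hb : (τ i0).big) : Concl b d := by
  by_cases hmid : ∃ i1, ¬ (2 : ℤ) ∣ s i1 ∧ (τ i1).mid
  · obtain ⟨i1, h1, hm⟩ := hmid
    have h01 : i0 ≠ i1 := by rintro rfl; exact big_not_mid hb hm
    refine case_BM m c i0 i1 h0 hb h1 hm fun i => ?_
    by_contra h
    push Not at h
    by_cases hi : (2 : ℤ) ∣ s i
    · exact m.bme M b k C s τ c.pd c.ct c.nb i0 i1 i h0 hb h1 hm hi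
    · exact big_pair m c i0 i1 i h01 h.1.symm h.2.symm h0 hb h1 hm hi
  · push Not at hmid
    have hsm : ∀ i, i ≠ i0 → ¬ (2 : ℤ) ∣ s i → τ i = .A 1 := by
      intro i hi hi2
      rcases ty_cases c i with h | h | h
      · exact (two_big m c i i0 hi hi2 h h0 hb).elim
      · exact (hmid i hi2 h).elim
      · exact h
    by_cases hev : ∃ i1, (2 : ℤ) ∣ s i1
    · obtain ⟨i1, h1⟩ := hev
      have h01 : i0 ≠ i1 := by rintro rfl; exact h0 h1
      have hodd : ∀ i, i ≠ i1 → ¬ (2 : ℤ) ∣ s i := fun i hi hi2 =>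
        m.bee M b k C s τ c.pd c.ct c.nb i0 i i1 h0 hb hi hi2 h1
      by_cases hs : ∃ i2, i2 ≠ i0 ∧ i2 ≠ i1
      · obtain ⟨i2, h20, h21⟩ := hs
        have ht2 := hsm i2 h20 (hodd i2 h21)
        refine case_BES m c i0 i1 i2 h0 hb h1 (hodd i2 h21) ht2 fun i => ?_
        by_contra h
        push Not at h
        exact m.bess M b k C s τ c.pd c.ct c.nb i0 i1 i i2 h0 hb h1 h.2.2 (hodd i h.2.1)
          (hsm i h.1 (hodd i h.2.1)) (hodd i2 h21) ht2
      · push Not at hs
        refine case_BE m c i0 i1 h0 hb h1 fun i => ?_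
        by_cases hi : i = i0
        · exact Or.inl hi
        · exact Or.inr (hs i hi)
    · push Not at hev
      -- all others are small
      set U : Finset (Fin k) := Finset.univ.erase i0 with hU
      have hmem : ∀ i, i ∈ U ↔ i ≠ i0 := fun i => by simp [hU]
      have hU3 : U.card ≤ 3 := by
        by_contra hc
        obtain ⟨W, hWU, hW⟩ := Finset.exists_subset_card_eq (show 4 ≤ U.card by omega)
        have e := W.equivFinOfCardEq hW
        refine m.b4s M b k C s τ c.pd c.ct c.nb i0 (fun l => (e.symm l : Fin k)) h0 hb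
          (fun a a' haa => e.symm.injective (Subtype.ext haa)) fun l => ?_
        have : (e.symm l : Fin k) ∈ U := hWU (e.symm l).2
        rw [hmem] at this
        exact ⟨hev _, hsm _ this (hev _)⟩
      have hcase : U.card = 0 ∨ U.card = 1 ∨ U.card = 2 ∨ U.card = 3 := by omega
      have hall : ∀ i, i = i0 ∨ i ∈ U := fun i => by
        by_cases hi : i = i0
        · exact Or.inl hi
        · exact Or.inr ((hmem i).2 hi)
      rcases hcase with h | h | h | h
      · rw [Finset.card_eq_zero] at h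
        refine case_B0 m c i0 h0 fun i => ?_
        rcases hall i with hi | hi
        · exact hi
        · rw [h] at hi; simp at hi
      · obtain ⟨i1, h⟩ := Finset.card_eq_one.1 h
        have h1 : i1 ∈ U := by rw [h]; simp
        refine case_B1 m c i0 i1 h0 hb (hev i1) (hsm i1 ((hmem i1).1 h1) (hev i1)) fun i => ?_
        rcases hall i with hi | hi
        · exact Or.inl hi
        · rw [h] at hi; simp at hi; exact Or.inr hi
      · obtain ⟨i1, i2, h12, h⟩ := Finset.card_eq_two.1 h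
        have h1 : i1 ∈ U := by rw [h]; simp
        have h2 : i2 ∈ U := by rw [h]; simp
        refine case_B2 m c i0 i1 i2 h0 hb (hev i1) (hsm i1 ((hmem i1).1 h1) (hev i1)) (hev i2)
          (hsm i2 ((hmem i2).1 h2) (hev i2)) h12 fun i => ?_
        rcases hall i with hi | hi
        · exact Or.inl hi
        · rw [h] at hi; simp at hi; exact Or.inr hi
      · obtain ⟨i1, i2, i3, h12, h13, h23, h⟩ := Finset.card_eq_three.1 h
        have h1 : i1 ∈ U := by rw [h]; simp
        have h2 : i2 ∈ U := by rw [h]; simp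
        have h3 : i3 ∈ U := by rw [h]; simp
        refine case_B3 m c i0 i1 i2 i3 h0 hb (hev i1) (hsm i1 ((hmem i1).1 h1) (hev i1)) (hev i2)
          (hsm i2 ((hmem i2).1 h2) (hev i2)) (hev i3) (hsm i3 ((hmem i3).1 h3) (hev i3)) h12 h13
          h23 fun i => ?_
        rcases hall i with hi | hi
        · exact Or.inl hi
        · rw [h] at hi; simp at hi; exact Or.inr hi

/-! ### no big component -/

lemma md3_or {T : Ty} (h : T.mid) : T.md3 ∨ T.rk = 2 := by
  by_cases h3 : T.md3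
  · exact Or.inl h3
  · exact Or.inr ((mid_rk h).2.2.1 h3)

lemma case_N (m : Mods) (c : Ctx M b k C s τ d) (hnb : ∀ i, ¬ (2 : ℤ) ∣ s i → ¬ (τ i).big) :
    Concl b d := by
  have hex : ∃ i1 i2, i1 ≠ i2 ∧ ¬ (2 : ℤ) ∣ s i1 ∧ (τ i1).mid ∧ ¬ (2 : ℤ) ∣ s i2 ∧
      (τ i2).mid := by
    by_contra h
    push Not at h
    exact m.i3 M b k C s τ c.pd c.ct hnb (fun i j hij h1 h2 h3 h4 => h i j hij h1 h2 h3 h4) c.i2
  obtain ⟨i1, i2, h12, h1, hm1, h2, hm2⟩ := hex
  have hd := c.d9
  -- at most one more odd component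
  have hodd : ∀ a a', ¬ (2 : ℤ) ∣ s a → ¬ (2 : ℤ) ∣ s a' → a ≠ i1 → a ≠ i2 → a' ≠ i1 →
      a' ≠ i2 → a = a' := by
    intro a a' ha ha' ha1 ha2 ha1' ha2'
    by_contra h
    exact pair_pair m c i1 i2 a a' h12 h1 hm1 h2 hm2 ha ha' h ha1 ha2 ha1' ha2'
  have hr1 := mid_rk hm1
  have hr2 := mid_rk hm2
  by_cases hev : ∃ e, (2 : ℤ) ∣ s e
  · exfalso
    obtain ⟨e, he⟩ := hev
    have he1 : e ≠ i1 := by rintro rfl; exact h1 he
    have he2 : e ≠ i2 := by rintro rfl; exact h2 he
    have hme := m.mme M b k C s τ c.pd c.ct c.nb i1 i2 e h12 h1 hm1 h2 hm2 he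
    have hn1 : (τ i1).rk = 2 := by
      rcases md3_or hm1 with h | h
      · exact (m.mm3e M b k C s τ c.pd c.ct c.nb i1 i2 e h12 h1 h h2 hm2 he).elim
      · exact h
    have hn2 : (τ i2).rk = 2 := by
      rcases md3_or hm2 with h | h
      · exact (m.mm3e M b k C s τ c.pd c.ct c.nb i2 i1 e h12.symm h2 h h1 hm1 he).elim
      · exact h
    by_cases ha : ∃ a, ¬ (2 : ℤ) ∣ s a ∧ a ≠ i1 ∧ a ≠ i2
    · obtain ⟨a, ha, ha1, ha2⟩ := ha
      have hae : a ≠ e := by rintro rfl; exact ha he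
      have hra : (τ a).rk ≤ 2 := by
        rcases ty_cases c a with h | h | h
        · exact (hnb a ha h).elim
        · rcases md3_or h with h' | h'
          · exact (m.mm3e M b k C s τ c.pd c.ct c.nb a i1 e ha1 ha h' h1 hm1 he).elim
          · omega
        · rw [h]; simp [Ty.rk]
      have hcov : ∀ i, i ∈ [i1, i2, a, e] := by
        intro i
        by_cases hi : (2 : ℤ) ∣ s i
        · have : i = e := by
            by_contra h
            exact hme.1 i h hi
          simp [this]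
        · by_cases hi1 : i = i1
          · simp [hi1]
          · by_cases hi2 : i = i2
            · simp [hi2]
            · simp [hodd i a hi ha hi1 hi2 ha1 ha2]
      have := c.sum
      rw [sum_list (fun i => (τ i).rk) [i1, i2, a, e]
        (by simp [h12, ha1.symm, ha2.symm, he1.symm, he2.symm, hae]) hcov] at this
      simp only [List.map_cons, List.map_nil, List.sum_cons, List.sum_nil] at this
      omega
    · push Not at ha
      have hcov : ∀ i, i ∈ [i1, i2, e] := by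
        intro i
        by_cases hi : (2 : ℤ) ∣ s i
        · have : i = e := by
            by_contra h
            exact hme.1 i h hi
          simp [this]
        · by_cases hi1 : i = i1
          · simp [hi1]
          · simp [ha i hi hi1]
      have := c.sum
      rw [sum_list (fun i => (τ i).rk) [i1, i2, e]
        (by simp [h12, he1.symm, he2.symm]) hcov] at this
      simp only [List.map_cons, List.map_nil, List.sum_cons, List.sum_nil] at this
      omega
  · push Not at hev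
    by_cases ha : ∃ a, a ≠ i1 ∧ a ≠ i2
    · obtain ⟨a, ha1, ha2⟩ := ha
      have hcov : ∀ i, i ∈ [i1, i2, a] := by
        intro i
        by_cases hi1 : i = i1
        · simp [hi1]
        · by_cases hi2 : i = i2
          · simp [hi2]
          · simp [hodd i a (hev i) (hev a) hi1 hi2 ha1 ha2]
      have hnod : [i1, i2, a].Nodup := by simp [h12, ha1.symm, ha2.symm]
      have hsum := c.sum
      rw [sum_list (fun i => (τ i).rk) [i1, i2, a] hnod hcov] at hsum
      simp only [List.map_cons, List.map_nil, List.sum_cons, List.sum_nil] at hsum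
      rcases ty_cases c a with h | h | h
      · exact (hnb a (hev a) h).elim
      · exfalso
        have hra := mid_rk h
        rcases md3_or hm1 with g1 | g1 <;> rcases md3_or hm2 with g2 | g2
        · exact m.mmm M b k C s τ c.pd c.ct c.nb i1 i2 a h12 ha1.symm ha2.symm h1 g1 h2 g2
            (hev a) h
        · rcases md3_or h with g | g
          · exact m.mmm M b k C s τ c.pd c.ct c.nb i1 a i2 ha1.symm h12 ha2 h1 g1 (hev a) g
              h2 hm2
          · omega
        · rcases md3_or h with g | g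
          · exact m.mmm M b k C s τ c.pd c.ct c.nb i2 a i1 ha2.symm h12.symm ha1 h2 g2 (hev a) g
              h1 hm1
          · omega
        · omega
      · rw [h] at hsum
        simp only [rkA, rkD, rkE] at hsum
        have e1 : τ i1 = .D 4 := hr1.2.2.2 (by omega)
        have e2 : τ i2 = .D 4 := hr2.2.2.2 (by omega)
        have hs := (m.sbm M b k C s τ c.pd c.ct c.nb i1 i2 h1 h2 (by rw [e2]; rfl) h12).2 a ha1
          ha2 (by rw [e1]; rfl) (hev a) h
        have hs0 := scale_all m c i1 h1 (fun i => by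
          have := hcov i
          simp only [List.mem_cons, List.not_mem_nil, or_false] at this
          rcases this with rfl | rfl | rfl
          · exact dvd_rfl
          · rw [hs.1]
          · rw [hs.2])
        rw [hs0] at hs
        exact fin_list m c [i1, i2, a] hnod hcov (by simp [good, e1, e2, h, hs0, hs.1, hs.2])
    · exfalso
      push Not at ha
      have hsum := c.sum
      rw [sum_list (fun i => (τ i).rk) [i1, i2] (by simpa using h12) (fun i => by
        by_cases hi : i = i1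
        · simp [hi]
        · simp [ha i hi])] at hsum
      simp only [List.map_cons, List.map_nil, List.sum_cons, List.sum_nil] at hsum
      omega

/-- E2 -/
theorem e_cls (m : Mods) (hSHO : E_SHO) (hCOM : E_COM) : E_CLS := by
  intro M _ _ b d hpd hgen hnb hd hc hc' h2 hp
  obtain ⟨R, hR⟩ := hSHO M b hpd hgen
  obtain ⟨k, C, s, r, hcomps⟩ := hCOM M b R hpd hR
  have hty : ∀ i, ∃ T, HasTy b (C i) (s i) T := fun i => m.ade M b (C i) (s i) hpd (hcomps.irr i)
  choose τ hτ using hty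
  have hct : CT b C s τ := ⟨hcomps.irr, hcomps.orth, hcomps.gen, hτ⟩
  have c : Ctx M b k C s τ d :=
    ⟨hpd, hct, hnb, hd, m.sum M b k d C s τ hpd hct hc hc', h2, hp⟩
  by_cases hbig : ∃ i0, ¬ (2 : ℤ) ∣ s i0 ∧ (τ i0).big
  · obtain ⟨i0, h0, hb⟩ := hbig
    exact case_B m c i0 h0 hb
  · push Not at hbig
    exact case_N m c hbig

end Pool.Agent.CN2

end
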