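import Pool.Agent.Helper25_CON.Stmts

/-!
Squad CN2 (MP_6d18f4_al, Q2, the complete answer for n = 10..13). Definitions.
Plan with complete proofs: /team-store/PLAN_CN2.md
-/

noncomputable section

namespace Pool.Agent.CN2

open Pool.Agent.H25Cong Pool.Agent.CON

/-! ### types of irreducible components -/

/-- the types A_k, D_k, E_k -/
inductive Ty
  | A (k : ℕ)
  | D (k : ℕ)
  | E (k : ℕ)
  deriving DecidableEq

/-- the rank -/
def Ty.rk : Ty → ℕ
  | .A k => k
  | .D k => k
  | .E k => k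

/-- big types: A_k, k >= 4; D_k, k >= 5; E_k -/
def Ty.big : Ty → Prop
  | .A k => 4 ≤ k
  | .D k => 5 ≤ k
  | .E _ => True

/-- middle types: A_2, A_3, D_4 -/
def Ty.mid : Ty → Prop
  | .A k => k = 2 ∨ k = 3
  | .D k => k = 4
  | .E _ => False

/-- A_3 and D_4 -/
def Ty.md3 : Ty → Prop
  | .A k => k = 3
  | .D k => k = 4
  | .E _ => False

/-- C (scaled by s) has the given type -/
def HasTy {M : Type} [AddCommGroup M] (b : M → M → ℤ) (C : Set M) (s : ℤ) : Ty → Prop
  | .A k => 1 ≤ k ∧ ∃ v : Fin k → M, AFr b C s k v ∧ ∀ α ∈ C, InA v α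
  | .D k => 4 ≤ k ∧ ∃ F : Fin k → M, DFr b C s k F ∧ ∀ α ∈ C, InD F α
  | .E k => (k = 6 ∨ k = 7 ∨ k = 8) ∧ ∃ F : Fin (k - 1) → M, ∃ α ∈ C, DFr b C s (k - 1) F ∧
      (∀ i, b α (F i) = -s) ∧
      ∀ x ∈ AddSubgroup.closure C, x ∈ AddSubgroup.closure ({β | β ∈ C ∧ InD F β} ∪ {α})

/-- M is the orthogonal sum of components of types τ i, scaled by s i -/
structure CT {M : Type} [AddCommGroup M] (b : M → M → ℤ) {k : ℕ} (C : Fin k → Set M)
    (s : Fin k → ℤ) (τ : Fin k → Ty) : Prop where
  irr : ∀ i, Irr b (C i) (s i)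
  orth : ∀ i j, i ≠ j → ∀ α ∈ C i, ∀ β ∈ C j, b α β = 0
  gen : ∀ x : M, x ∈ AddSubgroup.closure (⋃ i, C i)
  ty : ∀ i, HasTy b (C i) (s i) (τ i)

/-! ### new roots of a neighbour -/

/-- (t, ρ) is a new root of the 2-neighbour defined by the class of x modulo 2
(t is the root, scaled by 2, and 4 ρ is its norm in M) -/
def NewR {M : Type} [AddCommGroup M] (b : M → M → ℤ) (x t : M) (ρ : ℤ) : Prop :=
  (∃ z, t = x + (2 : ℤ) • z) ∧ 0 < ρ ∧ ρ % 4 = 2 ∧ b t t = 4 * ρ ∧
    ∀ y, (2 : ℤ) ∣ b x y → ρ ∣ b t y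

/-- the component of a new root in the summand S -/
def AD {M : Type} [AddCommGroup M] (b : M → M → ℤ) (S : AddSubgroup M) (x t : M) (ρ : ℤ) :
    Prop :=
  (∃ z ∈ S, t = x + (2 : ℤ) • z) ∧ 0 < ρ ∧ ρ % 4 = 2 ∧ ∀ y ∈ S, (2 : ℤ) ∣ b x y → ρ ∣ b t y

/-- lower bound j ρ for the norm of the component, with information P in the case of equality -/
def JR {M : Type} [AddCommGroup M] (b : M → M → ℤ) (S : AddSubgroup M) (x : M) (j : ℤ)
    (P : ℤ → M → Prop) : Prop :=
  ∀ (t : M) (ρ : ℤ), AD b S x t ρ → j * ρ ≤ b t t ∧ (b t t = j * ρ → P ρ t)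

/-- the data (i, x, j, P): the component i is touched by the class x -/
abbrev Tch (k : ℕ) (M : Type) : Type := Fin k × M × ℤ × (ℤ → M → Prop)

/-! ### Gram matrices as lists -/

/-- the entries of a matrix given by the list of its rows -/
def ent (G : List (List ℤ)) (i j : ℕ) : ℤ := (G.getD i []).getD j 0

/-- the list of rows of an m x m matrix -/
def mat (m : ℕ) (f : ℕ → ℕ → ℤ) : List (List ℤ) :=
  (List.range m).map fun i => (List.range m).map fun j => f i j

/-- the Cartan matrix of A_k -/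
def cA (i j : ℕ) : ℤ := if i = j then 2 else if i + 1 = j ∨ j + 1 = i then -1 else 0

/-- the Cartan matrix of D_k: the chain 0, ..., k - 2; the node k - 1 is joined to k - 3 -/
def cD (k i j : ℕ) : ℤ :=
  if i = j then 2 else
  if (i + 1 = j ∧ j + 1 < k) ∨ (j + 1 = i ∧ i + 1 < k) then -1 else
  if (i + 2 = j ∧ j + 1 = k) ∨ (j + 2 = i ∧ i + 1 = k) then -1 else 0

/-- the Cartan matrix of E_k: D_{k-1} and the node k - 1 joined to k - 2 -/
def cE (k i j : ℕ) : ℤ :=
  if i + 1 < k ∧ j + 1 < k then cD (k - 1) i j else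
  if i = j then 2 else if i + 1 = j ∨ j + 1 = i then -1 else 0

/-- the Cartan matrix of a type -/
def Ty.car : Ty → ℕ → ℕ → ℤ
  | .A _ => cA
  | .D k => cD k
  | .E k => cE k

/-- the Gram matrix of a component -/
def gr1 (T : Ty × ℤ) : List (List ℤ) := mat T.1.rk fun i j => T.2 * T.1.car i j

/-- the block diagonal matrix -/
def blk (G H : List (List ℤ)) : List (List ℤ) :=
  G.map (fun r => r ++ List.replicate H.length 0) ++
    H.map (fun r => List.replicate G.length 0 ++ r)

/-- the Gram matrix of an orthogonal sum -/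
def gr : List (Ty × ℤ) → List (List ℤ)
  | [] => []
  | T :: l => blk (gr1 T) (gr l)

/-- the vectors c 0, ..., c (m - 1), m the size of G, generate S and have the Gram matrix G -/
def GrB {M : Type} [AddCommGroup M] (b : M → M → ℤ) (S : AddSubgroup M) (G : List (List ℤ)) :
    Prop :=
  ∃ c : ℕ → M, (∀ i < G.length, c i ∈ S) ∧
    (∀ x ∈ S, x ∈ AddSubgroup.closure (c '' {i | i < G.length})) ∧
    ∀ i < G.length, ∀ j < G.length, b (c i) (c j) = ent G i j

/-- the same for a lattice L in the Lorentzian space -/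
def GrL {n : ℕ} (L : Submodule ℤ (V n)) (G : List (List ℤ)) : Prop :=
  G.length = n + 1 ∧ ∃ c : ℕ → V n, (∀ i < n + 1, c i ∈ L) ∧
    (∀ x ∈ L, x ∈ AddSubgroup.closure (c '' {i | i < n + 1})) ∧
    ∀ i < n + 1, ∀ j < n + 1, B (c i) (c j) = ent G i j

/-- the hyperbolic plane (with the sign used here: (e,f) = -1) -/
def hyp : List (List ℤ) := [[0, -1], [-1, 0]]

/-! ### integral matrices as lists -/

/-- scalar product -/
def dot (u v : List ℤ) : ℤ := (List.zipWith (· * ·) u v).sum

/-- the product A Bᵗ -/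
def mulT (A B : List (List ℤ)) : List (List ℤ) := A.map fun u => B.map fun v => dot u v

/-- transposed matrix of an m x m matrix -/
def trn (m : ℕ) (A : List (List ℤ)) : List (List ℤ) := mat m fun i j => ent A j i

/-- T transforms G into G', with inverse T' (all matrices of size m) -/
def chg (m : ℕ) (G T T' G' : List (List ℤ)) : Bool :=
  decide (mulT (mulT T G) T = G') &&
  decide (mulT T' (trn m T) = mat m fun i j => if i = j then 1 else 0) &&
  decide (G.length = m) && decide (T.length = m) && decide (T'.length = m) &&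
  G.all (fun r => decide (r.length = m)) && T.all (fun r => decide (r.length = m)) &&
  T'.all (fun r => decide (r.length = m)) && decide (trn m G = G)

end Pool.Agent.CN2

end
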